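import Pool.Agent.Y853.LC.Base
import Pool.Agent.W186.LH.Sab

set_option autoImplicit false

/-!
# Few zeros give an upper bound (local form of `W186.LH.sabZ`)
-/

namespace Pool.Agent.Y853.LC

open Complex Filter Topology Metric Set
open Pool.Agent.W186.LH (sabB)

section

variable {U : Set ℂ} (hU : IsOpen U) (hUp : IsPreconnected U)
include hU

theorem ord_of {F h : ℂ → ℂ} {z : ℂ} {n : ℕ} (hz : z ∈ U) (hF : DifferentiableOn ℂ F U)
    (hh : DifferentiableOn ℂ h U)
    (h0 : h z ≠ 0) (h1 : ∀ u ∈ U, F u = (u - z) ^ n * h u) : analyticOrderNatAt F z = n := by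
  have hn := hU.mem_nhds hz
  have h2 : analyticOrderAt F z = n := by
    rw [(hF.analyticAt hn).analyticOrderAt_eq_natCast]
    refine ⟨h, hh.analyticAt hn, h0, ?_⟩
    filter_upwards [hn] with u hu
    rw [h1 u hu, smul_eq_mul]
  unfold analyticOrderNatAt
  rw [h2]
  rfl

include hUp

theorem single {g : ℂ → ℂ} (hg : DifferentiableOn ℂ g U) (hne : ∃ u ∈ U, g u ≠ 0) {z : ℂ}
    (hz : z ∈ U) :
    ∃ h : ℂ → ℂ, DifferentiableOn ℂ h U ∧ h z ≠ 0 ∧
      ∀ u ∈ U, g u = (u - z) ^ (analyticOrderNatAt g z) * h u := by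
  have hgn : AnalyticOnNhd ℂ g U := hg.analyticOnNhd hU
  have han : AnalyticAt ℂ g z := hgn z hz
  have hord : analyticOrderAt g z ≠ ⊤ := by
    intro htop
    rw [analyticOrderAt_eq_top] at htop
    obtain ⟨u, hu1, hu⟩ := hne
    exact hu (hgn.eqOn_zero_of_preconnected_of_eventuallyEq_zero hUp hz htop hu1)
  obtain ⟨k, hk, hkz, hgk⟩ := (han.analyticOrderAt_ne_top).1 hord
  set n := analyticOrderNatAt g z with hn
  classical
  let h : ℂ → ℂ := fun u => if u = z then k z else g u / (u - z) ^ n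
  have heq : h =ᶠ[nhds z] k := by
    filter_upwards [hgk] with u hu
    by_cases huz : u = z
    · simp [h, huz]
    · have h3 : (u - z) ^ n ≠ 0 := pow_ne_zero _ (sub_ne_zero.2 huz)
      simp only [h, huz, if_false]
      rw [hu, smul_eq_mul, mul_div_cancel_left₀ _ h3]
  refine ⟨h, ?_, ?_, ?_⟩
  · intro u hu
    apply DifferentiableAt.differentiableWithinAt
    by_cases huz : u = z
    · subst huz
      exact (heq.differentiableAt_iff).2 hk.differentiableAt
    · have h4 : h =ᶠ[nhds u] fun v => g v / (v - z) ^ n := by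
        filter_upwards [isOpen_ne.mem_nhds huz] with v hv
        have hv' : v ≠ z := hv
        simp [h, hv']
      refine (h4.differentiableAt_iff).2 ?_
      refine DifferentiableAt.div (hgn u hu).differentiableAt (by fun_prop) ?_
      exact pow_ne_zero _ (sub_ne_zero.2 huz)
  · simpa [h] using hkz
  · intro u _
    by_cases huz : u = z
    · subst huz
      have h5 : g u = (u - u) ^ n • k u := hgk.self_of_nhds
      rw [h5, smul_eq_mul]
      simp [h]
    · have h3 : (u - z) ^ n ≠ 0 := pow_ne_zero _ (sub_ne_zero.2 huz)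
      simp only [h, huz, if_false]
      field_simp

theorem fac (Z : Finset ℂ) : (∀ z ∈ Z, z ∈ U) → ∀ {F : ℂ → ℂ}, DifferentiableOn ℂ F U →
    (∃ u ∈ U, F u ≠ 0) →
    ∃ g : ℂ → ℂ, DifferentiableOn ℂ g U ∧ (∀ z ∈ Z, g z ≠ 0) ∧
      ∀ u ∈ U, F u = (∏ z ∈ Z, (u - z) ^ (analyticOrderNatAt F z)) * g u := by
  classical
  induction Z using Finset.induction_on with
  | empty => exact fun _ F hF _ => ⟨F, hF, by simp, by simp⟩
  | insert z Z hz ih =>
    intro hZU F hF hne
    obtain ⟨g, hg, hgZ, hFg⟩ := ih (fun w hw => hZU w (Finset.mem_insert_of_mem hw)) hF hne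
    have hzU := hZU z (Finset.mem_insert_self z Z)
    have hgne : ∃ u ∈ U, g u ≠ 0 := by
      obtain ⟨u, hu1, hu⟩ := hne
      refine ⟨u, hu1, ?_⟩
      intro h0
      apply hu
      rw [hFg u hu1, h0, mul_zero]
    obtain ⟨h, hh, hhz, hgh⟩ := single hU hUp hg hgne hzU
    have hP : DifferentiableOn ℂ (fun u => (∏ w ∈ Z, (u - w) ^ (analyticOrderNatAt F w)) * h u) U := by
      refine DifferentiableOn.mul ?_ hh
      have : Differentiable ℂ fun u : ℂ => ∏ w ∈ Z, (u - w) ^ (analyticOrderNatAt F w) := by fun_prop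
      exact this.differentiableOn
    have hP0 : (∏ w ∈ Z, (z - w) ^ (analyticOrderNatAt F w)) * h z ≠ 0 := by
      refine mul_ne_zero (Finset.prod_ne_zero_iff.2 fun w hw => pow_ne_zero _ ?_) hhz
      rw [sub_ne_zero]
      rintro rfl
      exact hz hw
    have hord : analyticOrderNatAt F z = analyticOrderNatAt g z := by
      refine ord_of hU hzU hF hP hP0 fun u hu => ?_
      rw [hFg u hu, hgh u hu]
      ring
    refine ⟨h, hh, ?_, ?_⟩
    · intro y hy
      rcases Finset.mem_insert.1 hy with hy | hy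
      · rw [hy]; exact hhz
      · intro h0
        apply hgZ y hy
        rw [hgh y (hZU y (Finset.mem_insert_of_mem hy)), h0, mul_zero]
    · intro u hu
      rw [Finset.prod_insert hz, hord, hFg u hu, hgh u hu]
      ring

theorem zfin {F : ℂ → ℂ} (hF : DifferentiableOn ℂ F U) (hne : ∃ u ∈ U, F u ≠ 0) {K : Set ℂ}
    (hK : IsCompact K) (hKU : K ⊆ U) : (K ∩ {z | F z = 0}).Finite := by
  by_contra hinf
  obtain ⟨z0, hz0, hacc⟩ := Set.Infinite.exists_accPt_of_subset_isCompact hinf hK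
    Set.inter_subset_left
  have hfreq : ∃ᶠ z in 𝓝[≠] z0, F z = 0 := by
    have := accPt_iff_frequently_nhdsNE.1 hacc
    exact this.mono fun z hz => hz.2
  have hzero := (hF.analyticOnNhd hU).eqOn_zero_of_preconnected_of_frequently_eq_zero hUp (hKU hz0)
    hfreq
  obtain ⟨u, hu1, hu2⟩ := hne
  exact hu2 (hzero hu1)

end

/-- few zeros -/
theorem sabZ (η0 η K0 : ℝ) (hη0 : 0 < η0) (hη04 : η0 ≤ 1 / 4) (hη : 0 < η) (hK0 : 0 < K0) :
    ∃ ε : ℝ, 0 < ε ∧ ∀ (L : ℝ) (F : ℂ → ℂ), 0 < L →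
      DifferentiableOn ℂ F (ball 5 5) → (∀ z ∈ ball (5 : ℂ) 5, ‖F z‖ ≤ Real.exp (K0 * L)) →
      (∀ z ∈ closedBall (5 : ℂ) (7 / 2), Real.exp (-(ε * L)) ≤ ‖F z‖ ∧ ‖F z‖ ≤ Real.exp (ε * L)) →
      (∀ S : Finset ℂ, (∀ z ∈ S, F z = 0 ∧ z ∈ closedBall (5 : ℂ) (5 - η0 / 4)) →
        ∑ z ∈ S, (analyticOrderNatAt F z : ℝ) ≤ ε * L) →
      ∀ z ∈ closedBall (5 : ℂ) (5 - η0), ‖F z‖ ≤ Real.exp (η * L) := by
  obtain ⟨ε1, hε10, hε11, hB⟩ := sabB η0 (η / 2) (K0 + 1) hη0 hη04 (by linarith) (by linarith)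
  obtain ⟨q, hq⟩ : ∃ q : ℝ, q = Real.log (8 / η0) := ⟨_, rfl⟩
  have hq0 : 0 < q := by
    rw [hq]; apply Real.log_pos
    rw [lt_div_iff₀ hη0]; linarith
  have hq1 : Real.exp q = 8 / η0 := by rw [hq, Real.exp_log (by positivity)]
  obtain ⟨ε, hε⟩ : ∃ ε : ℝ, ε = min (ε1 / 5) (min (1 / q) (η / 6)) := ⟨_, rfl⟩
  have hε0 : 0 < ε := by rw [hε]; exact lt_min (by linarith) (lt_min (by positivity) (by linarith))
  have e1 : ε ≤ ε1 / 5 := by rw [hε]; exact min_le_left _ _
  have e2 : ε ≤ 1 / q := by rw [hε]; exact (min_le_right _ _).trans (min_le_left _ _)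
  have e3 : ε ≤ η / 6 := by rw [hε]; exact (min_le_right _ _).trans (min_le_right _ _)
  have e2' : ε * q ≤ 1 := by rwa [le_div_iff₀ hq0] at e2
  refine ⟨ε, hε0, ?_⟩
  intro L F hL hF H1 H2 H3 u hu
  have hF5 : F 5 ≠ 0 := by
    have := (H2 5 (mem_closedBall_self (by norm_num))).1
    rw [← norm_pos_iff]
    exact lt_of_lt_of_le (Real.exp_pos _) this
  have h55 : (5 : ℂ) ∈ ball (5 : ℂ) 5 := mem_ball_self (by norm_num)
  have hUp : IsPreconnected (ball (5 : ℂ) 5) := (convex_ball _ _).isPreconnected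
  have hsubU : closedBall (5 : ℂ) (5 - η0 / 4) ⊆ ball 5 5 := closedBall_subset_ball (by linarith)
  have hfin := zfin isOpen_ball hUp hF ⟨5, h55, hF5⟩ (isCompact_closedBall (5 : ℂ) (5 - η0 / 4)) hsubU
  obtain ⟨Z, hZ⟩ : ∃ Z : Finset ℂ, Z = hfin.toFinset := ⟨_, rfl⟩
  have hZm : ∀ z, z ∈ Z ↔ z ∈ closedBall (5 : ℂ) (5 - η0 / 4) ∧ F z = 0 := by
    intro z; rw [hZ, Set.Finite.mem_toFinset]; rfl
  obtain ⟨G, hG, hGZ, hFG⟩ := fac isOpen_ball hUp Z (fun z hz => hsubU ((hZm z).1 hz).1) hF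
    ⟨5, h55, hF5⟩
  obtain ⟨N, hN⟩ : ∃ N : ℕ, N = ∑ z ∈ Z, analyticOrderNatAt F z := ⟨_, rfl⟩
  have hNL : (N : ℝ) ≤ ε * L := by
    have := H3 Z (fun z hz => ⟨((hZm z).1 hz).2, ((hZm z).1 hz).1⟩)
    rw [hN]; push_cast; exact this
  -- products
  have hlow : ∀ (w : ℂ) (a : ℝ), 0 ≤ a → (∀ z ∈ Z, a ≤ ‖w - z‖) →
      a ^ N ≤ ‖∏ z ∈ Z, (w - z) ^ (analyticOrderNatAt F z)‖ := by
    intro w a ha hw
    rw [norm_prod, hN, ← Finset.prod_pow_eq_pow_sum]
    refine Finset.prod_le_prod (fun z _ => by positivity) fun z hz => ?_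
    rw [norm_pow]
    exact pow_le_pow_left₀ ha (hw z hz) _
  have hupp : ∀ (w : ℂ) (a : ℝ), (∀ z ∈ Z, ‖w - z‖ ≤ a) →
      ‖∏ z ∈ Z, (w - z) ^ (analyticOrderNatAt F z)‖ ≤ a ^ N := by
    intro w a hw
    rw [norm_prod, hN, ← Finset.prod_pow_eq_pow_sum]
    refine Finset.prod_le_prod (fun z _ => norm_nonneg _) fun z hz => ?_
    rw [norm_pow]
    exact pow_le_pow_left₀ (norm_nonneg _) (hw z hz) _
  have h10 : ∀ w ∈ ball (5 : ℂ) 5, ∀ z ∈ Z, ‖w - z‖ ≤ 10 := by
    intro w hw z hz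
    have h1 := ((hZm z).1 hz).1
    rw [mem_closedBall] at h1
    rw [mem_ball] at hw
    have := dist_triangle_right w z 5
    rw [← dist_eq_norm]
    linarith
  have e10 : (10 : ℝ) ^ N ≤ Real.exp (3 * ε * L) := by
    have a1 : (10 : ℝ) ≤ Real.exp 3 := by
      have h8 : Real.exp 3 = Real.exp 1 ^ 3 := by rw [← Real.exp_nat_mul]; norm_num
      rw [h8]
      have h9 := Real.exp_one_gt_d9
      calc (10 : ℝ) ≤ (2.7182818283 : ℝ) ^ 3 := by norm_num
        _ ≤ Real.exp 1 ^ 3 := by gcongr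
    calc (10 : ℝ) ^ N ≤ (Real.exp 3) ^ N := by gcongr
      _ = Real.exp (N * 3) := by rw [← Real.exp_nat_mul]
      _ ≤ _ := by apply Real.exp_le_exp.2; linarith
  -- G on the big ball
  have hGbig : ∀ w ∈ closedBall (5 : ℂ) (5 - η0 / 8), ‖G w‖ ≤ Real.exp ((K0 + 1) * L) := by
    intro w hw
    refine Complex.norm_le_of_forall_mem_frontier_norm_le (U := ball (5 : ℂ) (5 - η0 / 8)) isBounded_ball
      (by
        apply DifferentiableOn.diffContOnCl
        rw [closure_ball _ (by linarith)]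
        exact hG.mono (closedBall_subset_ball (by linarith))) ?_ (by rw [closure_ball _ (by linarith)]; exact hw)
    intro z hz
    rw [frontier_ball _ (by linarith), mem_sphere] at hz
    have hd : ∀ y ∈ Z, η0 / 8 ≤ ‖z - y‖ := by
      intro y hy
      have h1 := ((hZm y).1 hy).1
      rw [mem_closedBall] at h1
      have := dist_triangle z y 5
      rw [← dist_eq_norm]
      linarith
    have hp := hlow z (η0 / 8) (by positivity) hd
    have hz5 : z ∈ ball (5 : ℂ) 5 := by rw [mem_ball]; linarith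
    have hFz := H1 z hz5
    rw [hFG z hz5, norm_mul] at hFz
    have h8 : (η0 / 8) ^ N * ‖G z‖ ≤ Real.exp (K0 * L) :=
      (mul_le_mul_of_nonneg_right hp (norm_nonneg _)).trans hFz
    have h9 : (η0 / 8) ^ N = Real.exp (-(N * q)) := by
      rw [Real.exp_neg, Real.exp_nat_mul, hq1, ← inv_pow]
      congr 1
      field_simp
    rw [h9] at h8
    calc ‖G z‖ = Real.exp (N * q) * (Real.exp (-(N * q)) * ‖G z‖) := by
          rw [← mul_assoc, ← Real.exp_add, add_neg_cancel, Real.exp_zero, one_mul]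
      _ ≤ Real.exp (N * q) * Real.exp (K0 * L) := mul_le_mul_of_nonneg_left h8 (Real.exp_pos _).le
      _ = Real.exp (N * q + K0 * L) := (Real.exp_add _ _).symm
      _ ≤ _ := by
          apply Real.exp_le_exp.2
          have : (N : ℝ) * q ≤ ε * L * q := mul_le_mul_of_nonneg_right hNL hq0.le
          have h5 : ε * q * L ≤ 1 * L := mul_le_mul_of_nonneg_right e2' hL.le
          linarith
  have hGn : ∀ z ∈ ball (5 : ℂ) (5 - η0 / 4), G z ≠ 0 := by
    intro z hz h0
    have hzF : F z = 0 := by rw [hFG z (ball_subset_ball (by linarith) hz), h0, mul_zero]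
    exact hGZ z ((hZm z).2 ⟨ball_subset_closedBall hz, hzF⟩) h0
  have hGs : ∀ z ∈ ball (5 : ℂ) (16 / 5), Real.exp (-(ε1 * L)) ≤ ‖G z‖ ∧ ‖G z‖ ≤ Real.exp (ε1 * L) := by
    intro z hz
    rw [mem_ball] at hz
    obtain ⟨b1, b2⟩ := H2 z (by rw [mem_closedBall]; linarith)
    have hd : ∀ y ∈ Z, 3 / 10 ≤ ‖z - y‖ := by
      intro y hy
      by_contra hc
      push Not at hc
      have h1 := dist_triangle y z 5
      rw [dist_comm y z, dist_eq_norm z y] at h1
      have h2 := (H2 y (by rw [mem_closedBall]; linarith)).1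
      rw [((hZm y).1 hy).2, norm_zero] at h2
      have := Real.exp_pos (-(ε * L))
      linarith
    have hp := hlow z (3 / 10) (by norm_num) hd
    have hz5 : z ∈ ball (5 : ℂ) 5 := by rw [mem_ball]; linarith
    have hp' := hupp z 10 (h10 z hz5)
    rw [hFG z hz5, norm_mul] at b1 b2
    have e310 : Real.exp (-(3 * ε * L)) ≤ (3 / 10 : ℝ) ^ N := by
      have a1 : (10 : ℝ) ^ N * (3 / 10) ^ N = 3 ^ N := by rw [← mul_pow]; norm_num
      have a2 : (1 : ℝ) ≤ 3 ^ N := one_le_pow₀ (by norm_num)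
      rw [Real.exp_neg, inv_le_comm₀ (Real.exp_pos _) (by positivity)]
      refine le_trans ?_ e10
      rw [inv_le_comm₀ (by positivity) (by positivity), ← inv_pow]
      apply pow_le_pow_left₀ (by norm_num)
      norm_num
    constructor
    · have h3 : Real.exp (-(ε * L)) ≤ Real.exp (3 * ε * L) * ‖G z‖ :=
        b1.trans (mul_le_mul_of_nonneg_right (hp'.trans e10) (norm_nonneg _))
      calc Real.exp (-(ε1 * L)) ≤ Real.exp (-(3 * ε * L)) * Real.exp (-(ε * L)) := by
            rw [← Real.exp_add]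
            apply Real.exp_le_exp.2
            have : ε * L ≤ ε1 / 5 * L := mul_le_mul_of_nonneg_right e1 hL.le
            have h6 : 0 < ε * L := by positivity
            linarith
        _ ≤ Real.exp (-(3 * ε * L)) * (Real.exp (3 * ε * L) * ‖G z‖) :=
            mul_le_mul_of_nonneg_left h3 (Real.exp_pos _).le
        _ = ‖G z‖ := by rw [← mul_assoc, ← Real.exp_add, neg_add_cancel, Real.exp_zero, one_mul]
    · have h3 : Real.exp (-(3 * ε * L)) * ‖G z‖ ≤ Real.exp (ε * L) :=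
        (mul_le_mul_of_nonneg_right (e310.trans hp) (norm_nonneg _)).trans b2
      calc ‖G z‖ = Real.exp (3 * ε * L) * (Real.exp (-(3 * ε * L)) * ‖G z‖) := by
            rw [← mul_assoc, ← Real.exp_add, add_neg_cancel, Real.exp_zero, one_mul]
        _ ≤ Real.exp (3 * ε * L) * Real.exp (ε * L) := mul_le_mul_of_nonneg_left h3 (Real.exp_pos _).le
        _ = Real.exp (3 * ε * L + ε * L) := (Real.exp_add _ _).symm
        _ ≤ _ := by
            apply Real.exp_le_exp.2
            have : ε * L ≤ ε1 / 5 * L := mul_le_mul_of_nonneg_right e1 hL.le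
            have h6 : 0 < ε * L := by positivity
            linarith
  have hGu := hB L G hL (hG.mono (ball_subset_ball (by linarith))) hGn (fun z hz => hGbig z (by
    rw [mem_ball] at hz; rw [mem_closedBall]; linarith)) hGs u hu
  rw [mem_closedBall] at hu
  have hu5 : u ∈ ball (5 : ℂ) 5 := by rw [mem_ball]; linarith
  rw [hFG u hu5, norm_mul]
  have hp' := hupp u 10 (h10 u hu5)
  calc ‖∏ z ∈ Z, (u - z) ^ (analyticOrderNatAt F z)‖ * ‖G u‖
      ≤ Real.exp (3 * ε * L) * Real.exp (η / 2 * L) :=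
        mul_le_mul (hp'.trans e10) hGu (norm_nonneg _) (Real.exp_pos _).le
    _ = Real.exp (3 * ε * L + η / 2 * L) := (Real.exp_add _ _).symm
    _ ≤ _ := by
        apply Real.exp_le_exp.2
        have : ε * L ≤ η / 6 * L := mul_le_mul_of_nonneg_right e3 hL.le
        linarith

end Pool.Agent.Y853.LC
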