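import Pool.Agent.Y853.LC.Zeta

set_option autoImplicit false

/-!
# Zeros of `P(d/ds) ζ - A` to the left of `1 - θ` and the size of zeta on `Re s = θ`
-/

namespace Pool.Agent.Y853.LC

open Complex Filter Topology Set Polynomial
open Pool.Agent.Y853.SP (FF FF_fac Tame im_ne_one FF_an)

/-- few zeros in a window, to the left of `1 - θ - η` -/
def Few (F : ℂ → ℂ) (θ η T W : ℝ) : Prop := ∀ S : Finset ℂ,
  (∀ s ∈ S, F s = 0 ∧ -1 < s.re ∧ s.re < 1 - θ - η ∧ |s.im - T| ≤ W) →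
    ∑ s ∈ S, (analyticOrderNatAt F s : ℝ) ≤ η * Real.log T

theorem Fc_zt (C : ℂ) (l : List ℂ) (A : ℂ → ℂ) (t : ℝ) :
    Fc (zt t) C l (fun s => A (s + t * I)) = fun s => SP.Fc C l A (s + t * I) := by
  funext s
  unfold Fc SP.Fc
  rw [Gl_zt]

theorem tame_sm {A : ℂ → ℂ} (hA : Tame A) {η Y : ℝ} (hη : 0 < η) : ∃ T0 : ℝ, 2 ≤ T0 ∧
    ∀ t : ℝ, T0 ≤ t → Sm (fun s => A (s + t * I)) η (Real.log t) Y := by
  obtain ⟨M, hM⟩ := hA.bdd 12
  obtain ⟨T0, hT0, h⟩ := SP.const_le_pow M hη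
  refine ⟨T0, hT0, fun t ht => ⟨fun s _ _ _ => tr_an (hA.diff.analyticAt _), fun s h1 h2 _ => ?_⟩⟩
  have ht0 : 0 < t := by linarith
  calc ‖A (s + t * I)‖ ≤ M := hM _ (by simp only [Complex.add_re, Complex.mul_re, Complex.ofReal_re,
        Complex.I_re, mul_zero, Complex.ofReal_im, Complex.I_im, mul_one, sub_zero, add_zero]
                                       rw [abs_le]; constructor <;> linarith)
    _ ≤ t ^ η := h t ht
    _ = _ := by rw [Real.rpow_def_of_pos ht0, mul_comm]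

theorem ord_FF {P : ℂ[X]} {A : ℂ → ℂ} {c : ℂ} {l : List ℂ} (h : ∀ s : ℂ, s ≠ 1 → FF P A s = SP.Fc c l A s)
    {w : ℂ} (hw : w ≠ 1) : analyticOrderNatAt (FF P A) w = analyticOrderNatAt (SP.Fc c l A) w := by
  have h1 : FF P A =ᶠ[𝓝 w] SP.Fc c l A := by
    have : ∀ᶠ z in 𝓝 w, z ≠ 1 := isOpen_ne.mem_nhds hw
    filter_upwards [this] with z hz
    exact h z hz
  unfold analyticOrderNatAt
  rw [analyticOrderAt_congr h1]

/-- `Few` in local coordinates -/
theorem few_local {P : ℂ[X]} {A : ℂ → ℂ} {c : ℂ} {l : List ℂ}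
    (h : ∀ s : ℂ, s ≠ 1 → FF P A s = SP.Fc c l A s) {θ η T W : ℝ} (hT : W < T) :
    Few (FF P A) θ η T W ↔ ∀ S : Finset ℂ,
      (∀ w ∈ S, Fc (zt T) c l (fun s => A (s + T * I)) w = 0 ∧ -1 < w.re ∧ w.re < 1 - θ - η ∧
        |w.im - 0| ≤ W) →
      ∑ w ∈ S, (analyticOrderNatAt (Fc (zt T) c l (fun s => A (s + T * I))) w : ℝ) ≤
        η * Real.log T := by
  classical
  have hne : ∀ w : ℂ, |w.im - T| ≤ W → w ≠ 1 := by
    intro w hw
    refine im_ne_one ?_
    rw [abs_le] at hw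
    linarith
  constructor
  · intro hf S hS
    have hinj : Function.Injective fun w : ℂ => w + T * I := fun a b h => by simpa using h
    have hS' : ∀ w ∈ S, |(w + T * I : ℂ).im - T| ≤ W := by
      intro w hw
      have := (hS w hw).2.2.2
      simpa using this
    have e1 : ∑ w ∈ S, (analyticOrderNatAt (Fc (zt T) c l (fun s => A (s + T * I))) w : ℝ) =
        ∑ s ∈ S.image (fun w => w + T * I), (analyticOrderNatAt (FF P A) s : ℝ) := by
      rw [Finset.sum_image (fun a _ b _ h => hinj h)]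
      refine Finset.sum_congr rfl fun w hw => ?_
      rw [Fc_zt, tr_order, ord_FF h (hne _ (hS' w hw))]
    rw [e1]
    refine hf _ fun s hs => ?_
    obtain ⟨w, hw, rfl⟩ := Finset.mem_image.1 hs
    obtain ⟨g1, g2, g3, g4⟩ := hS w hw
    rw [Fc_zt] at g1
    refine ⟨?_, by simpa using g2, by simpa using g3, hS' w hw⟩
    rw [h _ (hne _ (hS' w hw))]
    exact g1
  · intro hf S hS
    have hinj : Function.Injective fun w : ℂ => w - T * I := fun a b h => by simpa using h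
    have hs : ∀ w : ℂ, w - T * I + T * I = w := fun w => by ring
    have e1 : ∑ s ∈ S, (analyticOrderNatAt (FF P A) s : ℝ) =
        ∑ w ∈ S.image (fun w => w - T * I),
          (analyticOrderNatAt (Fc (zt T) c l (fun s => A (s + T * I))) w : ℝ) := by
      rw [Finset.sum_image (fun a _ b _ h => hinj h)]
      refine Finset.sum_congr rfl fun w hw => ?_
      rw [Fc_zt, tr_order, hs, ord_FF h (hne _ (hS w hw).2.2.2)]
    rw [e1]
    refine hf _ fun s hs' => ?_
    obtain ⟨w, hw, rfl⟩ := Finset.mem_image.1 hs'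
    obtain ⟨g1, g2, g3, g4⟩ := hS w hw
    refine ⟨?_, by simpa using g2, by simpa using g3, by simpa using g4⟩
    rw [Fc_zt]
    show SP.Fc c l A (w - T * I + T * I) = 0
    rw [hs, ← h _ (hne _ g4)]
    exact g1

/-- few zeros give small values -/
theorem law1 {P : ℂ[X]} {A : ℂ → ℂ} (hP : P ≠ 0) (hA : Tame A) {ε : ℝ} (hε : 0 < ε) :
    ∃ η W T0 : ℝ, 0 < η ∧ 0 < W ∧ 2 ≤ T0 ∧ ∀ θ T : ℝ, 1 / 2 ≤ θ → θ ≤ 1 → T0 ≤ T →
      Few (FF P A) θ η T W → ‖riemannZeta (θ + T * I)‖ ≤ T ^ ε := by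
  obtain ⟨c, l, hc, h⟩ := FF_fac hP A
  obtain ⟨a, ha, hdat⟩ := zt_dat
  obtain ⟨W, η, L0, hW, hη, hL0, hmain⟩ := lh1 hc l ha hε
  obtain ⟨T1, hT1, h1⟩ := hdat η W hη hW
  obtain ⟨T2, hT2, h2⟩ := tame_sm hA (η := η) (Y := W) hη
  obtain ⟨T3, hT3, h3⟩ := SP.log_ge L0
  obtain ⟨T0, g1, g2, g3, g4⟩ : ∃ T0 : ℝ, T1 ≤ T0 ∧ T2 ≤ T0 ∧ T3 ≤ T0 ∧ W + 2 ≤ T0 := by
    refine ⟨max (max T1 T2) (max T3 (W + 2)), ?_, ?_, ?_, ?_⟩ <;> simp
  refine ⟨η, W, T0, hη, hW, by linarith, ?_⟩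
  intro θ T hθ hθ1 hT hf
  obtain ⟨k1, k2⟩ := h1 T (by linarith)
  have k3 := h2 T (by linarith)
  have key := hmain (zt T) (fun s => A (s + T * I)) (Real.log T) W θ 0 (h3 T (by linarith))
    (by simp) k1 k3 k2 hθ hθ1 ((few_local h (by linarith)).1 hf)
  have e : zt T (θ + (0 : ℝ) * I) = riemannZeta (θ + T * I) := by
    unfold zt; simp
  rw [e] at key
  rw [Real.rpow_def_of_pos (by linarith), mul_comm (Real.log T)]
  exact key

/-- small values give few zeros -/
theorem law2 {P : ℂ[X]} {A : ℂ → ℂ} (hP : P ≠ 0) (hA : Tame A) {ε : ℝ} (hε : 0 < ε) :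
    ∃ η W T0 : ℝ, 0 < η ∧ 0 < W ∧ 2 ≤ T0 ∧ ∀ θ T : ℝ, 1 / 2 ≤ θ → θ ≤ 1 → T0 ≤ T →
      (∀ v : ℝ, |v - T| ≤ W → ‖riemannZeta (θ + v * I)‖ ≤ T ^ η) → Few (FF P A) θ ε T 1 := by
  obtain ⟨c, l, hc, h⟩ := FF_fac hP A
  obtain ⟨a, ha, hdat⟩ := zt_dat
  obtain ⟨ε', hε', h1', h2'⟩ : ∃ ε' : ℝ, 0 < ε' ∧ ε' ≤ 1 / 4 ∧ ε' ≤ ε :=
    ⟨min (1 / 4) ε, by positivity, min_le_left _ _, min_le_right _ _⟩
  obtain ⟨W, η, L0, hW, hη, hL0, hmain⟩ := lh2 hc l ha hε' h1'
  obtain ⟨T1, hT1, h1⟩ := hdat η W hη hW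
  obtain ⟨T2, hT2, h2⟩ := tame_sm hA (η := η) (Y := W) hη
  obtain ⟨T3, hT3, h3⟩ := SP.log_ge L0
  obtain ⟨T0, g1, g2, g3, g4⟩ : ∃ T0 : ℝ, T1 ≤ T0 ∧ T2 ≤ T0 ∧ T3 ≤ T0 ∧ W + 2 ≤ T0 := by
    refine ⟨max (max T1 T2) (max T3 (W + 2)), ?_, ?_, ?_, ?_⟩ <;> simp
  refine ⟨η, W, T0, hη, hW, by linarith, ?_⟩
  intro θ T hθ hθ1 hT hf
  obtain ⟨k1, k2⟩ := h1 T (by linarith)
  have k3 := h2 T (by linarith)
  have hT0 : 0 < T := by linarith
  have hlog : 0 ≤ Real.log T := Real.log_nonneg (by linarith)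
  have hfew : Few (FF P A) θ ε' T 1 := by
    rw [few_local h (by linarith)]
    refine hmain (zt T) (fun s => A (s + T * I)) (Real.log T) W θ 0 (h3 T (by linarith))
      (by simp) k1 k3 k2 hθ hθ1 (fun v hv => ?_)
    have e : zt T (θ + v * I) = riemannZeta (θ + (v + T : ℝ) * I) := by
      unfold zt; congr 1; push_cast; ring
    rw [e, mul_comm η, ← Real.rpow_def_of_pos hT0]
    exact hf (v + T) (by simpa using hv)
  intro S hS
  refine (hfew S fun s hs => ?_).trans (by gcongr)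
  obtain ⟨g5, g6, g7, g8⟩ := hS s hs
  exact ⟨g5, g6, by linarith, g8⟩

/-- monotonicity -/
theorem Few.mono {F : ℂ → ℂ} {θ η η' T T' W W' : ℝ} (h : Few F θ η T W) (hη0 : 0 ≤ η)
    (hη : 2 * η ≤ η') (hW : W' + |T' - T| ≤ W) (hT : 2 ≤ T') (hTT : T ≤ 2 * T') (hT0 : 1 ≤ T) :
    Few F θ η' T' W' := by
  intro S hS
  have h1 := h S (fun s hs => by
    obtain ⟨g5, g6, g7, g8⟩ := hS s hs
    refine ⟨g5, g6, by linarith, ?_⟩
    calc |s.im - T| = |(s.im - T') + (T' - T)| := by congr 1; ring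
      _ ≤ _ := abs_add_le _ _
      _ ≤ _ := by linarith)
  refine h1.trans ?_
  have h2 : Real.log T ≤ 2 * Real.log T' := by
    have h3 : Real.log T ≤ Real.log (2 * T') := Real.log_le_log (by linarith) hTT
    rw [Real.log_mul (by norm_num) (by linarith)] at h3
    have h4 : Real.log 2 ≤ Real.log T' := Real.log_le_log (by norm_num) hT
    linarith
  have h5 : 0 ≤ Real.log T' := Real.log_nonneg (by linarith)
  nlinarith

/-- comparison of two functions -/
theorem cmp {P Q : ℂ[X]} {A B : ℂ → ℂ} (hP : P ≠ 0) (hQ : Q ≠ 0) (hA : Tame A) (hB : Tame B)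
    {ε : ℝ} (hε : 0 < ε) :
    ∃ η W T0 : ℝ, 0 < η ∧ 0 < W ∧ 2 ≤ T0 ∧ ∀ θ T : ℝ, 1 / 2 ≤ θ → θ ≤ 1 → T0 ≤ T →
      Few (FF Q B) θ η T W → Few (FF P A) θ ε T 1 := by
  obtain ⟨η1, W1, T1, hη1, hW1, hT1, h1⟩ := law2 hP hA hε
  obtain ⟨η2, W2, T2, hη2, hW2, hT2, h2⟩ := law1 hQ hB (ε := η1 / 2) (by positivity)
  refine ⟨η2 / 2, W1 + W2, max T1 (T2 + 2 * W1 + 2), by positivity, by positivity,
    hT1.trans (le_max_left _ _), ?_⟩
  intro θ T hθ hθ1 hT hf
  have g1 : T1 ≤ T := (le_max_left _ _).trans hT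
  have g2 : T2 + 2 * W1 + 2 ≤ T := (le_max_right _ _).trans hT
  refine h1 θ T hθ hθ1 g1 fun v hv => ?_
  have hv' := abs_le.1 hv
  have hv0 : 0 ≤ v := by linarith
  have hv2 : v ≤ T ^ 2 := by
    have : v ≤ 2 * T := by linarith
    nlinarith
  have h3 := h2 θ v hθ hθ1 (by linarith) (hf.mono (by positivity) (by linarith) (by linarith)
    (by linarith) (by linarith) (by linarith))
  refine h3.trans ?_
  have hT0 : 0 < T := by linarith
  calc v ^ (η1 / 2) ≤ (T ^ (2 : ℝ)) ^ (η1 / 2) := by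
        apply Real.rpow_le_rpow hv0 _ (by positivity)
        rw [Real.rpow_two]; exact hv2
    _ = T ^ η1 := by rw [← Real.rpow_mul hT0.le]; congr 1; ring

/-- size on the line `Re s = θ` -/
def Expo (θ : ℝ) : Prop := ∀ ε : ℝ, 0 < ε → ∃ C : ℝ, ∀ t : ℝ, 1 ≤ t →
  ‖riemannZeta (θ + t * I)‖ ≤ C * t ^ ε

theorem glob {P : ℂ[X]} {A : ℂ → ℂ} (hP : P ≠ 0) (hA : Tame A) {θ : ℝ} (hθ : 1 / 2 ≤ θ)
    (hθ1 : θ ≤ 1) :
    Expo θ ↔ ∀ ε : ℝ, 0 < ε → ∃ T0 : ℝ, ∀ T : ℝ, T0 ≤ T → Few (FF P A) θ ε T 1 := by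
  classical
  constructor
  · intro hE ε hε
    obtain ⟨η, W, T1, hη, hW, hT1, h1⟩ := law2 hP hA hε
    obtain ⟨C, hC⟩ := hE (η / 4) (by positivity)
    obtain ⟨T2, hT2, h2⟩ := SP.const_le_pow |C| (ε := η / 2) (by positivity)
    refine ⟨max T1 (max T2 (W + 2)), fun T hT => ?_⟩
    have g1 : T1 ≤ T := (le_max_left _ _).trans hT
    have g2 : T2 ≤ T := ((le_max_left _ _).trans (le_max_right _ _)).trans hT
    have g3 : W + 2 ≤ T := ((le_max_right _ _).trans (le_max_right _ _)).trans hT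
    refine h1 θ T hθ hθ1 g1 fun v hv => ?_
    have hv' := abs_le.1 hv
    have hT0 : 0 < T := by linarith
    have hv0 : 0 ≤ v := by linarith
    have hv2 : v ≤ T ^ (2 : ℝ) := by
      have : v ≤ 2 * T := by linarith
      rw [Real.rpow_two]; nlinarith
    calc ‖riemannZeta (θ + v * I)‖ ≤ C * v ^ (η / 4) := hC v (by linarith)
      _ ≤ |C| * v ^ (η / 4) := by
          have : 0 ≤ v ^ (η / 4) := Real.rpow_nonneg (by linarith) _
          gcongr
          exact le_abs_self C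
      _ ≤ T ^ (η / 2) * (T ^ (2 : ℝ)) ^ (η / 4) := by
          have h5 := h2 T g2
          have h6 : v ^ (η / 4) ≤ (T ^ (2 : ℝ)) ^ (η / 4) :=
            Real.rpow_le_rpow hv0 hv2 (by positivity)
          exact mul_le_mul h5 h6 (Real.rpow_nonneg hv0 _) (Real.rpow_nonneg hT0.le _)
      _ = T ^ η := by
          rw [← Real.rpow_mul hT0.le, ← Real.rpow_add hT0]; congr 1; ring
  · intro hF ε hε
    obtain ⟨η, W, T1, hη, hW, hT1, h1⟩ := law1 hP hA hε
    obtain ⟨N, hN⟩ := exists_nat_gt W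
    have hN0 : (0 : ℝ) ≤ N := Nat.cast_nonneg _
    obtain ⟨ε', hε', hε'1, hε'2⟩ : ∃ ε' : ℝ, 0 < ε' ∧ ε' ≤ η ∧ ε' * (2 * (2 * N + 1)) ≤ η := by
      refine ⟨η / (2 * (2 * N + 1)), by positivity, ?_, ?_⟩
      · apply div_le_self hη.le
        linarith
      · exact le_of_eq (div_mul_cancel₀ _ (by positivity))
    obtain ⟨T2, h2⟩ := hF ε' hε'
    obtain ⟨T3, hT3⟩ : ∃ T3 : ℝ, T3 = max T1 (max (T2 + N) (2 * N + 2)) := ⟨_, rfl⟩
    have g1 : T1 ≤ T3 := by rw [hT3]; exact le_max_left _ _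
    have g2 : T2 + N ≤ T3 := by rw [hT3]; exact (le_max_left _ _).trans (le_max_right _ _)
    have g3 : 2 * (N : ℝ) + 2 ≤ T3 := by rw [hT3]; exact (le_max_right _ _).trans (le_max_right _ _)
    -- large `T`
    have hlarge : ∀ T : ℝ, T3 ≤ T → ‖riemannZeta (θ + T * I)‖ ≤ T ^ ε := by
      intro T hT
      refine h1 θ T hθ hθ1 (by linarith) ?_
      intro S hS
      obtain ⟨v, hv⟩ : ∃ v : ℕ → ℝ, v = fun j : ℕ => T - N + (j : ℝ) := ⟨_, rfl⟩
      have hvj : ∀ j ∈ Finset.range (2 * N + 1), T - N ≤ v j ∧ v j ≤ T + N := by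
        intro j hj
        rw [Finset.mem_range] at hj
        have h4 : (j : ℝ) ≤ 2 * N := by exact_mod_cast Nat.lt_succ_iff.1 hj
        have h5 : (0 : ℝ) ≤ j := Nat.cast_nonneg _
        rw [hv]
        constructor <;> simp only <;> linarith
      have hcov : ∀ w ∈ S, ∃ j ∈ Finset.range (2 * N + 1), |w.im - v j| ≤ 1 := by
        intro w hw
        obtain ⟨-, -, -, g5⟩ := hS w hw
        rw [abs_le] at g5
        have h0 : 0 ≤ w.im - (T - N) := by linarith
        refine ⟨⌊w.im - (T - N)⌋₊, ?_, ?_⟩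
        · rw [Finset.mem_range, Nat.floor_lt h0]
          push_cast
          linarith
        · have h4 := Nat.floor_le h0
          have h5 := Nat.lt_floor_add_one (w.im - (T - N))
          rw [hv, abs_le]
          constructor <;> simp only <;> linarith
      have hone : ∀ j ∈ Finset.range (2 * N + 1), ∑ w ∈ S.filter (fun w => |w.im - v j| ≤ 1),
          (analyticOrderNatAt (FF P A) w : ℝ) ≤ ε' * (2 * Real.log T) := by
        intro j hj
        obtain ⟨h6, h7⟩ := hvj j hj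
        refine (h2 (v j) (by linarith) _ fun w hw => ?_).trans ?_
        · rw [Finset.mem_filter] at hw
          obtain ⟨g4, g5, g6, -⟩ := hS w hw.1
          exact ⟨g4, g5, by linarith, hw.2⟩
        · have h8 : Real.log (v j) ≤ 2 * Real.log T := by
            have h9 : Real.log (v j) ≤ Real.log (2 * T) := Real.log_le_log (by linarith) (by linarith)
            rw [Real.log_mul (by norm_num) (by linarith)] at h9
            have h10 : Real.log 2 ≤ Real.log T := Real.log_le_log (by norm_num) (by linarith)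
            linarith
          gcongr
      calc ∑ w ∈ S, (analyticOrderNatAt (FF P A) w : ℝ)
          ≤ ∑ w ∈ S, ∑ j ∈ Finset.range (2 * N + 1),
              if |w.im - v j| ≤ 1 then (analyticOrderNatAt (FF P A) w : ℝ) else 0 := by
            refine Finset.sum_le_sum fun w hw => ?_
            obtain ⟨j, hj, hj2⟩ := hcov w hw
            calc (analyticOrderNatAt (FF P A) w : ℝ)
                = if |w.im - v j| ≤ 1 then (analyticOrderNatAt (FF P A) w : ℝ) else 0 := by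
                  rw [if_pos hj2]
              _ ≤ _ := Finset.single_le_sum (f := fun j => if |w.im - v j| ≤ 1 then
                  (analyticOrderNatAt (FF P A) w : ℝ) else 0) (fun i _ => by
                    split_ifs <;> positivity) hj
        _ = ∑ j ∈ Finset.range (2 * N + 1), ∑ w ∈ S.filter (fun w => |w.im - v j| ≤ 1),
              (analyticOrderNatAt (FF P A) w : ℝ) := by
            rw [Finset.sum_comm]
            refine Finset.sum_congr rfl fun j _ => ?_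
            rw [Finset.sum_filter]
        _ ≤ ∑ j ∈ Finset.range (2 * N + 1), ε' * (2 * Real.log T) := Finset.sum_le_sum hone
        _ = (2 * N + 1) * (ε' * (2 * Real.log T)) := by
            rw [Finset.sum_const, nsmul_eq_mul, Finset.card_range]; push_cast; ring
        _ = (ε' * (2 * (2 * N + 1))) * Real.log T := by ring
        _ ≤ η * Real.log T := by
            have : 0 ≤ Real.log T := Real.log_nonneg (by linarith)
            gcongr
    -- bounded `T`
    obtain ⟨M, hM⟩ := (isCompact_Icc (a := (1 : ℝ)) (b := T3)).exists_bound_of_continuousOn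
      (f := fun t : ℝ => riemannZeta (θ + t * I)) (by
        intro t ht
        have hne : (θ + t * I : ℂ) ≠ 1 := im_ne_one (by simp; linarith [ht.1])
        have h4 : ContinuousAt riemannZeta (θ + t * I) := (differentiableAt_riemannZeta hne).continuousAt
        have h5 : ContinuousAt (fun t : ℝ => (θ + t * I : ℂ)) t := by fun_prop
        exact (ContinuousAt.comp (g := riemannZeta) (f := fun t : ℝ => (θ + t * I : ℂ)) h4 h5).continuousWithinAt)
    refine ⟨max 1 M, fun t ht => ?_⟩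
    have h5 : 1 ≤ t ^ ε := Real.one_le_rpow ht hε.le
    rcases le_total T3 t with hc | hc
    · calc _ ≤ 1 * t ^ ε := by rw [one_mul]; exact hlarge t hc
        _ ≤ _ := by gcongr; exact le_max_left _ _
    · calc _ ≤ M := hM t ⟨ht, hc⟩
        _ ≤ max 1 M * 1 := by rw [mul_one]; exact le_max_right _ _
        _ ≤ _ := by gcongr

/-- the Lindelöf hypothesis -/
theorem expo_half : Expo (1 / 2) ↔ ∀ ε : ℝ, 0 < ε → ∃ C : ℝ, ∀ t : ℝ,
    ‖riemannZeta (1 / 2 + t * I)‖ ≤ C * (1 + |t|) ^ ε := by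
  have ec : (((1 / 2 : ℝ)) : ℂ) = 1 / 2 := by push_cast; ring
  constructor
  · intro h ε hε
    obtain ⟨C, hC⟩ := h ε hε
    obtain ⟨M, hM⟩ := (isCompact_Icc (a := (-1 : ℝ)) (b := 1)).exists_bound_of_continuousOn
      (f := fun t : ℝ => riemannZeta (1 / 2 + t * I)) (by
        intro t ht
        have hne : (1 / 2 + t * I : ℂ) ≠ 1 := by
          intro h
          have := congrArg Complex.re h
          norm_num at this
        have h4 : ContinuousAt riemannZeta (1 / 2 + t * I) := (differentiableAt_riemannZeta hne).continuousAt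
        have h5 : ContinuousAt (fun t : ℝ => (1 / 2 + t * I : ℂ)) t := by fun_prop
        exact (ContinuousAt.comp (g := riemannZeta) (f := fun t : ℝ => (1 / 2 + t * I : ℂ)) h4 h5).continuousWithinAt)
    refine ⟨max |C| M, fun t => ?_⟩
    have h1 : 1 ≤ (1 + |t|) ^ ε := Real.one_le_rpow (by linarith [abs_nonneg t]) hε.le
    have hbig : ∀ t : ℝ, 1 ≤ t → ‖riemannZeta (1 / 2 + t * I)‖ ≤ |C| * (1 + |t|) ^ ε := by
      intro t ht
      have h2 := hC t ht
      rw [ec] at h2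
      have h3 : t ^ ε ≤ (1 + |t|) ^ ε := by
        apply Real.rpow_le_rpow (by linarith) _ hε.le
        rw [abs_of_nonneg (by linarith)]; linarith
      calc _ ≤ C * t ^ ε := h2
        _ ≤ |C| * t ^ ε := by
            have : 0 ≤ t ^ ε := Real.rpow_nonneg (by linarith) _
            gcongr
            exact le_abs_self C
        _ ≤ _ := by gcongr
    by_cases hc : |t| ≤ 1
    · rw [abs_le] at hc
      calc _ ≤ M := hM t hc
        _ ≤ max |C| M * 1 := by rw [mul_one]; exact le_max_right _ _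
        _ ≤ _ := by gcongr
    · push Not at hc
      have h4 : ‖riemannZeta (1 / 2 + t * I)‖ ≤ |C| * (1 + |t|) ^ ε := by
        rcases le_total 0 t with h0 | h0
        · exact hbig t (by rw [abs_of_nonneg h0] at hc; exact hc.le)
        · have h5 := hbig (-t) (by rw [abs_of_nonpos h0] at hc; exact hc.le)
          rw [abs_neg] at h5
          have e : (1 / 2 + ((-t : ℝ) : ℂ) * I) = (starRingEnd ℂ) (1 / 2 + (t : ℂ) * I) := by
            simp [map_add, map_mul, map_ofNat]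
          rwa [e, riemannZeta_conj, Complex.norm_conj] at h5
      exact h4.trans (by gcongr; exact le_max_left _ _)
  · intro h ε hε
    obtain ⟨C, hC⟩ := h ε hε
    refine ⟨|C| * 2 ^ ε, fun t ht => ?_⟩
    have h1 := hC t
    rw [← ec] at h1
    calc _ ≤ C * (1 + |t|) ^ ε := h1
      _ ≤ |C| * (2 * t) ^ ε := by
          have h2 : (1 + |t|) ^ ε ≤ (2 * t) ^ ε := by
            apply Real.rpow_le_rpow (by positivity) _ hε.le
            rw [abs_of_nonneg (by linarith)]; linarith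
          have h3 : 0 ≤ (1 + |t|) ^ ε := by positivity
          calc C * (1 + |t|) ^ ε ≤ |C| * (1 + |t|) ^ ε := by gcongr; exact le_abs_self C
            _ ≤ _ := by gcongr
      _ = _ := by rw [Real.mul_rpow (by norm_num) (by linarith)]; ring

end Pool.Agent.Y853.LC
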