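import Pool.Agent.Y853.LC.LH2
import Pool.Agent.Y853.SP.Fin

set_option autoImplicit false

/-!
# The zeta function as an example of the local theory
-/

namespace Pool.Agent.Y853.LC

open Complex Filter Topology Set Polynomial
open Pool.Agent.H24R2.JP (XX HH Om)

/-- the functional equation in absolute value -/
theorem zeta_fe {η : ℝ} (hη : 0 < η) : ∃ T0 : ℝ, 2 ≤ T0 ∧ ∀ s : ℂ, T0 ≤ s.im → -1 ≤ s.re →
    s.re ≤ 1 / 2 →
    s.im ^ (1 / 2 - s.re - η) * ‖riemannZeta (1 - (starRingEnd ℂ) s)‖ ≤ ‖riemannZeta s‖ ∧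
    ‖riemannZeta s‖ ≤ s.im ^ (1 / 2 - s.re + η) * ‖riemannZeta (1 - (starRingEnd ℂ) s)‖ := by
  obtain ⟨K, hK, hH⟩ := Pool.Agent.H986R2.K4.hh
  obtain ⟨T2, hT2, hHH⟩ := hH 2 (by norm_num)
  obtain ⟨T3, hT3, h3⟩ := SP.log_ge (4 * K / η)
  refine ⟨max T2 T3, hT2.trans (le_max_left _ _), ?_⟩
  intro s hs hs1 hs2
  have h2 : T2 ≤ s.im := (le_max_left _ _).trans hs
  have h3' := h3 _ ((le_max_right _ _).trans hs)
  obtain ⟨t, ht⟩ : ∃ t : ℝ, t = s.im := ⟨_, rfl⟩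
  obtain ⟨σ, hσ⟩ : ∃ σ : ℝ, σ = s.re := ⟨_, rfl⟩
  rw [← ht] at h2 h3'
  rw [← hσ] at hs1 hs2
  have ht0 : 0 < t := by linarith
  have hs0 : s = 1 / 2 + (I * t + ((σ - 1 / 2 : ℝ) : ℂ)) := by
    apply Complex.ext <;> simp [ht, hσ]
  have hlog : 4 * K ≤ η * Real.log t := by
    rw [div_le_iff₀ hη] at h3'
    linarith
  obtain ⟨z, hz⟩ : ∃ z : ℂ, z = I * t + ((σ - 1 / 2 : ℝ) : ℂ) := ⟨_, rfl⟩
  rw [← hz] at hs0
  have hzim : z.im = t := by rw [hz]; simp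
  have hw : -(starRingEnd ℂ) z = I * t + ((1 / 2 - σ : ℝ) : ℂ) := by
    rw [hz]; apply Complex.ext <;> simp
  obtain ⟨w, hwd⟩ : ∃ w : ℂ, w = -(starRingEnd ℂ) z := ⟨_, rfl⟩
  rw [← hwd] at hw
  have hwim : w.im = t := by rw [hw]; simp
  have hws : (1 / 2 + w : ℂ) = 1 - (starRingEnd ℂ) s := by
    rw [hw]; apply Complex.ext
    · simp [← hσ]; ring
    · simp [← ht]
  have hn1 : ‖((σ - 1 / 2 : ℝ) : ℂ)‖ ≤ 2 := by
    rw [Complex.norm_real, Real.norm_eq_abs, abs_le]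
    constructor <;> linarith
  have hn2 : ‖((1 / 2 - σ : ℝ) : ℂ)‖ ≤ 2 := by
    rw [Complex.norm_real, Real.norm_eq_abs, abs_le]
    constructor <;> linarith
  obtain ⟨-, hz1, hz2, hz3, hz4⟩ := hHH t _ h2 hn1
  obtain ⟨-, hw1, hw2, hw3, hw4⟩ := hHH t _ h2 hn2
  rw [← hz] at hz1 hz2 hz3 hz4
  rw [← hw] at hw1 hw2 hw3 hw4
  have hit : HH (I * t) ≠ 0 := Pool.Agent.H24R2.JP.StirAux.HH_ne (by simpa using ht0)
  have hitp : 0 < ‖HH (I * t)‖ := norm_pos_iff.2 hit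
  have hfe : ‖HH z‖ * ‖riemannZeta s‖ = ‖HH w‖ * ‖riemannZeta (1 / 2 + w)‖ := by
    rw [← norm_mul, ← norm_mul, ← Pool.Agent.H24R2.JP.ZetaTask.part1 w (by rw [hwim]; exact ht0),
      hs0, ← Pool.Agent.H24R2.JP.ZetaTask.part1 z (by rw [hzim]; exact ht0), SP.XX_nms z, ← hwd]
  have hzn : 0 < ‖HH z‖ := norm_pos_iff.2 hz1
  have hwn : 0 < ‖HH w‖ := norm_pos_iff.2 hw1
  have hre1 : ((σ - 1 / 2 : ℝ) : ℂ).re = σ - 1 / 2 := Complex.ofReal_re _
  have hre2 : ((1 / 2 - σ : ℝ) : ℂ).re = 1 / 2 - σ := Complex.ofReal_re _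
  rw [hre1] at hz3 hz4
  rw [hre2] at hw3 hw4
  rw [← hws, ← ht, ← hσ]
  obtain ⟨Nz, hNz⟩ : ∃ N : ℝ, N = ‖riemannZeta s‖ := ⟨_, rfl⟩
  obtain ⟨Nw, hNw⟩ : ∃ N : ℝ, N = ‖riemannZeta (1 / 2 + w)‖ := ⟨_, rfl⟩
  have hNz0 : 0 ≤ Nz := by rw [hNz]; exact norm_nonneg _
  have hNw0 : 0 ≤ Nw := by rw [hNw]; exact norm_nonneg _
  rw [← hNz, ← hNw] at hfe
  rw [← hNz, ← hNw]
  have hp : ∀ a : ℝ, t ^ a = Real.exp (a * Real.log t) := by
    intro a; rw [Real.rpow_def_of_pos ht0, mul_comm]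
  rw [hp, hp]
  obtain ⟨H, hHd⟩ : ∃ H : ℝ, H = ‖HH (I * t)‖ := ⟨_, rfl⟩
  rw [← hHd] at hz3 hz4 hw3 hw4 hitp
  have hOm : Om t = Real.log t / 2 := by unfold Om; ring
  obtain ⟨ℓ, hℓ⟩ : ∃ ℓ : ℝ, ℓ = Real.log t := ⟨_, rfl⟩
  rw [hOm, ← hℓ] at hz3 hz4 hw3 hw4
  rw [← hℓ] at hlog
  rw [← hℓ]
  constructor
  · -- lower bound
    have e1 : Real.exp (ℓ / 2 * (1 / 2 - σ) - K * 2) * H * Nw ≤
        Real.exp (ℓ / 2 * (σ - 1 / 2) + K * 2) * H * Nz := by
      calc _ ≤ ‖HH w‖ * Nw := by gcongr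
        _ = ‖HH z‖ * Nz := hfe.symm
        _ ≤ _ := by gcongr
    have e2 : Real.exp (ℓ / 2 * (1 / 2 - σ) - K * 2) * Nw ≤
        Real.exp (ℓ / 2 * (σ - 1 / 2) + K * 2) * Nz := by
      have e3 : H * (Real.exp (ℓ / 2 * (1 / 2 - σ) - K * 2) * Nw) ≤
          H * (Real.exp (ℓ / 2 * (σ - 1 / 2) + K * 2) * Nz) := by
        calc _ = Real.exp (ℓ / 2 * (1 / 2 - σ) - K * 2) * H * Nw := by ring
          _ ≤ _ := e1
          _ = _ := by ring
      exact le_of_mul_le_mul_left e3 hitp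
    calc Real.exp ((1 / 2 - σ - η) * ℓ) * Nw
        ≤ Real.exp (-(ℓ / 2 * (σ - 1 / 2) + K * 2)) *
            (Real.exp (ℓ / 2 * (1 / 2 - σ) - K * 2) * Nw) := by
          rw [← mul_assoc, ← Real.exp_add]
          gcongr
          nlinarith
      _ ≤ Real.exp (-(ℓ / 2 * (σ - 1 / 2) + K * 2)) *
            (Real.exp (ℓ / 2 * (σ - 1 / 2) + K * 2) * Nz) := by gcongr
      _ = Nz := by rw [← mul_assoc, ← Real.exp_add, neg_add_cancel, Real.exp_zero, one_mul]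
  · have e1 : Real.exp (ℓ / 2 * (σ - 1 / 2) - K * 2) * H * Nz ≤
        Real.exp (ℓ / 2 * (1 / 2 - σ) + K * 2) * H * Nw := by
      calc _ ≤ ‖HH z‖ * Nz := by gcongr
        _ = ‖HH w‖ * Nw := hfe
        _ ≤ _ := by gcongr
    have e2 : Real.exp (ℓ / 2 * (σ - 1 / 2) - K * 2) * Nz ≤
        Real.exp (ℓ / 2 * (1 / 2 - σ) + K * 2) * Nw := by
      have e3 : H * (Real.exp (ℓ / 2 * (σ - 1 / 2) - K * 2) * Nz) ≤
          H * (Real.exp (ℓ / 2 * (1 / 2 - σ) + K * 2) * Nw) := by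
        calc _ = Real.exp (ℓ / 2 * (σ - 1 / 2) - K * 2) * H * Nz := by ring
          _ ≤ _ := e1
          _ = _ := by ring
      exact le_of_mul_le_mul_left e3 hitp
    calc Nz = Real.exp (-(ℓ / 2 * (σ - 1 / 2) - K * 2)) *
            (Real.exp (ℓ / 2 * (σ - 1 / 2) - K * 2) * Nz) := by
          rw [← mul_assoc, ← Real.exp_add, neg_add_cancel, Real.exp_zero, one_mul]
      _ ≤ Real.exp (-(ℓ / 2 * (σ - 1 / 2) - K * 2)) *
            (Real.exp (ℓ / 2 * (1 / 2 - σ) + K * 2) * Nw) := by gcongr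
      _ ≤ _ := by
          rw [← mul_assoc, ← Real.exp_add]
          gcongr
          nlinarith

theorem tr_deriv (F : ℂ → ℂ) (a s : ℂ) : deriv (fun w => F (w + a)) s = deriv F (s + a) :=
  deriv_comp_add_const F a s

theorem tr_ld (F : ℂ → ℂ) (a s : ℂ) : logDeriv (fun w => F (w + a)) s = logDeriv F (s + a) := by
  rw [logDeriv_apply, logDeriv_apply, tr_deriv]

theorem tr_an {F : ℂ → ℂ} {a s : ℂ} (h : AnalyticAt ℂ F (s + a)) :
    AnalyticAt ℂ (fun w => F (w + a)) s :=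
  AnalyticAt.comp (g := F) (f := fun w => w + a) h (by fun_prop)

theorem tr_order {F : ℂ → ℂ} {a s : ℂ} :
    analyticOrderNatAt (fun w => F (w + a)) s = analyticOrderNatAt F (s + a) := by
  have hW : AnalyticAt ℂ (fun w : ℂ => w + a) s := by fun_prop
  have e4 := analyticOrderAt_comp_of_deriv_ne_zero (f := F) (g := fun w => w + a) hW (by
    have : HasDerivAt (fun w : ℂ => w + a) 1 s := (hasDerivAt_id s).add_const a
    rw [this.deriv]; norm_num)
  unfold analyticOrderNatAt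
  have e5 : analyticOrderAt (fun w => F (w + a)) s = analyticOrderAt F (s + a) := e4
  rw [e5]

/-- the translated zeta function -/
noncomputable def zt (t : ℝ) (s : ℂ) : ℂ := riemannZeta (s + t * I)

theorem Gl_zt (l : List ℂ) (t : ℝ) : Gl (zt t) l = fun s => SP.Gl l (s + t * I) := by
  induction l with
  | nil => rfl
  | cons c l ih =>
    funext s
    change deriv (Gl (zt t) l) s - c * Gl (zt t) l s = deriv (SP.Gl l) (s + t * I) -
      c * SP.Gl l (s + t * I)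
    rw [ih, tr_deriv]

theorem zt_dat : ∃ A : ℝ, 0 ≤ A ∧ ∀ η Y : ℝ, 0 < η → 0 < Y → ∃ T0 : ℝ, 2 ≤ T0 ∧ ∀ t : ℝ, T0 ≤ t →
    Dat (zt t) A η (Real.log t) Y (1 / 4) ∧ Fe (zt t) η (Real.log t) Y := by
  obtain ⟨a, T1, ha, hT1, h1⟩ := SP.zeta_crude 13 (by norm_num)
  refine ⟨2 * a, by linarith, ?_⟩
  intro η Y hη hY
  obtain ⟨B, hB⟩ := SP.zeta_right (ρ := 7 / 4) (by norm_num)
  obtain ⟨T2, hT2, h2⟩ := SP.const_le_pow B hη
  obtain ⟨T3, hT3, h3⟩ := SP.zeta_left (R := 13) (κ := 3 / 4) (η := η / 4) (by norm_num)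
    (by norm_num) (by positivity)
  obtain ⟨T4, hT4, h4⟩ := zeta_fe (η := η / 4) (by positivity)
  obtain ⟨T5, hT5, h5⟩ := SP.log_ge (60 / η + 4)
  obtain ⟨T0, g1, g2, g3, g4, g5, g6⟩ : ∃ T0 : ℝ, T1 + Y + 1 ≤ T0 ∧ T2 ≤ T0 ∧ T3 + Y + 1 ≤ T0 ∧
      T4 + Y + 1 ≤ T0 ∧ T5 ≤ T0 ∧ 2 * Y + 4 ≤ T0 := by
    refine ⟨max (max (T1 + Y + 1) T2) (max (T3 + Y + 1) (max (T4 + Y + 1) (max T5 (2 * Y + 4)))),
      ?_, ?_, ?_, ?_, ?_, ?_⟩ <;> simp
  refine ⟨T0, by linarith, ?_⟩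
  intro t ht
  have ht0 : 0 < t := by linarith
  have ht1 : 1 ≤ t := by linarith
  obtain ⟨L, hL⟩ : ∃ L : ℝ, L = Real.log t := ⟨_, rfl⟩
  have hLb := h5 t (by linarith)
  rw [← hL] at hLb
  have hL4 : 4 ≤ L := by
    have : 0 ≤ 60 / η := by positivity
    linarith
  have hL0 : 0 ≤ L := by linarith
  have hLη : 60 ≤ η * L := by
    have : 60 / η ≤ L := by linarith
    rwa [div_le_iff₀ hη, mul_comm] at this
  rw [← hL]
  have hp : ∀ b : ℝ, t ^ b = Real.exp (b * L) := by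
    intro b; rw [Real.rpow_def_of_pos ht0, mul_comm, ← hL]
  have him : ∀ s : ℂ, (s + t * I).im = s.im + t := by intro s; simp
  have hre : ∀ s : ℂ, (s + t * I).re = s.re := by intro s; simp
  have hin : ∀ s : ℂ, |s.im| ≤ Y + 1 / 4 → t / 2 ≤ (s + t * I).im ∧ (s + t * I).im ≤ 2 * t ∧
      t - Y - 1 ≤ (s + t * I).im ∧ |Real.log (s + t * I).im - L| ≤ 1 := by
    intro s hs
    have h6 := abs_le.1 hs
    rw [him]
    refine ⟨by linarith, by linarith, by linarith, ?_⟩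
    rw [hL, ← Real.log_div (by linarith) ht0.ne', abs_le]
    have h7 : 1 / 2 ≤ (s.im + t) / t := by rw [le_div_iff₀ ht0]; linarith
    have h8 : (s.im + t) / t ≤ 2 := by rw [div_le_iff₀ ht0]; linarith
    have h9 : 0 < (s.im + t) / t := by linarith
    constructor
    · have h10 := Real.one_sub_inv_le_log_of_pos h9
      have : ((s.im + t) / t)⁻¹ ≤ 2 := by
        rw [inv_le_comm₀ h9 (by norm_num)]; linarith
      linarith
    · have := Real.log_le_sub_one_of_pos h9; linarith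
  have hpw : ∀ (s : ℂ) (b : ℝ), |s.im| ≤ Y + 1 / 4 →
      (s + t * I).im ^ b = Real.exp (b * Real.log (s + t * I).im) := by
    intro s b hs
    have := (hin s hs).1
    rw [Real.rpow_def_of_pos (by linarith), mul_comm]
  have hne : ∀ s : ℂ, |s.im| ≤ Y + 1 / 4 → s + t * I ≠ 1 := by
    intro s hs h
    have h6 := (hin s hs).1
    rw [h, Complex.one_im] at h6
    linarith
  refine ⟨⟨?_, ?_, ?_, ?_⟩, ⟨?_, ?_⟩⟩
  · intro s h6 h7 h8
    exact tr_an (SP.zan (hne s h8))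
  · intro s h6 h7 h8
    obtain ⟨k1, k2, k3, k4⟩ := hin s h8
    have h9 := h1 (s + t * I) (by linarith) (by rw [hre, abs_le]; constructor <;> linarith)
    calc ‖riemannZeta (s + t * I)‖ ≤ (s + t * I).im ^ a := h9
      _ ≤ (t ^ (2 : ℝ)) ^ a := by
          apply Real.rpow_le_rpow (by linarith) _ (by linarith)
          rw [Real.rpow_two]; nlinarith
      _ = t ^ (2 * a) := by rw [← Real.rpow_mul ht0.le]
      _ = _ := hp _
  · intro s h6 h7 h8
    calc ‖riemannZeta (s + t * I)‖ ≤ B := hB _ (by rw [hre]; linarith)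
      _ ≤ t ^ η := h2 t (by linarith)
      _ = _ := hp _
  · intro s h6 h7 h8
    obtain ⟨k1, k2, k3, k4⟩ := hin s h8
    have h9 := h3 (s + t * I) (by linarith) (by rw [hre]; linarith) (by rw [hre]; linarith)
    obtain ⟨f1, f2, f3, f4, f5⟩ := h9
    rw [hpw s _ h8, hre] at f4 f5
    rw [abs_le] at k4
    have hl1 : Real.log (s + t * I).im ≤ 2 * L := by linarith
    have hl0 : 0 ≤ Real.log (s + t * I).im := by linarith
    obtain ⟨ℓ, hℓ⟩ : ∃ ℓ : ℝ, ℓ = Real.log (s + t * I).im := ⟨_, rfl⟩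
    rw [← hℓ] at f3 f4 f5 k4 hl1 hl0
    refine ⟨tr_an f1, f2, ?_, ?_, ?_⟩
    · have e : logDeriv (zt t) s = logDeriv riemannZeta (s + t * I) := tr_ld _ _ _
      rw [e]
      calc ‖logDeriv riemannZeta (s + t * I) + (L : ℂ)‖
          = ‖(logDeriv riemannZeta (s + t * I) + (ℓ : ℂ)) + ((L - ℓ : ℝ) : ℂ)‖ := by
            congr 1; push_cast; ring
        _ ≤ η / 4 * ℓ + 1 := by
            refine (norm_add_le _ _).trans (add_le_add f3 ?_)
            rw [Complex.norm_real, Real.norm_eq_abs, abs_le]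
            constructor <;> linarith
        _ ≤ η * L := by nlinarith
    · refine le_trans (Real.exp_le_exp.2 ?_) f4
      have : |1 / 2 - s.re - η / 4| * 1 ≤ 15 + η := by
        rw [mul_one, abs_le]; constructor <;> linarith
      have h10 : (1 / 2 - s.re - η / 4) * (L - ℓ) ≤ (15 + η) := by
        calc _ ≤ |(1 / 2 - s.re - η / 4) * (L - ℓ)| := le_abs_self _
          _ = |1 / 2 - s.re - η / 4| * |L - ℓ| := abs_mul _ _
          _ ≤ |1 / 2 - s.re - η / 4| * 1 := by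
              gcongr
              rw [abs_le]; constructor <;> linarith
          _ ≤ _ := this
      nlinarith
    · refine f5.trans (Real.exp_le_exp.2 ?_)
      have : |1 / 2 - s.re + η / 4| * 1 ≤ 15 + η := by
        rw [mul_one, abs_le]; constructor <;> linarith
      have h10 : (1 / 2 - s.re + η / 4) * (ℓ - L) ≤ (15 + η) := by
        calc _ ≤ |(1 / 2 - s.re + η / 4) * (ℓ - L)| := le_abs_self _
          _ = |1 / 2 - s.re + η / 4| * |ℓ - L| := abs_mul _ _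
          _ ≤ |1 / 2 - s.re + η / 4| * 1 := by
              gcongr
              rw [abs_le]; constructor <;> linarith
          _ ≤ _ := this
      nlinarith
  · intro s h6 h7 h8
    have h8' : |s.im| ≤ Y + 1 / 4 := by linarith
    obtain ⟨k1, k2, k3, k4⟩ := hin s h8'
    obtain ⟨f4, -⟩ := h4 (s + t * I) (by linarith) (by rw [hre]; linarith) (by rw [hre]; linarith)
    have hc : (1 : ℂ) - (starRingEnd ℂ) (s + t * I) = (1 - (starRingEnd ℂ) s) + t * I := by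
      apply Complex.ext
      · simp
      · simp; ring
    rw [hpw s _ h8', hre, hc] at f4
    rw [abs_le] at k4
    obtain ⟨ℓ, hℓ⟩ : ∃ ℓ : ℝ, ℓ = Real.log (s + t * I).im := ⟨_, rfl⟩
    rw [← hℓ] at f4 k4
    refine le_trans ?_ f4
    refine mul_le_mul_of_nonneg_right (Real.exp_le_exp.2 ?_) (norm_nonneg _)
    have : |1 / 2 - s.re - η / 4| * 1 ≤ 15 + η := by
      rw [mul_one, abs_le]; constructor <;> linarith
    have h10 : (1 / 2 - s.re - η / 4) * (L - ℓ) ≤ (15 + η) := by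
      calc _ ≤ |(1 / 2 - s.re - η / 4) * (L - ℓ)| := le_abs_self _
        _ = |1 / 2 - s.re - η / 4| * |L - ℓ| := abs_mul _ _
        _ ≤ |1 / 2 - s.re - η / 4| * 1 := by
            gcongr
            rw [abs_le]; constructor <;> linarith
        _ ≤ _ := this
    nlinarith
  · intro s h6 h7 h8
    have h8' : |s.im| ≤ Y + 1 / 4 := by linarith
    obtain ⟨k1, k2, k3, k4⟩ := hin s h8'
    obtain ⟨-, f4⟩ := h4 (s + t * I) (by linarith) (by rw [hre]; linarith) (by rw [hre]; linarith)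
    have hc : (1 : ℂ) - (starRingEnd ℂ) (s + t * I) = (1 - (starRingEnd ℂ) s) + t * I := by
      apply Complex.ext
      · simp
      · simp; ring
    rw [hpw s _ h8', hre, hc] at f4
    rw [abs_le] at k4
    obtain ⟨ℓ, hℓ⟩ : ∃ ℓ : ℝ, ℓ = Real.log (s + t * I).im := ⟨_, rfl⟩
    rw [← hℓ] at f4 k4
    refine f4.trans ?_
    refine mul_le_mul_of_nonneg_right (Real.exp_le_exp.2 ?_) (norm_nonneg _)
    have : |1 / 2 - s.re + η / 4| * 1 ≤ 15 + η := by
      rw [mul_one, abs_le]; constructor <;> linarith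
    have h10 : (1 / 2 - s.re + η / 4) * (ℓ - L) ≤ (15 + η) := by
      calc _ ≤ |(1 / 2 - s.re + η / 4) * (ℓ - L)| := le_abs_self _
        _ = |1 / 2 - s.re + η / 4| * |ℓ - L| := abs_mul _ _
        _ ≤ |1 / 2 - s.re + η / 4| * 1 := by
            gcongr
            rw [abs_le]; constructor <;> linarith
        _ ≤ _ := this
    nlinarith

end Pool.Agent.Y853.LC
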