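import Pool.Agent.Y853.SP.Down

set_option autoImplicit false

/-!
# Regular points, local form

All functions are considered in a box around the origin; `L` is a large parameter (the logarithm of the
conductor).
-/

namespace Pool.Agent.Y853.LC

open Complex Filter Topology Set

/-- `η`-regularity at `s`, with the parameter `L`. -/
structure Rg (G : ℂ → ℂ) (η L : ℝ) (s : ℂ) : Prop where
  an : AnalyticAt ℂ G s
  ne : G s ≠ 0
  ld : ‖logDeriv G s + (L : ℂ)‖ ≤ η * L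
  lo : Real.exp ((1 / 2 - s.re - η) * L) ≤ ‖G s‖
  up : ‖G s‖ ≤ Real.exp ((1 / 2 - s.re + η) * L)

theorem Rg.mono {G : ℂ → ℂ} {η η' L : ℝ} {s : ℂ} (h : Rg G η L s) (hL : 0 ≤ L) (hη : η ≤ η') :
    Rg G η' L s := by
  refine ⟨h.an, h.ne, h.ld.trans (by gcongr), le_trans ?_ h.lo, h.up.trans ?_⟩
  · apply Real.exp_le_exp.2
    gcongr
  · apply Real.exp_le_exp.2
    gcongr

theorem lin_le_exp (a : ℝ) {ε : ℝ} (hε : 0 < ε) : ∃ L0 : ℝ, 1 ≤ L0 ∧ ∀ L : ℝ, L0 ≤ L →
    a * L ≤ Real.exp (ε * L) := by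
  obtain ⟨T0, hT0, h⟩ := SP.log_le_pow a hε
  refine ⟨max 1 (Real.log T0), le_max_left _ _, fun L hL => ?_⟩
  have h1 : Real.log T0 ≤ L := (le_max_right _ _).trans hL
  have h2 : T0 ≤ Real.exp L := by
    rw [← Real.log_le_iff_le_exp (by linarith)]
    exact h1
  have h3 := h _ h2
  rwa [Real.log_exp, ← Real.exp_mul, mul_comm L ε] at h3

theorem const_le_exp (a : ℝ) {ε : ℝ} (hε : 0 < ε) : ∃ L0 : ℝ, 1 ≤ L0 ∧ ∀ L : ℝ, L0 ≤ L →
    a ≤ Real.exp (ε * L) := by
  obtain ⟨L0, hL0, h⟩ := lin_le_exp |a| hε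
  refine ⟨L0, hL0, fun L hL => (le_abs_self a).trans (le_trans ?_ (h L hL))⟩
  have := abs_nonneg a
  nlinarith

theorem up_step (c : ℂ) {κ η' : ℝ} (hκ : 0 < κ) (hκ1 : κ ≤ 1) (hη' : 0 < η') :
    ∃ η L0 : ℝ, 0 < η ∧ 1 ≤ L0 ∧ ∀ (G : ℂ → ℂ) (L : ℝ) (s : ℂ), L0 ≤ L →
      (∀ w : ℂ, ‖w - s‖ ≤ κ → Rg G η L w) → Rg (fun w => deriv G w - c * G w) η' L s := by
  obtain ⟨η, hη, hη1, hη2, hη3⟩ : ∃ η : ℝ, 0 < η ∧ η ≤ 1 / 8 ∧ 16 * η ≤ η' * κ ∧ 2 * η ≤ η' := by
    refine ⟨min (1 / 8) (η' * κ / 16), lt_min (by norm_num) (by positivity), min_le_left _ _, ?_, ?_⟩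
    · have := min_le_right (1 / 8) (η' * κ / 16); linarith
    · have := min_le_right (1 / 8) (η' * κ / 16)
      have h2 : η' * κ ≤ η' := by nlinarith
      linarith
  obtain ⟨L1, hL1, h1⟩ := lin_le_exp 2 hη
  refine ⟨η, max L1 ((2 + ‖c‖) / η + 4), hη, hL1.trans (le_max_left _ _), ?_⟩
  intro G L s hL hw
  have hL1' : L1 ≤ L := (le_max_left _ _).trans hL
  have hLb : (2 + ‖c‖) / η + 4 ≤ L := (le_max_right _ _).trans hL
  have hLp := h1 _ hL1'
  have hc0 := norm_nonneg c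
  have hL4 : 4 ≤ L := by
    have : 0 ≤ (2 + ‖c‖) / η := by positivity
    linarith
  have hLc : 2 + ‖c‖ ≤ η * L := by
    have : (2 + ‖c‖) / η ≤ L := by linarith
    rwa [div_le_iff₀ hη, mul_comm] at this
  have hst : Rg G η L s := hw s (by simp [hκ.le])
  have han : ∀ w : ℂ, ‖w - s‖ ≤ κ → AnalyticAt ℂ (logDeriv G) w := by
    intro w hw1
    exact (hw w hw1).an.deriv.div (hw w hw1).an (hw w hw1).ne
  -- derivative of the logarithmic derivative
  have hd : ‖deriv (logDeriv G) s‖ ≤ η * L / κ := by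
    have e : deriv (logDeriv G) s = deriv (fun w => logDeriv G w + (L : ℂ)) s := by
      rw [deriv_add_const]
    rw [e]
    refine Complex.norm_deriv_le_of_forall_mem_sphere_norm_le hκ ?_ ?_
    · have : DifferentiableOn ℂ (fun w => logDeriv G w + (L : ℂ)) (Metric.closedBall s κ) := by
        intro w hw1
        rw [Metric.mem_closedBall, dist_eq_norm] at hw1
        exact ((han w hw1).differentiableAt.add_const _).differentiableWithinAt
      exact this.diffContOnCl_ball subset_rfl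
    · intro w hw1
      rw [mem_sphere_iff_norm] at hw1
      exact (hw w hw1.le).ld
  have hψ : ‖logDeriv G s + (L : ℂ)‖ ≤ η * L := hst.ld
  have hψc : ‖(logDeriv G s - c) + (L : ℂ)‖ ≤ 2 * η * L := by
    calc _ = ‖(logDeriv G s + (L : ℂ)) - c‖ := by congr 1; ring
      _ ≤ η * L + ‖c‖ := (norm_sub_le _ _).trans (by gcongr)
      _ ≤ 2 * η * L := by linarith
  have hlow : L / 2 ≤ ‖logDeriv G s - c‖ := by
    have h3 : ‖(L : ℂ)‖ ≤ ‖(logDeriv G s - c) + (L : ℂ)‖ + ‖logDeriv G s - c‖ := by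
      have : (L : ℂ) = ((logDeriv G s - c) + (L : ℂ)) - (logDeriv G s - c) := by ring
      calc ‖(L : ℂ)‖ = ‖((logDeriv G s - c) + (L : ℂ)) - (logDeriv G s - c)‖ := by rw [← this]
        _ ≤ _ := norm_sub_le _ _
    rw [Complex.norm_real, Real.norm_eq_abs, abs_of_pos (by linarith)] at h3
    nlinarith
  have hupp : ‖logDeriv G s - c‖ ≤ 2 * L := by
    have h3 : ‖logDeriv G s - c‖ ≤ ‖(logDeriv G s - c) + (L : ℂ)‖ + ‖(L : ℂ)‖ := by
      have : logDeriv G s - c = ((logDeriv G s - c) + (L : ℂ)) - (L : ℂ) := by ring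
      calc ‖logDeriv G s - c‖ = ‖((logDeriv G s - c) + (L : ℂ)) - (L : ℂ)‖ := by rw [← this]
        _ ≤ _ := norm_sub_le _ _
    rw [Complex.norm_real, Real.norm_eq_abs, abs_of_pos (by linarith)] at h3
    nlinarith
  have hne : logDeriv G s - c ≠ 0 := by
    rw [← norm_pos_iff]; linarith
  -- factorisation near `s`
  have hfac : (fun w => deriv G w - c * G w) =ᶠ[𝓝 s] fun w => G w * (logDeriv G w - c) := by
    have : ∀ᶠ w in 𝓝 s, G w ≠ 0 := hst.an.continuousAt.eventually_ne hst.ne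
    filter_upwards [this] with w hw1
    rw [logDeriv_apply]
    field_simp
  have hval : deriv G s - c * G s = G s * (logDeriv G s - c) := hfac.eq_of_nhds
  have hGp : 0 < ‖G s‖ := norm_pos_iff.2 hst.ne
  refine ⟨?_, ?_, ?_, ?_, ?_⟩
  · exact hst.an.deriv.sub (analyticAt_const.mul hst.an)
  · show deriv G s - c * G s ≠ 0
    rw [hval]; exact mul_ne_zero hst.ne hne
  · have e1 : logDeriv (fun w => deriv G w - c * G w) s =
        logDeriv G s + deriv (logDeriv G) s / (logDeriv G s - c) := by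
      have e2 : logDeriv (fun w => deriv G w - c * G w) s =
          logDeriv (fun w => G w * (logDeriv G w - c)) s := by
        rw [logDeriv_apply, logDeriv_apply, hfac.deriv_eq, hval]
      rw [e2, logDeriv_mul s hst.ne hne hst.an.differentiableAt
        ((han s (by simp [hκ.le])).differentiableAt.sub_const c)]
      congr 1
      rw [logDeriv_apply, deriv_sub_const]
    rw [e1]
    have e3 : ‖deriv (logDeriv G) s / (logDeriv G s - c)‖ ≤ 2 * η / κ := by
      rw [norm_div, div_le_iff₀ (by linarith)]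
      calc ‖deriv (logDeriv G) s‖ ≤ η * L / κ := hd
        _ = 2 * η / κ * (L / 2) := by ring
        _ ≤ _ := by gcongr
    have e4 : 2 * η / κ ≤ η' / 8 := by
      rw [div_le_iff₀ hκ]; linarith
    calc ‖logDeriv G s + deriv (logDeriv G) s / (logDeriv G s - c) + (L : ℂ)‖
        = ‖(logDeriv G s + (L : ℂ)) + deriv (logDeriv G) s / (logDeriv G s - c)‖ := by congr 1; ring
      _ ≤ η * L + 2 * η / κ := (norm_add_le _ _).trans (by gcongr)
      _ ≤ η' * L := by nlinarith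
  · show _ ≤ ‖deriv G s - c * G s‖
    rw [hval, norm_mul]
    have e1 : Real.exp ((1 / 2 - s.re - η') * L) ≤ Real.exp ((1 / 2 - s.re - η) * L) := by
      apply Real.exp_le_exp.2
      have : η ≤ η' := by linarith
      have h0 : 0 ≤ L := by linarith
      gcongr
    have e2 := hst.lo
    have e3 : (1 : ℝ) ≤ ‖logDeriv G s - c‖ := by linarith
    nlinarith
  · show ‖deriv G s - c * G s‖ ≤ _
    rw [hval, norm_mul]
    have e2 := hst.up
    have e3 : ‖logDeriv G s - c‖ ≤ Real.exp (η * L) := hupp.trans hLp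
    calc ‖G s‖ * ‖logDeriv G s - c‖
        ≤ Real.exp ((1 / 2 - s.re + η) * L) * Real.exp (η * L) := by gcongr
      _ = Real.exp ((1 / 2 - s.re + η + η) * L) := by rw [← Real.exp_add]; congr 1; ring
      _ ≤ Real.exp ((1 / 2 - s.re + η') * L) := by
        apply Real.exp_le_exp.2
        have h0 : 0 ≤ L := by linarith
        have : η + η ≤ η' := by linarith
        nlinarith

/-- The iterated operators: `Gl (c :: l) = (d/ds - c) Gl l`. -/
noncomputable def Gl (Z : ℂ → ℂ) : List ℂ → ℂ → ℂ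
  | [] => Z
  | c :: l => fun s => deriv (Gl Z l) s - c * Gl Z l s

theorem Gl_an {Z : ℂ → ℂ} (l : List ℂ) {s : ℂ} (h : AnalyticAt ℂ Z s) : AnalyticAt ℂ (Gl Z l) s := by
  induction l with
  | nil => exact h
  | cons c l ih => exact ih.deriv.sub (analyticAt_const.mul ih)

theorem up_list (l : List ℂ) : ∀ κ η' : ℝ, 0 < κ → κ ≤ 1 → 0 < η' →
    ∃ η L0 : ℝ, 0 < η ∧ 1 ≤ L0 ∧ ∀ (Z : ℂ → ℂ) (L : ℝ) (s : ℂ), L0 ≤ L →
      (∀ w : ℂ, ‖w - s‖ ≤ κ → Rg Z η L w) → Rg (Gl Z l) η' L s := by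
  induction l with
  | nil =>
    intro κ η' hκ hκ1 hη'
    exact ⟨η', 1, hη', le_rfl, fun Z L s _ h => h s (by simp [hκ.le])⟩
  | cons c l ih =>
    intro κ η' hκ hκ1 hη'
    obtain ⟨η1, L1, hη1, hL1, h1⟩ := up_step c (κ := κ / 2) (by positivity) (by linarith) hη'
    obtain ⟨η, L2, hη, hL2, h2⟩ := ih (κ / 2) η1 (by positivity) (by linarith) hη1
    refine ⟨η, max L1 L2, hη, hL1.trans (le_max_left _ _), fun Z L s hs hw => ?_⟩
    refine h1 (Gl Z l) L s ((le_max_left _ _).trans hs) fun w hw1 => ?_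
    refine h2 Z L w ((le_max_right _ _).trans hs) fun v hv => hw v ?_
    calc ‖v - s‖ = ‖(v - w) + (w - s)‖ := by congr 1; ring
      _ ≤ κ / 2 + κ / 2 := (norm_add_le _ _).trans (by gcongr)
      _ = κ := by ring

/-- The local data: `Z` in the box `-12 - ρ ≤ Re s ≤ 2 + ρ`, `|Im s| ≤ Y + ρ`. -/
structure Dat (Z : ℂ → ℂ) (A η L Y ρ : ℝ) : Prop where
  an : ∀ s : ℂ, -12 - ρ ≤ s.re → s.re ≤ 2 + ρ → |s.im| ≤ Y + ρ → AnalyticAt ℂ Z s
  cr : ∀ s : ℂ, -12 - ρ ≤ s.re → s.re ≤ 2 + ρ → |s.im| ≤ Y + ρ → ‖Z s‖ ≤ Real.exp (A * L)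
  rt : ∀ s : ℂ, 2 - ρ ≤ s.re → s.re ≤ 2 + ρ → |s.im| ≤ Y + ρ → ‖Z s‖ ≤ Real.exp (η * L)
  lf : ∀ s : ℂ, -12 - ρ ≤ s.re → s.re ≤ -1 + ρ → |s.im| ≤ Y + ρ → Rg Z η L s

theorem Dat.mono {Z : ℂ → ℂ} {A A' η η' L Y Y' ρ ρ' : ℝ} (h : Dat Z A η L Y ρ) (hL : 0 ≤ L)
    (hA : A ≤ A') (hη : η ≤ η') (hY : Y' ≤ Y) (hρ : ρ' ≤ ρ) : Dat Z A' η' L Y' ρ' := by
  refine ⟨fun s h1 h2 h3 => h.an s (by linarith) (by linarith) (by linarith),
    fun s h1 h2 h3 => (h.cr s (by linarith) (by linarith) (by linarith)).trans ?_,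
    fun s h1 h2 h3 => (h.rt s (by linarith) (by linarith) (by linarith)).trans ?_,
    fun s h1 h2 h3 => (h.lf s (by linarith) (by linarith) (by linarith)).mono hL hη⟩
  · apply Real.exp_le_exp.2; gcongr
  · apply Real.exp_le_exp.2; gcongr

theorem dat_step (c : ℂ) {A ρ η' : ℝ} (hρ : 0 < ρ) (hρ1 : ρ ≤ 1) (hη' : 0 < η') :
    ∃ η L0 : ℝ, 0 < η ∧ 1 ≤ L0 ∧ ∀ (Z : ℂ → ℂ) (L Y : ℝ), L0 ≤ L →
      Dat Z A η L Y ρ → Dat (fun w => deriv Z w - c * Z w) (A + 1) η' L Y (ρ / 2) := by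
  obtain ⟨η1, L1, hη1, hL1, h1⟩ := up_step c (κ := ρ / 2) (by positivity) (by linarith) hη'
  obtain ⟨L2, hL2, h2⟩ := const_le_exp (2 / ρ + ‖c‖) (ε := min 1 (η' / 2)) (by positivity)
  obtain ⟨η, hη⟩ : ∃ η : ℝ, η = min η1 (η' / 2) := ⟨_, rfl⟩
  have hη0 : 0 < η := by rw [hη]; positivity
  have hηa : η ≤ η1 := by rw [hη]; exact min_le_left _ _
  have hηb : η ≤ η' / 2 := by rw [hη]; exact min_le_right _ _
  refine ⟨η, max L1 L2, hη0, hL1.trans (le_max_left _ _), ?_⟩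
  intro Z L Y hL hZ
  have hL1' : L1 ≤ L := (le_max_left _ _).trans hL
  have hL2' : L2 ≤ L := (le_max_right _ _).trans hL
  have hL0 : 0 ≤ L := by linarith
  have h3 := h2 L hL2'
  have h3a : 2 / ρ + ‖c‖ ≤ Real.exp (1 * L) := h3.trans (by
    apply Real.exp_le_exp.2; gcongr; exact min_le_left _ _)
  have h3b : 2 / ρ + ‖c‖ ≤ Real.exp (η' / 2 * L) := h3.trans (by
    apply Real.exp_le_exp.2; gcongr; exact min_le_right _ _)
  have hre : ∀ s w : ℂ, ‖w - s‖ ≤ ρ / 2 → |w.re - s.re| ≤ ρ / 2 ∧ |w.im - s.im| ≤ ρ / 2 := by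
    intro s w hw
    rw [← Complex.sub_re, ← Complex.sub_im]
    exact ⟨(Complex.abs_re_le_norm _).trans hw, (Complex.abs_im_le_norm _).trans hw⟩
  -- Cauchy
  have key : ∀ (s : ℂ) (M : ℝ), (∀ w : ℂ, ‖w - s‖ ≤ ρ / 2 → AnalyticAt ℂ Z w ∧ ‖Z w‖ ≤ M) →
      ‖deriv Z s - c * Z s‖ ≤ (2 / ρ + ‖c‖) * M := by
    intro s M hM
    have hd : ‖deriv Z s‖ ≤ M / (ρ / 2) := by
      refine Complex.norm_deriv_le_of_forall_mem_sphere_norm_le (by positivity) ?_ ?_
      · have : DifferentiableOn ℂ Z (Metric.closedBall s (ρ / 2)) := by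
          intro w hw1
          rw [Metric.mem_closedBall, dist_eq_norm] at hw1
          exact (hM w hw1).1.differentiableAt.differentiableWithinAt
        exact this.diffContOnCl_ball subset_rfl
      · intro w hw1
        rw [mem_sphere_iff_norm] at hw1
        exact (hM w hw1.le).2
    have hs := (hM s (by simp; linarith)).2
    calc ‖deriv Z s - c * Z s‖ ≤ ‖deriv Z s‖ + ‖c * Z s‖ := norm_sub_le _ _
      _ ≤ M / (ρ / 2) + ‖c‖ * M := by rw [norm_mul]; gcongr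
      _ = (2 / ρ + ‖c‖) * M := by field_simp
  refine ⟨?_, ?_, ?_, ?_⟩
  · intro s h4 h5 h6
    have := hZ.an s (by linarith) (by linarith) (by linarith)
    exact this.deriv.sub (analyticAt_const.mul this)
  · intro s h4 h5 h6
    refine (key s (Real.exp (A * L)) fun w hw => ?_).trans ?_
    · obtain ⟨h7, h8⟩ := hre s w hw
      have h7' := abs_le.1 h7
      have h8' : |w.im| ≤ Y + ρ := by
        have : |w.im| ≤ |s.im| + |w.im - s.im| := by
          calc |w.im| = |s.im + (w.im - s.im)| := by congr 1; ring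
            _ ≤ _ := abs_add_le _ _
        linarith
      exact ⟨hZ.an w (by linarith) (by linarith) h8', hZ.cr w (by linarith) (by linarith) h8'⟩
    · calc _ ≤ Real.exp (1 * L) * Real.exp (A * L) := by gcongr
        _ = _ := by rw [← Real.exp_add]; congr 1; ring
  · intro s h4 h5 h6
    refine (key s (Real.exp (η * L)) fun w hw => ?_).trans ?_
    · obtain ⟨h7, h8⟩ := hre s w hw
      have h7' := abs_le.1 h7
      have h8' : |w.im| ≤ Y + ρ := by
        have : |w.im| ≤ |s.im| + |w.im - s.im| := by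
          calc |w.im| = |s.im + (w.im - s.im)| := by congr 1; ring
            _ ≤ _ := abs_add_le _ _
        linarith
      exact ⟨hZ.an w (by linarith) (by linarith) h8', hZ.rt w (by linarith) (by linarith) h8'⟩
    · calc _ ≤ Real.exp (η' / 2 * L) * Real.exp (η' / 2 * L) := by gcongr
        _ = _ := by rw [← Real.exp_add]; congr 1; ring
  · intro s h4 h5 h6
    refine h1 Z L s hL1' fun w hw => ?_
    obtain ⟨h7, h8⟩ := hre s w hw
    have h7' := abs_le.1 h7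
    have h8' : |w.im| ≤ Y + ρ := by
      have : |w.im| ≤ |s.im| + |w.im - s.im| := by
        calc |w.im| = |s.im + (w.im - s.im)| := by congr 1; ring
          _ ≤ _ := abs_add_le _ _
      linarith
    exact (hZ.lf w (by linarith) (by linarith) h8').mono hL0 hηa

theorem dat_list (l : List ℂ) : ∀ A ρ η' : ℝ, 0 < ρ → ρ ≤ 1 → 0 < η' →
    ∃ η L0 : ℝ, 0 < η ∧ 1 ≤ L0 ∧ ∀ (Z : ℂ → ℂ) (L Y : ℝ), L0 ≤ L →
      Dat Z A η L Y ρ → Dat (Gl Z l) (A + l.length) η' L Y (ρ / 2 ^ l.length) := by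
  induction l with
  | nil =>
    intro A ρ η' hρ hρ1 hη'
    refine ⟨η', 1, hη', le_rfl, fun Z L Y _ h => ?_⟩
    have e1 : A + (([] : List ℂ).length : ℕ) = A := by simp
    have e2 : ρ / 2 ^ ([] : List ℂ).length = ρ := by simp
    rw [e1, e2]
    exact h
  | cons c l ih =>
    intro A ρ η' hρ hρ1 hη'
    have hp : 0 < ρ / 2 ^ l.length := by positivity
    have hp1 : ρ / 2 ^ l.length ≤ 1 := by
      rw [div_le_one (by positivity)]
      have : (1 : ℝ) ≤ 2 ^ l.length := one_le_pow₀ (by norm_num)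
      linarith
    obtain ⟨η1, L1, hη1, hL1, h1⟩ := dat_step c (A := A + l.length) hp hp1 hη'
    obtain ⟨η, L2, hη, hL2, h2⟩ := ih A ρ η1 hρ hρ1 hη1
    refine ⟨η, max L1 L2, hη, hL1.trans (le_max_left _ _), fun Z L Y hL hZ => ?_⟩
    have h3 := h1 (Gl Z l) L Y ((le_max_left _ _).trans hL)
      (h2 Z L Y ((le_max_right _ _).trans hL) hZ)
    have e1 : A + ((c :: l).length : ℕ) = A + (l.length : ℕ) + 1 := by
      rw [List.length_cons]; push_cast; ring
    have e2 : ρ / 2 ^ (c :: l).length = ρ / 2 ^ l.length / 2 := by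
      rw [List.length_cons, pow_succ]; field_simp
    rw [e1, e2]
    exact h3

end Pool.Agent.Y853.LC
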