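import Pool.Agent.Y853.LC.Few

set_option autoImplicit false

/-!
# Zero-free boxes, boxes with few zeros, the maximum principle
-/

namespace Pool.Agent.Y853.LC

open Complex Filter Topology Set

/-- the hypotheses on the sizes near a point of height `v`, to the left of `Re = δ` -/
structure Side (F : ℂ → ℂ) (A η L δ v : ℝ) : Prop where
  an : ∀ w : ℂ, -12 ≤ w.re → w.re ≤ δ → |w.im - v| ≤ 10 → AnalyticAt ℂ F w
  cr : ∀ w : ℂ, -12 ≤ w.re → w.re ≤ δ → |w.im - v| ≤ 10 → ‖F w‖ ≤ Real.exp (A * L)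
  sz : ∀ w : ℂ, -12 ≤ w.re → w.re ≤ -1 → |w.im - v| ≤ 10 →
    Real.exp ((1 / 2 - w.re - η) * L) ≤ ‖F w‖ ∧ ‖F w‖ ≤ Real.exp ((1 / 2 - w.re + η) * L)

/-- change of variables -/
theorem chg {F : ℂ → ℂ} {A η L δ v : ℝ} (hL : 0 ≤ L) (hδ0 : -1 ≤ δ) (hδ : δ ≤ 1 / 2)
    (h : Side F A η L δ v) :
    ∃ g : ℂ → ℂ, (∀ u : ℂ, ‖g u‖ = ‖F ((δ : ℂ) - u + v * I)‖ * Real.exp ((δ - u.re - 1 / 2) * L)) ∧
      (∀ u : ℂ, 0 ≤ u.re → u.re ≤ 10 → |u.im| ≤ 10 → DifferentiableAt ℂ g u) ∧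
      (∀ u : ℂ, 0 ≤ u.re → u.re ≤ 10 → |u.im| ≤ 10 → ‖g u‖ ≤ Real.exp ((A + 12) * L)) ∧
      (∀ u : ℂ, 3 / 2 ≤ u.re → u.re ≤ 10 → |u.im| ≤ 10 →
        Real.exp (-(η * L)) ≤ ‖g u‖ ∧ ‖g u‖ ≤ Real.exp (η * L)) ∧
      (∀ u : ℂ, 0 ≤ u.re → u.re ≤ 10 → |u.im| ≤ 10 → F ((δ : ℂ) - u + v * I) ≠ 0 →
        logDeriv g u = -(logDeriv F ((δ : ℂ) - u + v * I) + (L : ℂ))) ∧
      (∀ u : ℂ, 0 ≤ u.re → u.re ≤ 10 → |u.im| ≤ 10 →
        analyticOrderNatAt g u = analyticOrderNatAt F ((δ : ℂ) - u + v * I)) := by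
  obtain ⟨W, hW⟩ : ∃ W : ℂ → ℂ, W = fun u => (δ : ℂ) - u + v * I := ⟨_, rfl⟩
  have hWre : ∀ u : ℂ, (W u).re = δ - u.re := by intro u; rw [hW]; simp
  have hWim : ∀ u : ℂ, (W u).im = v - u.im := by intro u; rw [hW]; simp; ring
  have hWd : ∀ u : ℂ, HasDerivAt W (-1) u := by
    intro u
    rw [hW]
    have := ((hasDerivAt_id u).const_sub (δ : ℂ)).add_const ((v : ℂ) * I)
    exact this
  have him : ∀ u : ℂ, |u.im| ≤ 10 → |(W u).im - v| ≤ 10 := by
    intro u hu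
    rw [hWim, show v - u.im - v = -u.im by ring, abs_neg]
    exact hu
  obtain ⟨g, hg⟩ : ∃ g : ℂ → ℂ, g = fun u => F (W u) * cexp (L * ((δ : ℂ) - u - 1 / 2)) := ⟨_, rfl⟩
  have hgn : ∀ u : ℂ, ‖g u‖ = ‖F (W u)‖ * Real.exp ((δ - u.re - 1 / 2) * L) := by
    intro u
    rw [hg]
    simp only [norm_mul, Complex.norm_exp]
    congr 2
    rw [Complex.re_ofReal_mul, mul_comm]
    simp
  have hWF : ∀ u : ℂ, F ((δ : ℂ) - u + v * I) = F (W u) := by intro u; rw [hW]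
  have hWe : ∀ u : ℂ, (δ : ℂ) - u + v * I = W u := by intro u; rw [hW]
  have hFa : ∀ u : ℂ, 0 ≤ u.re → u.re ≤ 10 → |u.im| ≤ 10 → AnalyticAt ℂ F (W u) := by
    intro u h1 h2 h3
    exact h.an _ (by rw [hWre]; linarith) (by rw [hWre]; linarith) (him u h3)
  refine ⟨g, fun u => by rw [hWF]; exact hgn u, ?_, ?_, ?_, ?_, ?_⟩
  · intro u h1 h2 h3
    rw [hg]
    refine ((hFa u h1 h2 h3).differentiableAt.comp u (hWd u).differentiableAt).mul ?_
    fun_prop
  · intro u h1 h2 h3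
    rw [hgn]
    have e1 := h.cr (W u) (by rw [hWre]; linarith) (by rw [hWre]; linarith) (him u h3)
    calc ‖F (W u)‖ * Real.exp ((δ - u.re - 1 / 2) * L) ≤ Real.exp (A * L) * Real.exp (12 * L) := by
          gcongr
          linarith
      _ = _ := by rw [← Real.exp_add]; congr 1; ring
  · intro u h1 h2 h3
    rw [hgn]
    obtain ⟨e1, e2⟩ := h.sz (W u) (by rw [hWre]; linarith) (by rw [hWre]; linarith) (him u h3)
    rw [hWre] at e1 e2
    constructor
    · calc Real.exp (-(η * L))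
          = Real.exp ((1 / 2 - (δ - u.re) - η) * L) * Real.exp ((δ - u.re - 1 / 2) * L) := by
            rw [← Real.exp_add]; congr 1; ring
        _ ≤ _ := by gcongr
    · calc ‖F (W u)‖ * Real.exp ((δ - u.re - 1 / 2) * L)
          ≤ Real.exp ((1 / 2 - (δ - u.re) + η) * L) * Real.exp ((δ - u.re - 1 / 2) * L) := by gcongr
        _ = _ := by rw [← Real.exp_add]; congr 1; ring
  · intro u h1 h2 h3 h4
    rw [hWe] at h4 ⊢
    have h5 : DifferentiableAt ℂ F (W u) := (hFa u h1 h2 h3).differentiableAt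
    have h6 : HasDerivAt (fun u : ℂ => F (W u)) (deriv F (W u) * (-1)) u :=
      h5.hasDerivAt.comp u (hWd u)
    have h7 : HasDerivAt (fun u : ℂ => cexp (L * ((δ : ℂ) - u - 1 / 2)))
        (cexp (L * ((δ : ℂ) - u - 1 / 2)) * (L * (-1))) u := by
      have h8 : HasDerivAt (fun u : ℂ => (L : ℂ) * ((δ : ℂ) - u - 1 / 2)) ((L : ℂ) * (-1)) u :=
        (((hasDerivAt_id u).const_sub (δ : ℂ)).sub_const (1 / 2 : ℂ)).const_mul (L : ℂ)
      exact h8.cexp
    rw [hg, logDeriv_mul (f := fun u => F (W u)) (g := fun u : ℂ => cexp (L * ((δ : ℂ) - u - 1 / 2)))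
      u h4 (Complex.exp_ne_zero _) h6.differentiableAt h7.differentiableAt]
    rw [logDeriv_apply, logDeriv_apply, h6.deriv, h7.deriv, logDeriv_apply]
    have h9 := Complex.exp_ne_zero ((L : ℂ) * ((δ : ℂ) - u - 1 / 2))
    field_simp
    ring
  · intro u h1 h2 h3
    rw [hWe]
    have hF := hFa u h1 h2 h3
    have hWa : AnalyticAt ℂ W u := by rw [hW]; fun_prop
    have hea : AnalyticAt ℂ (fun u : ℂ => cexp (L * ((δ : ℂ) - u - 1 / 2))) u := by fun_prop
    have e1 : analyticOrderAt g u = analyticOrderAt F (W u) := by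
      have e2 : g = (fun u => F (W u)) * fun u : ℂ => cexp (L * ((δ : ℂ) - u - 1 / 2)) := hg
      have hFW : AnalyticAt ℂ (fun u => F (W u)) u := hF.comp hWa
      rw [e2, analyticOrderAt_mul hFW hea]
      have e3 : analyticOrderAt (fun u : ℂ => cexp (L * ((δ : ℂ) - u - 1 / 2))) u = 0 :=
        hea.analyticOrderAt_eq_zero.2 (Complex.exp_ne_zero _)
      rw [e3, add_zero]
      have e4 := analyticOrderAt_comp_of_deriv_ne_zero (f := F) (g := W) hWa (by
        rw [(hWd u).deriv]; norm_num)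
      exact e4
    unfold analyticOrderNatAt
    rw [e1]

/-- a zero-free box gives regular points -/
theorem one {A κ η : ℝ} (hA : 0 ≤ A) (hκ : 0 < κ) (hη : 0 < η) :
    ∃ η1 : ℝ, 0 < η1 ∧ ∀ (F : ℂ → ℂ) (L δ : ℝ) (s : ℂ), 1 ≤ L → -1 ≤ δ → δ ≤ 1 / 2 →
      δ - 3 ≤ s.re → s.re ≤ δ - κ → Side F A η1 L δ s.im →
      (∀ w : ℂ, -1 < w.re → w.re < δ → |w.im - s.im| ≤ 10 → F w ≠ 0) → Rg F η L s := by
  obtain ⟨η0, hη0, hη01, hη02⟩ : ∃ η0 : ℝ, 0 < η0 ∧ η0 ≤ 1 / 4 ∧ η0 ≤ κ :=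
    ⟨min (1 / 4) κ, lt_min (by norm_num) hκ, min_le_left _ _, min_le_right _ _⟩
  obtain ⟨ε, hε, hsab⟩ := Pool.Agent.H986R2.K4.sab η0 η (A + 12) hη0 hη01 hη (by linarith)
  refine ⟨ε, hε, ?_⟩
  intro F L δ s hL hδ0 hδ hs1 hs2 hS hfree
  have hL0 : 0 ≤ L := by linarith
  obtain ⟨g, hgn, hgd, hgc, hgs, hgl, -⟩ := chg hL0 hδ0 hδ hS
  have hnz : ∀ u : ℂ, 0 < u.re → u.re ≤ 10 → |u.im| ≤ 10 → g u ≠ 0 := by
    intro u h1 h2 h3
    by_cases hc : 3 / 2 ≤ u.re
    · have := (hgs u hc h2 h3).1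
      rw [← norm_pos_iff]
      exact (Real.exp_pos _).trans_le this
    · push Not at hc
      rw [← norm_pos_iff, hgn]
      refine mul_pos (norm_pos_iff.2 ?_) (Real.exp_pos _)
      by_cases hd : -1 < δ - u.re
      · refine hfree _ (by simpa using hd) (by simp; linarith) ?_
        have : ((δ : ℂ) - u + s.im * I).im - s.im = -u.im := by simp
        rw [this, abs_neg]
        exact h3
      · push Not at hd
        have h5 := (hS.sz ((δ : ℂ) - u + s.im * I) (by simp; linarith) (by simpa using hd) (by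
          have : ((δ : ℂ) - u + s.im * I).im - s.im = -u.im := by simp
          rw [this, abs_neg]
          exact h3)).1
        rw [← norm_pos_iff]
        exact (Real.exp_pos _).trans_le h5
  have key := hsab L g hL (fun u h1 h2 h3 => ⟨hgd u h1.le h2 h3, hnz u h1 h2 h3, hgc u h1.le h2 h3⟩)
    hgs
  obtain ⟨u, hu⟩ : ∃ u : ℂ, u = ((δ - s.re : ℝ) : ℂ) := ⟨_, rfl⟩
  have hure : u.re = δ - s.re := by rw [hu]; exact Complex.ofReal_re _
  have huim : u.im = 0 := by rw [hu]; exact Complex.ofReal_im _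
  have hWu : (δ : ℂ) - u + s.im * I = s := by
    apply Complex.ext
    · simp [hure]
    · simp [huim]
  obtain ⟨k1, k2, k3⟩ := key u (by rw [hure]; linarith) (by rw [hure]; linarith)
    (by rw [huim]; norm_num)
  have hne : F s ≠ 0 := by
    intro h0
    rw [hgn, hWu, h0, norm_zero, zero_mul] at k2
    have := Real.exp_pos (-(η * L))
    linarith
  have hur : 0 ≤ u.re := by rw [hure]; linarith
  have hur2 : u.re ≤ 10 := by rw [hure]; linarith
  have hui : |u.im| ≤ 10 := by rw [huim]; norm_num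
  rw [hgn, hWu, hure] at k2 k3
  rw [hgl u hur hur2 hui (by rw [hWu]; exact hne), hWu, norm_neg] at k1
  have hsa : AnalyticAt ℂ F s := hS.an s (by linarith) (by linarith) (by simp)
  refine ⟨hsa, hne, k1, ?_, ?_⟩
  · have e : Real.exp ((δ - (δ - s.re) - 1 / 2) * L) * Real.exp ((1 / 2 - s.re) * L) = 1 := by
      rw [← Real.exp_add, ← Real.exp_zero]; congr 1; ring
    calc Real.exp ((1 / 2 - s.re - η) * L)
        = Real.exp (-(η * L)) * Real.exp ((1 / 2 - s.re) * L) := by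
          rw [← Real.exp_add]; congr 1; ring
      _ ≤ (‖F s‖ * Real.exp ((δ - (δ - s.re) - 1 / 2) * L)) * Real.exp ((1 / 2 - s.re) * L) := by
          gcongr
      _ = ‖F s‖ := by rw [mul_assoc, e, mul_one]
  · have e : Real.exp ((δ - (δ - s.re) - 1 / 2) * L) * Real.exp ((1 / 2 - s.re) * L) = 1 := by
      rw [← Real.exp_add, ← Real.exp_zero]; congr 1; ring
    calc ‖F s‖ = (‖F s‖ * Real.exp ((δ - (δ - s.re) - 1 / 2) * L)) * Real.exp ((1 / 2 - s.re) * L) := by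
          rw [mul_assoc, e, mul_one]
      _ ≤ Real.exp (η * L) * Real.exp ((1 / 2 - s.re) * L) := by gcongr
      _ = _ := by rw [← Real.exp_add]; congr 1; ring

/-- few zeros give the upper bound -/
theorem few {A κ η : ℝ} (hA : 0 ≤ A) (hκ : 0 < κ) (hη : 0 < η) :
    ∃ η1 : ℝ, 0 < η1 ∧ η1 ≤ κ ∧ ∀ (F : ℂ → ℂ) (L δ : ℝ) (s : ℂ), 1 ≤ L → -1 ≤ δ → δ ≤ 1 / 2 →
      -1 ≤ s.re → s.re ≤ δ - κ → Side F A η1 L δ s.im →
      (∀ S : Finset ℂ, (∀ w ∈ S, F w = 0 ∧ -1 < w.re ∧ w.re < δ - η1 ∧ |w.im - s.im| ≤ 10) →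
        ∑ w ∈ S, (analyticOrderNatAt F w : ℝ) ≤ η1 * L) →
      ‖F s‖ ≤ Real.exp ((1 / 2 - s.re + η) * L) := by
  classical
  obtain ⟨η0, hη0, hη01, hη02⟩ : ∃ η0 : ℝ, 0 < η0 ∧ η0 ≤ 1 / 4 ∧ η0 ≤ κ :=
    ⟨min (1 / 4) κ, lt_min (by norm_num) hκ, min_le_left _ _, min_le_right _ _⟩
  obtain ⟨ε, hε, hsab⟩ := sabZ η0 η (A + 12) hη0 hη01 hη (by linarith)
  obtain ⟨η1, hη1⟩ : ∃ η1 : ℝ, η1 = min ε (η0 / 8) := ⟨_, rfl⟩
  have h1a : 0 < η1 := by rw [hη1]; positivity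
  have h1b : η1 ≤ ε := by rw [hη1]; exact min_le_left _ _
  have h1c : η1 ≤ η0 / 8 := by rw [hη1]; exact min_le_right _ _
  refine ⟨η1, h1a, by linarith, ?_⟩
  intro F L δ s hL hδ0 hδ hs1 hs2 hS hfew
  have hL0 : 0 ≤ L := by linarith
  obtain ⟨g, hgn, hgd, hgc, hgs, -, hgo⟩ := chg hL0 hδ0 hδ hS
  have hb : ∀ (r : ℝ) (z : ℂ), z ∈ Metric.closedBall (5 : ℂ) r → 5 - r ≤ z.re ∧ z.re ≤ 5 + r ∧
      |z.im| ≤ r := by
    intro r z hz
    rw [mem_closedBall_iff_norm] at hz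
    have k1 := abs_le.1 ((Complex.abs_re_le_norm (z - 5)).trans hz)
    have k2 := (Complex.abs_im_le_norm (z - 5)).trans hz
    simp only [Complex.sub_re, Complex.sub_im, Complex.re_ofNat, Complex.im_ofNat, sub_zero] at k1 k2
    exact ⟨by linarith, by linarith, k2⟩
  have hb5 : ∀ z : ℂ, z ∈ Metric.ball (5 : ℂ) 5 → 0 ≤ z.re ∧ z.re ≤ 10 ∧ |z.im| ≤ 10 := by
    intro z hz
    obtain ⟨k1, k2, k3⟩ := hb 5 z (Metric.ball_subset_closedBall hz)
    exact ⟨by linarith, by linarith, by linarith⟩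
  obtain ⟨W, hW⟩ : ∃ W : ℂ → ℂ, W = fun u => (δ : ℂ) - u + s.im * I := ⟨_, rfl⟩
  have hWre : ∀ u : ℂ, (W u).re = δ - u.re := by intro u; rw [hW]; simp
  have hWim : ∀ u : ℂ, (W u).im = s.im - u.im := by intro u; rw [hW]; simp; ring
  have hWe : ∀ u : ℂ, (δ : ℂ) - u + s.im * I = W u := by intro u; rw [hW]
  have hWi : Function.Injective W := by
    intro a b hab
    rw [hW] at hab
    simpa using hab
  have key := hsab L g (by linarith)
    (fun z hz => (hgd z (hb5 z hz).1 (hb5 z hz).2.1 (hb5 z hz).2.2).differentiableWithinAt)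
    (fun z hz => hgc z (hb5 z hz).1 (hb5 z hz).2.1 (hb5 z hz).2.2)
    (fun z hz => by
      obtain ⟨k1, k2, k3⟩ := hb _ z hz
      obtain ⟨k4, k5⟩ := hgs z (by linarith) (by linarith) (by linarith)
      have k6 : η1 * L ≤ ε * L := by gcongr
      exact ⟨(Real.exp_le_exp.2 (by linarith)).trans k4, k5.trans (Real.exp_le_exp.2 k6)⟩)
    (fun S hSz => by
      have k6 : η1 * L ≤ ε * L := by gcongr
      refine le_trans ?_ k6
      have e1 : ∑ z ∈ S, (analyticOrderNatAt g z : ℝ) =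
          ∑ w ∈ S.image W, (analyticOrderNatAt F w : ℝ) := by
        rw [Finset.sum_image (fun a _ b _ h => hWi h)]
        refine Finset.sum_congr rfl fun z hz => ?_
        obtain ⟨k1, k2, k3⟩ := hb _ z (hSz z hz).2
        rw [hgo z (by linarith) (by linarith) (by linarith), hWe]
      rw [e1]
      refine hfew _ fun w hw => ?_
      obtain ⟨z, hz, rfl⟩ := Finset.mem_image.1 hw
      obtain ⟨k0, kz⟩ := hSz z hz
      obtain ⟨k1, k2, k3⟩ := hb _ z kz
      have hF0 : F (W z) = 0 := by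
        have := hgn z
        rw [k0, norm_zero, hWe] at this
        have h5 := (mul_eq_zero.1 this.symm).resolve_right (Real.exp_pos _).ne'
        exact norm_eq_zero.1 h5
      refine ⟨hF0, ?_, ?_, ?_⟩
      · by_contra hc
        push Not at hc
        have h5 := (hS.sz (W z) (by rw [hWre]; linarith) hc (by
          rw [hWim, show s.im - z.im - s.im = -z.im by ring, abs_neg]; linarith)).1
        rw [hF0, norm_zero] at h5
        have := Real.exp_pos ((1 / 2 - (W z).re - η1) * L)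
        linarith
      · rw [hWre]; linarith
      · rw [hWim, show s.im - z.im - s.im = -z.im by ring, abs_neg]
        linarith)
  obtain ⟨u, hu⟩ : ∃ u : ℂ, u = ((δ - s.re : ℝ) : ℂ) := ⟨_, rfl⟩
  have hure : u.re = δ - s.re := by rw [hu]; exact Complex.ofReal_re _
  have huim : u.im = 0 := by rw [hu]; exact Complex.ofReal_im _
  have hWu : (δ : ℂ) - u + s.im * I = s := by
    apply Complex.ext
    · simp [hure]
    · simp [huim]
  have k := key u (by
    rw [mem_closedBall_iff_norm]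
    have e : u - 5 = ((δ - s.re - 5 : ℝ) : ℂ) := by rw [hu]; push_cast; ring
    rw [e, Complex.norm_real, Real.norm_eq_abs, abs_le]
    constructor <;> linarith)
  rw [hgn, hWu, hure] at k
  have e : Real.exp ((δ - (δ - s.re) - 1 / 2) * L) * Real.exp ((1 / 2 - s.re) * L) = 1 := by
    rw [← Real.exp_add, ← Real.exp_zero]; congr 1; ring
  calc ‖F s‖ = (‖F s‖ * Real.exp ((δ - (δ - s.re) - 1 / 2) * L)) * Real.exp ((1 / 2 - s.re) * L) := by
        rw [mul_assoc, e, mul_one]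
    _ ≤ Real.exp (η * L) * Real.exp ((1 / 2 - s.re) * L) := by gcongr
    _ = _ := by rw [← Real.exp_add]; congr 1; ring

/-- the maximum principle on a rectangle -/
theorem plr {A η : ℝ} (hA : 0 ≤ A) (hη : 0 < η) : ∃ Y : ℝ, 2 ≤ Y ∧ ∀ (F : ℂ → ℂ) (L y a t : ℝ),
    0 ≤ L → -1 ≤ y → y ≤ 1 → 0 ≤ a →
    (∀ w : ℂ, y ≤ w.re → w.re ≤ 2 → |w.im - t| ≤ Y → AnalyticAt ℂ F w ∧ ‖F w‖ ≤ Real.exp (A * L)) →
    (∀ w : ℂ, (w.re = y ∨ w.re = 2) → |w.im - t| ≤ Y → ‖F w‖ ≤ Real.exp ((a + η) * L)) →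
    ∀ x : ℝ, y ≤ x → x ≤ 2 → ‖F (x + t * I)‖ ≤ Real.exp ((a + 2 * η) * L) := by
  obtain ⟨c0, hc0⟩ : ∃ c0 : ℝ, c0 = η / 16 := ⟨_, rfl⟩
  have hc0p : 0 < c0 := by rw [hc0]; positivity
  obtain ⟨Y, hY⟩ : ∃ Y : ℝ, Y = 2 + A / c0 := ⟨_, rfl⟩
  have hYp : 2 ≤ Y := by rw [hY]; have : 0 ≤ A / c0 := by positivity
                         linarith
  have hYc : A ≤ c0 * (Y ^ 2 - 4) := by
    have e : c0 * (Y ^ 2 - 4) = 4 * A + A ^ 2 / c0 := by
      rw [hY]; field_simp; ring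
    rw [e]
    have : 0 ≤ A ^ 2 / c0 := by positivity
    linarith
  refine ⟨Y, hYp, ?_⟩
  intro F L y a t hL hy1 hy2 ha hF hside0 x hx1 hx2
  obtain ⟨g, hg⟩ : ∃ g : ℂ → ℂ, g = fun w => F w * cexp ((c0 * L : ℝ) * (w - t * I) ^ 2) := ⟨_, rfl⟩
  have hgn : ∀ w : ℂ, ‖g w‖ = ‖F w‖ * Real.exp (c0 * L * (w.re ^ 2 - (w.im - t) ^ 2)) := by
    intro w
    rw [hg]
    simp only [norm_mul, Complex.norm_exp]
    congr 2
    rw [Complex.re_ofReal_mul, sq, Complex.mul_re]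
    simp
    left
    ring
  obtain ⟨M, hM⟩ : ∃ M : ℝ, M = Real.exp ((a + 2 * η) * L) := ⟨_, rfl⟩
  have hM1 : 1 ≤ M := by rw [hM]; exact Real.one_le_exp (by positivity)
  -- the three parts of the boundary
  have hside : ∀ w : ℂ, |w.im - t| ≤ Y → (w.re = y ∨ w.re = 2) → ‖g w‖ ≤ M := by
    intro w hw1 hw2
    have hre : w.re ^ 2 ≤ 4 := by
      rcases hw2 with h | h <;> rw [h] <;> nlinarith
    have h5 : Real.exp (c0 * L * (w.re ^ 2 - (w.im - t) ^ 2)) ≤ Real.exp (η * L) := by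
      apply Real.exp_le_exp.2
      have : c0 * L * (w.re ^ 2 - (w.im - t) ^ 2) ≤ c0 * L * 4 := by
        gcongr
        nlinarith [sq_nonneg (w.im - t)]
      refine this.trans ?_
      rw [hc0]
      nlinarith
    rw [hgn]
    calc ‖F w‖ * Real.exp (c0 * L * (w.re ^ 2 - (w.im - t) ^ 2))
        ≤ Real.exp ((a + η) * L) * Real.exp (η * L) := by
          gcongr
          exact hside0 w hw2 hw1
      _ = M := by rw [hM, ← Real.exp_add]; congr 1; ring
  have htop : ∀ w : ℂ, |w.im - t| = Y → y ≤ w.re → w.re ≤ 2 → ‖g w‖ ≤ M := by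
    intro w hw1 hw2 hw3
    have h5 : (w.im - t) ^ 2 = Y ^ 2 := by rw [← sq_abs, hw1]
    have h7 : Real.exp (c0 * L * (w.re ^ 2 - (w.im - t) ^ 2)) ≤ Real.exp (-(A * L)) := by
      rw [h5]
      apply Real.exp_le_exp.2
      have h9 : w.re ^ 2 ≤ 4 := by nlinarith
      have h10 : c0 * (w.re ^ 2 - Y ^ 2) ≤ c0 * (4 - Y ^ 2) := by gcongr
      have h8 : c0 * (w.re ^ 2 - Y ^ 2) ≤ -A := by linarith
      calc c0 * L * (w.re ^ 2 - Y ^ 2) = (c0 * (w.re ^ 2 - Y ^ 2)) * L := by ring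
        _ ≤ -A * L := by gcongr
        _ = _ := by ring
    rw [hgn]
    calc ‖F w‖ * Real.exp (c0 * L * (w.re ^ 2 - (w.im - t) ^ 2))
        ≤ Real.exp (A * L) * Real.exp (-(A * L)) := by
          gcongr
          exact (hF w hw2 hw3 hw1.le).2
      _ = 1 := by rw [← Real.exp_add]; simp
      _ ≤ M := hM1
  -- the maximum principle
  have hyx : y < 2 := by linarith
  have hYt : t - Y < t + Y := by linarith
  obtain ⟨U, hU⟩ : ∃ U : Set ℂ, U = Ioo y 2 ×ℂ Ioo (t - Y) (t + Y) := ⟨_, rfl⟩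
  have hUb : Bornology.IsBounded U := by
    rw [hU]
    exact (Metric.isBounded_Ioo _ _).reProdIm (Metric.isBounded_Ioo _ _)
  have hcl : closure U = Icc y 2 ×ℂ Icc (t - Y) (t + Y) := by
    rw [hU, Complex.closure_reProdIm, closure_Ioo hyx.ne, closure_Ioo hYt.ne]
  have hgd : DifferentiableOn ℂ g (closure U) := by
    intro w hw1
    rw [hcl, Complex.mem_reProdIm] at hw1
    have h5 : DifferentiableAt ℂ F w := (hF w hw1.1.1 hw1.1.2 (by
      rw [abs_le]; constructor <;> linarith [hw1.2.1, hw1.2.2])).1.differentiableAt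
    rw [hg]
    refine DifferentiableAt.differentiableWithinAt (h5.mul ?_)
    fun_prop
  have hdc : DiffContOnCl ℂ g U := hgd.diffContOnCl
  have hfr : ∀ w ∈ frontier U, ‖g w‖ ≤ M := by
    intro w hw1
    rw [hU, Complex.frontier_reProdIm, closure_Ioo hyx.ne, closure_Ioo hYt.ne, frontier_Ioo hyx,
      frontier_Ioo hYt] at hw1
    rcases hw1 with hw1 | hw1
    · rw [Complex.mem_reProdIm] at hw1
      obtain ⟨h4, h5⟩ := hw1
      refine htop w ?_ h4.1 h4.2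
      rcases h5 with h5 | h5
      · rw [h5]; rw [show t - Y - t = -Y by ring, abs_neg, abs_of_nonneg (by linarith)]
      · rw [Set.mem_singleton_iff] at h5
        rw [h5]; rw [show t + Y - t = Y by ring, abs_of_nonneg (by linarith)]
    · rw [Complex.mem_reProdIm] at hw1
      obtain ⟨h4, h5⟩ := hw1
      refine hside w (by rw [abs_le]; constructor <;> linarith [h5.1, h5.2]) ?_
      rcases h4 with h4 | h4
      · exact Or.inl h4
      · exact Or.inr h4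
  have hx : (x + t * I : ℂ) ∈ closure U := by
    rw [hcl, Complex.mem_reProdIm]
    constructor
    · simp; exact ⟨hx1, hx2⟩
    · simp; linarith
  have hfin := Complex.norm_le_of_forall_mem_frontier_norm_le hUb hdc hfr hx
  rw [hgn] at hfin
  have hre : (x + t * I : ℂ).re = x := by simp
  have him : (x + t * I : ℂ).im = t := by simp
  rw [hre, him] at hfin
  have h1e : 1 ≤ Real.exp (c0 * L * (x ^ 2 - (t - t) ^ 2)) := by
    apply Real.one_le_exp
    have : (t - t) ^ 2 = 0 := by ring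
    rw [this, sub_zero]
    positivity
  rw [← hM]
  nlinarith [norm_nonneg (F (x + t * I))]

end Pool.Agent.Y853.LC
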