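import Pool.Agent.Y853.LC.Box

set_option autoImplicit false

/-!
# From `Gl Z l` to `Z` along a horizontal line
-/

namespace Pool.Agent.Y853.LC

open Complex Filter Topology Set
open Pool.Agent.Y853.SP (right_bound down_line decay)

theorem dn (l : List ℂ) : ∀ κ : ℝ, 0 < κ → κ ≤ 1 → ∃ η L0 : ℝ, 0 < η ∧ η ≤ 1 / 8 ∧ 1 ≤ L0 ∧
    ∀ (Z : ℂ → ℂ) (L t y : ℝ) (F : ℂ → ℂ) (μ : ℂ), L0 ≤ L → y ≤ 1 / 2 →
      (∀ x : ℝ, -2 ≤ x → x ≤ 2 → AnalyticAt ℂ Z (x + t * I)) →
      (∀ l' : List ℂ, l' <:+ l → ‖Gl Z l' (2 + t * I)‖ ≤ Real.exp (η * L)) →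
      (∀ x : ℝ, -2 ≤ x → x ≤ y → Rg F η L (x + t * I)) → Real.exp (-(η * L)) ≤ ‖μ‖ →
      ‖μ‖ ≤ Real.exp (η * L) →
      (∀ x : ℝ, -2 ≤ x → x ≤ y → ‖μ * Gl Z l (x + t * I) - F (x + t * I)‖ ≤ η * ‖F (x + t * I)‖) →
      (∀ x : ℝ, y ≤ x → x ≤ 2 → ‖Gl Z l (x + t * I)‖ ≤ Real.exp ((1 / 2 - y + η) * L)) →
      ∀ x : ℝ, -2 ≤ x → x ≤ y - κ → Z (x + t * I) ≠ 0 := by
  induction l with
  | nil =>
    intro κ hκ hκ1
    refine ⟨1 / 8, 1, by norm_num, le_rfl, le_rfl, ?_⟩
    intro Z L t y F μ hL hy2 hZ hr hF hμ1 hμ2 hm hb x hx1 hx2 h0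
    have h1 := hm x hx1 (by linarith)
    have h2 := (hF x hx1 (by linarith)).ne
    change ‖μ * Z (x + t * I) - F (x + t * I)‖ ≤ _ at h1
    rw [h0, mul_zero, zero_sub, norm_neg] at h1
    have h3 : 0 < ‖F (x + t * I)‖ := norm_pos_iff.2 h2
    linarith
  | cons c l ih =>
    intro κ hκ hκ1
    obtain ⟨η1, L1, hη1, hη18, hL1, h1⟩ := ih (κ / 2) (by positivity) (by linarith)
    obtain ⟨E, hE⟩ : ∃ E : ℝ, E = Real.exp (5 * ‖c‖) := ⟨_, rfl⟩
    have hE1 : 1 ≤ E := by rw [hE]; exact Real.one_le_exp (by positivity)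
    obtain ⟨η, hη, hηa, hηb, hηc, hηd⟩ : ∃ η : ℝ, 0 < η ∧ η ≤ 1 / 8 ∧ 32 * η ≤ κ ∧ 4 * η ≤ η1 ∧
        12 * η * E ^ 2 ≤ η1 := by
      refine ⟨min (min (1 / 8) (κ / 32)) (min (η1 / 4) (η1 / (12 * E ^ 2))), by positivity,
        (min_le_left _ _).trans (min_le_left _ _), ?_, ?_, ?_⟩
      · have := (min_le_left (min (1 / 8) (κ / 32)) (min (η1 / 4) (η1 / (12 * E ^ 2)))).trans
          (min_le_right _ _)
        linarith
      · have := (min_le_right (min (1 / 8) (κ / 32)) (min (η1 / 4) (η1 / (12 * E ^ 2)))).trans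
          (min_le_left _ _)
        linarith
      · have := (min_le_right (min (1 / 8) (κ / 32)) (min (η1 / 4) (η1 / (12 * E ^ 2)))).trans
          (min_le_right _ _)
        rw [le_div_iff₀ (by positivity)] at this
        linarith
    obtain ⟨L2, hL2, h2⟩ := lin_le_exp 1 hη
    obtain ⟨L4, hL4, h4⟩ := const_le_exp (E * (1 + 10 * E)) hη
    obtain ⟨L5, hL5, h5⟩ := const_le_exp (4 * E / η1) (ε := κ / 4) (by positivity)
    refine ⟨η, max (max L1 L2) (max (‖c‖ / η + 1) (max L4 L5)), hη, hηa,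
      hL1.trans ((le_max_left _ _).trans (le_max_left _ _)), ?_⟩
    intro Z L t y F μ hL hy2 hZ hr hF hμ1 hμ2 hm hb x0 hx01 hx02
    have ht1 : L1 ≤ L := ((le_max_left _ _).trans (le_max_left _ _)).trans hL
    have ht2 : L2 ≤ L := ((le_max_right _ _).trans (le_max_left _ _)).trans hL
    have ht3 : ‖c‖ / η + 1 ≤ L := ((le_max_left _ _).trans (le_max_right _ _)).trans hL
    have ht4 : L4 ≤ L := (((le_max_left _ _).trans (le_max_right _ _)).trans (le_max_right _ _)).trans hL
    have ht5 : L5 ≤ L := (((le_max_right _ _).trans (le_max_right _ _)).trans (le_max_right _ _)).trans hL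
    have hLa : 1 ≤ L := hL1.trans ht1
    have hL0 : 0 ≤ L := by linarith
    have hLp : L ≤ Real.exp (η * L) := by have := h2 L ht2; rwa [one_mul] at this
    have hcL : ‖c‖ ≤ η * L := by
      have : ‖c‖ / η ≤ L := by linarith
      rwa [div_le_iff₀ hη, mul_comm] at this
    have him : ∀ x : ℝ, (x + t * I : ℂ).im = t := by intro x; simp
    have hre : ∀ x : ℝ, (x + t * I : ℂ).re = x := by intro x; simp
    have hGan : ∀ x : ℝ, -2 ≤ x → x ≤ 2 → DifferentiableAt ℂ (Gl Z l) (x + t * I) := fun x h1 h2 =>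
      (Gl_an l (hZ x h1 h2)).differentiableAt
    have hB : ‖Gl Z l (2 + t * I)‖ ≤ Real.exp (η * L) := hr l (List.suffix_cons c l)
    obtain ⟨y1, hy1d⟩ : ∃ y1 : ℝ, y1 = y - κ / 2 := ⟨_, rfl⟩
    have hy1l : -2 ≤ y1 := by rw [hy1d]; linarith
    -- bounds to the right of `y1`
    have hHb : ∀ v : ℝ, y1 ≤ v → v ≤ 2 →
        ‖Gl Z (c :: l) (v + t * I)‖ ≤ 2 * Real.exp ((1 / 2 - y1 + 2 * η) * L) := by
      intro v hv1 hv2
      rcases le_total v y with hv | hv
      · have e1 := hm v (by rw [hy1d] at hv1; linarith) hv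
        have e2 := (hF v (by rw [hy1d] at hv1; linarith) hv).up
        rw [hre] at e2
        have e3 : ‖μ‖ * ‖Gl Z (c :: l) (v + t * I)‖ ≤ 2 * ‖F (v + t * I)‖ := by
          rw [← norm_mul]
          calc ‖μ * Gl Z (c :: l) (v + t * I)‖
              = ‖(μ * Gl Z (c :: l) (v + t * I) - F (v + t * I)) + F (v + t * I)‖ := by congr 1; ring
            _ ≤ η * ‖F (v + t * I)‖ + ‖F (v + t * I)‖ := (norm_add_le _ _).trans (by gcongr)
            _ ≤ _ := by nlinarith [norm_nonneg (F (v + t * I))]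
        have e4 : ‖Gl Z (c :: l) (v + t * I)‖ ≤ Real.exp (η * L) * (2 * ‖F (v + t * I)‖) := by
          have e5 : Real.exp (-(η * L)) * ‖Gl Z (c :: l) (v + t * I)‖ ≤ 2 * ‖F (v + t * I)‖ :=
            le_trans (by gcongr) e3
          rw [Real.exp_neg, inv_mul_le_iff₀ (Real.exp_pos _)] at e5
          exact e5
        calc _ ≤ Real.exp (η * L) * (2 * ‖F (v + t * I)‖) := e4
          _ ≤ Real.exp (η * L) * (2 * Real.exp ((1 / 2 - v + η) * L)) := by gcongr
          _ = 2 * Real.exp ((1 / 2 - v + 2 * η) * L) := by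
              have e5 := Real.exp_add (η * L) ((1 / 2 - v + η) * L)
              rw [show (1 / 2 - v + 2 * η) * L = η * L + (1 / 2 - v + η) * L by ring, e5]
              ring
          _ ≤ _ := by
              gcongr
      · have e1 := hb v hv hv2
        have e2 : Real.exp ((1 / 2 - y + η) * L) ≤ Real.exp ((1 / 2 - y1 + 2 * η) * L) := by
          apply Real.exp_le_exp.2
          have : 1 / 2 - y + η ≤ 1 / 2 - y1 + 2 * η := by rw [hy1d]; linarith
          gcongr
        have e3 : 0 < Real.exp ((1 / 2 - y1 + 2 * η) * L) := Real.exp_pos _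
        linarith
    have hb1 : ∀ x : ℝ, y1 ≤ x → x ≤ 2 →
        ‖Gl Z l (x + t * I)‖ ≤ Real.exp ((1 / 2 - y1 + 3 * η) * L) := by
      intro x hx1 hx2
      have e1 := right_bound (G := Gl Z l) (H := Gl Z (c :: l)) (c := c) (t := t)
        (M := 2 * Real.exp ((1 / 2 - y1 + 2 * η) * L)) (B := Real.exp (η * L)) (x := x)
        (by rw [hy1d] at hx1; linarith) hx2
        (by positivity)
        (fun v hv1 hv2 => ⟨hGan v (by linarith) hv2, rfl, hHb v (by linarith) hv2⟩)
        hB
      rw [← hE] at e1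
      have e2 : Real.exp (η * L) ≤ Real.exp ((1 / 2 - y1 + 2 * η) * L) := by
        apply Real.exp_le_exp.2
        have : η ≤ 1 / 2 - y1 + 2 * η := by rw [hy1d]; linarith
        gcongr
      calc _ ≤ E * (Real.exp (η * L) + 5 * E * (2 * Real.exp ((1 / 2 - y1 + 2 * η) * L))) := e1
        _ ≤ E * (Real.exp ((1 / 2 - y1 + 2 * η) * L) +
              5 * E * (2 * Real.exp ((1 / 2 - y1 + 2 * η) * L))) := by
            gcongr
        _ = (E * (1 + 10 * E)) * Real.exp ((1 / 2 - y1 + 2 * η) * L) := by ring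
        _ ≤ Real.exp (η * L) * Real.exp ((1 / 2 - y1 + 2 * η) * L) := by
            gcongr
            exact h4 L ht4
        _ = Real.exp ((1 / 2 - y1 + 3 * η) * L) := by rw [← Real.exp_add]; congr 1; ring
    have hby : ‖Gl Z l (y + t * I)‖ ≤ Real.exp ((1 / 2 - y + 2 * η) * L) := by
      have e1 := right_bound (G := Gl Z l) (H := Gl Z (c :: l)) (c := c) (t := t)
        (M := Real.exp ((1 / 2 - y + η) * L)) (B := Real.exp (η * L)) (x := y) (by linarith)
        (by linarith)
        (by positivity)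
        (fun v hv1 hv2 => ⟨hGan v (by linarith) hv2, rfl, hb v hv1 hv2⟩)
        hB
      rw [← hE] at e1
      have e2 : Real.exp (η * L) ≤ Real.exp ((1 / 2 - y + η) * L) := by
        apply Real.exp_le_exp.2
        have : η ≤ 1 / 2 - y + η := by linarith
        gcongr
      calc _ ≤ E * (Real.exp (η * L) + 5 * E * Real.exp ((1 / 2 - y + η) * L)) := e1
        _ ≤ E * (Real.exp ((1 / 2 - y + η) * L) + 10 * E * Real.exp ((1 / 2 - y + η) * L)) := by
            have h6 : 0 ≤ E * Real.exp ((1 / 2 - y + η) * L) := by positivity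
            gcongr
            · norm_num
        _ = (E * (1 + 10 * E)) * Real.exp ((1 / 2 - y + η) * L) := by ring
        _ ≤ Real.exp (η * L) * Real.exp ((1 / 2 - y + η) * L) := by
            gcongr
            exact h4 L ht4
        _ = Real.exp ((1 / 2 - y + 2 * η) * L) := by rw [← Real.exp_add]; congr 1; ring
    -- apply the induction hypothesis
    have hμ3 : ‖-(L : ℂ) * μ‖ = L * ‖μ‖ := by
      rw [norm_mul, norm_neg, Complex.norm_real, Real.norm_eq_abs, abs_of_pos (by linarith)]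
    have hmain := h1 Z L t y1 F (-(L : ℂ) * μ) ht1 (by rw [hy1d]; linarith) hZ
      (fun l' hl' => (hr l' (hl'.trans (List.suffix_cons c l))).trans (by
        apply Real.exp_le_exp.2
        have : η ≤ η1 := by linarith
        gcongr))
      (fun x hx1 hx2 => (hF x hx1 (by rw [hy1d] at hx2; linarith)).mono hL0
        (by linarith))
      (by
        rw [hμ3]
        calc Real.exp (-(η1 * L)) ≤ Real.exp (-(η * L)) := by
              apply Real.exp_le_exp.2
              have : η * L ≤ η1 * L := by gcongr; linarith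
              linarith
          _ ≤ ‖μ‖ := hμ1
          _ ≤ L * ‖μ‖ := by nlinarith [norm_nonneg μ])
      (by
        rw [hμ3]
        calc L * ‖μ‖ ≤ Real.exp (η * L) * Real.exp (η * L) := by gcongr
          _ = Real.exp ((η + η) * L) := by rw [← Real.exp_add]; congr 1; ring
          _ ≤ Real.exp (η1 * L) := by
              apply Real.exp_le_exp.2
              have : η + η ≤ η1 := by linarith
              gcongr)
      (by
        intro x hx1 hx2
        have hxy : x ≤ y - κ / 2 := by rw [hy1d] at hx2; exact hx2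
        have e1 := down_line (F := F) (G := Gl Z l) (H := Gl Z (c :: l)) (c := c) (μ := μ) (t := t)
          (L := L) (η := η) (y := y) hη hηa hLa hcL (by linarith)
          (fun v hv1 hv2 => ⟨(hF v hv1 hv2).an, (hF v hv1 hv2).ne, (hF v hv1 hv2).ld⟩)
          (fun v hv1 hv2 => ⟨hGan v hv1 (by linarith), rfl⟩) hm hx1 (by linarith)
        refine e1.trans ?_
        have hdec := decay (F := F) (t := t) (L := L) (a := -2) (b := y)
          (fun v hv1 hv2 => ⟨(hF v hv1 hv2).an, (hF v hv1 hv2).ne, by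
            have h3 := (hF v hv1 hv2).ld
            have h4 : (logDeriv F (v + t * I) + (L : ℂ)).re ≤ η * L :=
              (Complex.re_le_norm _).trans h3
            rw [Complex.add_re, Complex.ofReal_re] at h4
            nlinarith⟩) hx1 (by linarith : x ≤ y) le_rfl
        have hlo := (hF x hx1 (by linarith)).lo
        rw [hre] at hlo
        obtain ⟨K, hK⟩ : ∃ K : ℝ, K = ‖F (x + t * I)‖ := ⟨_, rfl⟩
        rw [← hK] at hdec hlo ⊢
        have hK0 : 0 < K := (Real.exp_pos _).trans_le hlo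
        have hFy : ‖F (y + t * I)‖ ≤ K * Real.exp (-(κ / 4 * L)) := by
          refine hdec.trans ?_
          refine mul_le_mul_of_nonneg_left (Real.exp_le_exp.2 ?_) hK0.le
          nlinarith
        have hGy : L * ‖μ‖ * ‖Gl Z l (y + t * I)‖ ≤ K * Real.exp (-(κ / 4 * L)) := by
          calc L * ‖μ‖ * ‖Gl Z l (y + t * I)‖
              ≤ Real.exp (η * L) * Real.exp (η * L) * Real.exp ((1 / 2 - y + 2 * η) * L) := by gcongr
            _ = Real.exp ((1 / 2 - y + 4 * η) * L) := by
                rw [← Real.exp_add, ← Real.exp_add]; congr 1; ring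
            _ ≤ Real.exp ((1 / 2 - x - η - κ / 4) * L) := by
                apply Real.exp_le_exp.2
                have : 1 / 2 - y + 4 * η ≤ 1 / 2 - x - η - κ / 4 := by linarith
                gcongr
            _ = Real.exp ((1 / 2 - x - η) * L) * Real.exp (-(κ / 4 * L)) := by
                rw [← Real.exp_add]; congr 1; ring
            _ ≤ _ := by gcongr
        have hD : ‖-(L : ℂ) * μ * Gl Z l (y + t * I) - F (y + t * I)‖ ≤
            2 * (K * Real.exp (-(κ / 4 * L))) := by
          calc _ ≤ ‖-(L : ℂ) * μ * Gl Z l (y + t * I)‖ + ‖F (y + t * I)‖ := norm_sub_le _ _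
            _ = L * ‖μ‖ * ‖Gl Z l (y + t * I)‖ + ‖F (y + t * I)‖ := by rw [norm_mul, hμ3]
            _ ≤ _ := by linarith
        have hE3 : Real.exp (3 * ‖c‖) ≤ E := by
          rw [hE]
          apply Real.exp_le_exp.2
          linarith [norm_nonneg c]
        have hsm : 2 * (K * Real.exp (-(κ / 4 * L))) ≤ K * (η1 / (2 * E)) := by
          have e2 := h5 L ht5
          have e3 : Real.exp (-(κ / 4 * L)) ≤ η1 / (4 * E) := by
            rw [Real.exp_neg, inv_le_comm₀ (Real.exp_pos _) (by positivity), inv_div]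
            exact e2
          calc 2 * (K * Real.exp (-(κ / 4 * L))) ≤ 2 * (K * (η1 / (4 * E))) := by gcongr
            _ = _ := by field_simp; ring
        calc Real.exp (3 * ‖c‖) * (‖-(L : ℂ) * μ * Gl Z l (y + t * I) - F (y + t * I)‖ +
              6 * η * Real.exp (3 * ‖c‖) * K)
            ≤ E * (K * (η1 / (2 * E)) + 6 * η * E * K) := by
              gcongr
              exact hD.trans hsm
          _ = η1 / 2 * K + 6 * η * E ^ 2 * K := by field_simp
          _ ≤ η1 / 2 * K + η1 / 2 * K := by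
              gcongr
              linarith
          _ = η1 * K := by ring)
      (fun x hx1 hx2 => (hb1 x hx1 hx2).trans (by
        apply Real.exp_le_exp.2
        have : 3 * η ≤ η1 := by linarith
        gcongr))
    exact hmain x0 hx01 (by rw [hy1d]; linarith)

end Pool.Agent.Y853.LC
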