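import Pool.Agent.Y853.LC.Main
import Pool.Agent.Y853.SP.Cnt

set_option autoImplicit false

/-!
# Few zeros and small values, local form
-/

namespace Pool.Agent.Y853.LC

open Complex Filter Topology Set
open Pool.Agent.Y853.SP (right_bound jcount)

/-- the functional equation, in absolute value -/
structure Fe (Z : ℂ → ℂ) (η L Y : ℝ) : Prop where
  lo : ∀ s : ℂ, -1 ≤ s.re → s.re ≤ 1 / 2 → |s.im| ≤ Y →
    Real.exp ((1 / 2 - s.re - η) * L) * ‖Z (1 - (starRingEnd ℂ) s)‖ ≤ ‖Z s‖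
  up : ∀ s : ℂ, -1 ≤ s.re → s.re ≤ 1 / 2 → |s.im| ≤ Y →
    ‖Z s‖ ≤ Real.exp ((1 / 2 - s.re + η) * L) * ‖Z (1 - (starRingEnd ℂ) s)‖

theorem Fe.mono {Z : ℂ → ℂ} {η η' L Y Y' : ℝ} (h : Fe Z η L Y) (hL : 0 ≤ L) (hη : η ≤ η')
    (hY : Y' ≤ Y) : Fe Z η' L Y' :=
  ⟨fun s h1 h2 h3 => (by gcongr : _ ≤ _).trans (h.lo s h1 h2 (h3.trans hY)),
    fun s h1 h2 h3 => (h.up s h1 h2 (h3.trans hY)).trans (by gcongr)⟩

/-- bounds for `Z` from bounds for `Gl Z l` -/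
theorem rb (l : List ℂ) : ∃ K : ℝ, 1 ≤ K ∧ ∀ (Z : ℂ → ℂ) (t y M : ℝ), -3 ≤ y → y ≤ 2 → 0 ≤ M →
    (∀ x : ℝ, y ≤ x → x ≤ 2 → AnalyticAt ℂ Z (x + t * I)) →
    (∀ l' : List ℂ, l' <:+ l → ‖Gl Z l' (2 + t * I)‖ ≤ M) →
    (∀ x : ℝ, y ≤ x → x ≤ 2 → ‖Gl Z l (x + t * I)‖ ≤ M) →
    ∀ x : ℝ, y ≤ x → x ≤ 2 → ‖Z (x + t * I)‖ ≤ K * M := by
  induction l with
  | nil =>
    refine ⟨1, le_rfl, ?_⟩
    intro Z t y M hy hy2 hM hZ hs h x hx1 hx2
    rw [one_mul]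
    exact h x hx1 hx2
  | cons c l ih =>
    obtain ⟨K, hK, h1⟩ := ih
    obtain ⟨E, hE⟩ : ∃ E : ℝ, E = Real.exp (5 * ‖c‖) := ⟨_, rfl⟩
    have hE1 : 1 ≤ E := by rw [hE]; exact Real.one_le_exp (by positivity)
    have hE2 : 1 ≤ E * (1 + 5 * E) := by nlinarith
    refine ⟨K * (E * (1 + 5 * E)), by nlinarith, ?_⟩
    intro Z t y M hy hy2 hM hZ hs h x hx1 hx2
    have h2 : ∀ x : ℝ, y ≤ x → x ≤ 2 → ‖Gl Z l (x + t * I)‖ ≤ E * (1 + 5 * E) * M := by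
      intro x hx1 hx2
      have e1 := right_bound (G := Gl Z l) (H := Gl Z (c :: l)) (c := c) (t := t) (M := M) (B := M)
        (x := x) (by linarith) hx2 hM
        (fun v hv1 hv2 => ⟨(Gl_an l (hZ v (by linarith) hv2)).differentiableAt, rfl,
          h v (by linarith) hv2⟩) (hs l (List.suffix_cons c l))
      rw [← hE] at e1
      calc _ ≤ _ := e1
        _ = _ := by ring
    have hM' : M ≤ E * (1 + 5 * E) * M := by nlinarith
    calc _ ≤ K * (E * (1 + 5 * E) * M) := h1 Z t y _ hy hy2 (by positivity) hZ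
          (fun l' hl' => (hs l' (hl'.trans (List.suffix_cons c l))).trans hM') h2 x hx1 hx2
      _ = _ := by ring

/-- bounds for `Gl Z l` from bounds for `Z` near `s` -/
theorem cb (l : List ℂ) : ∀ κ : ℝ, 0 < κ → ∃ K : ℝ, 1 ≤ K ∧ ∀ (Z : ℂ → ℂ) (s : ℂ) (M : ℝ), 0 ≤ M →
    (∀ w : ℂ, ‖w - s‖ ≤ κ → AnalyticAt ℂ Z w ∧ ‖Z w‖ ≤ M) → ‖Gl Z l s‖ ≤ K * M := by
  induction l with
  | nil =>
    intro κ hκ
    refine ⟨1, le_rfl, ?_⟩
    intro Z s M hM h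
    rw [one_mul]
    exact (h s (by simp; linarith)).2
  | cons c l ih =>
    intro κ hκ
    obtain ⟨K, hK, h1⟩ := ih (κ / 2) (by positivity)
    refine ⟨(2 / κ + ‖c‖ + 1) * K, ?_, ?_⟩
    · have : 0 ≤ 2 / κ + ‖c‖ := by positivity
      nlinarith
    intro Z s M hM h
    have h2 : ∀ w : ℂ, ‖w - s‖ ≤ κ / 2 → ‖Gl Z l w‖ ≤ K * M := by
      intro w hw
      refine h1 Z w M hM fun v hv => h v ?_
      calc ‖v - s‖ = ‖(v - w) + (w - s)‖ := by congr 1; ring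
        _ ≤ κ / 2 + κ / 2 := (norm_add_le _ _).trans (by gcongr)
        _ = κ := by ring
    have hd : ‖deriv (Gl Z l) s‖ ≤ K * M / (κ / 2) := by
      refine Complex.norm_deriv_le_of_forall_mem_sphere_norm_le (by positivity) ?_ ?_
      · have : DifferentiableOn ℂ (Gl Z l) (Metric.closedBall s (κ / 2)) := by
          intro w hw1
          rw [Metric.mem_closedBall, dist_eq_norm] at hw1
          exact (Gl_an l (h w (by linarith)).1).differentiableAt.differentiableWithinAt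
        exact this.diffContOnCl_ball subset_rfl
      · intro w hw1
        rw [mem_sphere_iff_norm] at hw1
        exact h2 w hw1.le
    have hs := h2 s (by simp; linarith)
    calc ‖deriv (Gl Z l) s - c * Gl Z l s‖ ≤ ‖deriv (Gl Z l) s‖ + ‖c * Gl Z l s‖ := norm_sub_le _ _
      _ ≤ K * M / (κ / 2) + ‖c‖ * (K * M) := by rw [norm_mul]; gcongr
      _ = (2 / κ + ‖c‖) * K * M := by field_simp
      _ ≤ (2 / κ + ‖c‖ + 1) * K * M := by
          have : 0 ≤ K * M := by positivity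
          nlinarith

/-- few zeros of `Fc` to the left of `1 - θ` give small values of `Z` on `Re s = θ` -/
theorem lh1 {C : ℂ} (hC : C ≠ 0) (l : List ℂ) {A ε : ℝ} (hA : 0 ≤ A) (hε : 0 < ε) :
    ∃ Y η L0 : ℝ, 0 < Y ∧ 0 < η ∧ 1 ≤ L0 ∧ ∀ (Z A0 : ℂ → ℂ) (L Y' θ t : ℝ), L0 ≤ L →
      |t| + Y ≤ Y' → Dat Z A η L Y' (1 / 4) → Sm A0 η L Y' → Fe Z η L Y' → 1 / 2 ≤ θ → θ ≤ 1 →
      (∀ S : Finset ℂ, (∀ w ∈ S, Fc Z C l A0 w = 0 ∧ -1 < w.re ∧ w.re < 1 - θ - η ∧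
        |w.im - t| ≤ Y) → ∑ w ∈ S, (analyticOrderNatAt (Fc Z C l A0) w : ℝ) ≤ η * L) →
      ‖Z (θ + t * I)‖ ≤ Real.exp (ε * L) := by
  have hC0 : 0 < ‖C‖ := norm_pos_iff.2 hC
  have hlen : (0 : ℝ) ≤ (l.length : ℝ) := Nat.cast_nonneg _
  obtain ⟨κ, hκ, hκa, hκb⟩ : ∃ κ : ℝ, 0 < κ ∧ κ ≤ 1 / 2 ∧ 2 * κ ≤ ε :=
    ⟨min (1 / 2) (ε / 2), by positivity, min_le_left _ _, by
      have := min_le_right (1 / 2) (ε / 2); linarith⟩
  obtain ⟨η2, hη2, hη2a⟩ : ∃ η2 : ℝ, 0 < η2 ∧ 12 * η2 ≤ ε := ⟨ε / 12, by positivity, by linarith⟩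
  obtain ⟨Y, hY, h2⟩ := plr (A := A + l.length + 1) (by positivity) hη2
  obtain ⟨η3, hη3, hη3a, h3⟩ := few (A := A + l.length + 1) (κ := κ) (η := η2) (by positivity) hκ hη2
  obtain ⟨η4, L4, hη4, hL4, h4⟩ := fc_big hC l hA (η' := min η2 η3) (by positivity)
  obtain ⟨η5, L5, hη5, hL5, h5⟩ := suf_bound l (A := A) hη2
  obtain ⟨L6, hL6, h6⟩ := const_le_exp (2 / ‖C‖) hη2
  obtain ⟨K, hK, h7⟩ := rb l
  obtain ⟨L8, hL8, h8⟩ := const_le_exp K hη2
  obtain ⟨η0, hη0, hη0a, hη0b, hη0c, hη0d⟩ : ∃ η0 : ℝ, 0 < η0 ∧ η0 ≤ η4 ∧ η0 ≤ η5 ∧ η0 ≤ η2 ∧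
      η0 ≤ η3 :=
    ⟨min (min η4 η5) (min η2 η3), by positivity, (min_le_left _ _).trans (min_le_left _ _),
      (min_le_left _ _).trans (min_le_right _ _), (min_le_right _ _).trans (min_le_left _ _),
      (min_le_right _ _).trans (min_le_right _ _)⟩
  obtain ⟨L0, g4, g5, g6, g8⟩ : ∃ L0 : ℝ, L4 ≤ L0 ∧ L5 ≤ L0 ∧ L6 ≤ L0 ∧ L8 ≤ L0 := by
    refine ⟨max (max L4 L5) (max L6 L8), ?_, ?_, ?_, ?_⟩ <;> simp
  refine ⟨Y + 10, η0, L0, by linarith, hη0, by linarith, ?_⟩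
  intro Z A0 L Y' θ t hL hY' hZ hA0 hFe hθ hθ1 hfew
  have hLa : 1 ≤ L := by linarith
  have hL0 : 0 ≤ L := by linarith
  have him : ∀ x : ℝ, (x + t * I : ℂ).im = t := by intro x; simp
  have hre : ∀ x : ℝ, (x + t * I : ℂ).re = x := by intro x; simp
  have hin : ∀ w : ℂ, |w.im - t| ≤ Y → |w.im| + 10 ≤ Y' := by
    intro w hw
    have : |w.im| ≤ |w.im - t| + |t| := by
      calc |w.im| = |(w.im - t) + t| := by congr 1; ring
        _ ≤ _ := abs_add_le _ _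
    linarith
  have htY : |t| ≤ Y' := by linarith
  have hB := h4 Z A0 L Y' (by linarith) (hZ.mono hL0 le_rfl hη0a le_rfl le_rfl)
    (hA0.mono hL0 hη0a le_rfl)
  obtain ⟨y, hyd⟩ : ∃ y : ℝ, y = 1 - θ - κ := ⟨_, rfl⟩
  have hy1 : -1 ≤ y := by rw [hyd]; linarith
  have hy2 : y ≤ 1 / 2 := by rw [hyd]; linarith
  -- the upper bound on `Re = y`
  have hleft : ∀ w : ℂ, w.re = y → |w.im - t| ≤ Y →
      ‖Fc Z C l A0 w‖ ≤ Real.exp ((1 / 2 - y + η2) * L) := by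
    intro w hw1 hw2
    have hw3 := hin w hw2
    have hS : Side (Fc Z C l A0) (A + l.length + 1) η3 L (1 - θ) w.im := by
      have hS1 := hB.side (δ := 1 - θ) (by linarith) hw3
      refine ⟨hS1.an, hS1.cr, fun v e1 e2 e3 => ?_⟩
      obtain ⟨f1, f2⟩ := hS1.sz v e1 e2 e3
      have hm : min η2 η3 ≤ η3 := min_le_right _ _
      exact ⟨(Real.exp_le_exp.2 (by gcongr)).trans f1, f2.trans (Real.exp_le_exp.2 (by gcongr))⟩
    have := h3 (Fc Z C l A0) L (1 - θ) w hLa (by linarith) (by linarith) (by rw [hw1]; exact hy1)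
      (by rw [hw1, hyd]) hS (by
        intro S hS
        refine (hfew S fun v hv => ?_).trans (by gcongr)
        obtain ⟨f1, f2, f3, f4⟩ := hS v hv
        refine ⟨f1, f2, by linarith, ?_⟩
        calc |v.im - t| = |(v.im - w.im) + (w.im - t)| := by congr 1; ring
          _ ≤ _ := abs_add_le _ _
          _ ≤ _ := by linarith)
    rwa [hw1] at this
  have hpl : ∀ x : ℝ, y ≤ x → x ≤ 2 →
      ‖Fc Z C l A0 (x + t * I)‖ ≤ Real.exp ((1 / 2 - y + 2 * η2) * L) := by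
    intro x hx1 hx2
    refine h2 (Fc Z C l A0) L y (1 / 2 - y) t hL0 hy1 (by linarith) (by linarith)
      ?_ ?_ x hx1 hx2
    · intro w hw1 hw2 hw3
      have := hin w hw3
      exact ⟨hB.an w (by linarith) hw2 (by linarith), hB.cr w (by linarith) hw2 (by linarith)⟩
    · intro w hw1 hw2
      have h10 := hin w hw2
      rcases hw1 with hw1 | hw1
      · exact hleft w hw1 hw2
      · refine (hB.rt w hw1 (by linarith)).trans (Real.exp_le_exp.2 ?_)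
        have hm : min η2 η3 ≤ η2 := min_le_left _ _
        have : min η2 η3 ≤ 1 / 2 - y + η2 := by linarith
        gcongr
  have hGl : ∀ x : ℝ, y ≤ x → x ≤ 2 →
      ‖Gl Z l (x + t * I)‖ ≤ Real.exp ((1 / 2 - y + 3 * η2) * L) := by
    intro x hx1 hx2
    have hAb : ‖A0 (x + t * I)‖ ≤ Real.exp (η2 * L) := by
      refine (hA0.le _ (by rw [hre]; linarith) (by rw [hre]; exact hx2) (by rw [him]; exact htY)).trans
        (Real.exp_le_exp.2 (by gcongr))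
    have e1 : ‖C‖ * ‖Gl Z l (x + t * I)‖ ≤ ‖Fc Z C l A0 (x + t * I)‖ + Real.exp (η2 * L) := by
      rw [← norm_mul]
      calc ‖C * Gl Z l (x + t * I)‖ = ‖Fc Z C l A0 (x + t * I) + A0 (x + t * I)‖ := by
            congr 1; unfold Fc; ring
        _ ≤ ‖Fc Z C l A0 (x + t * I)‖ + ‖A0 (x + t * I)‖ := norm_add_le _ _
        _ ≤ _ := by gcongr
    have e2 := hpl x hx1 hx2
    have e3 : Real.exp (η2 * L) ≤ Real.exp ((1 / 2 - y + 2 * η2) * L) := by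
      apply Real.exp_le_exp.2
      have : η2 ≤ 1 / 2 - y + 2 * η2 := by linarith
      gcongr
    have e5 : ‖Gl Z l (x + t * I)‖ ≤ 2 / ‖C‖ * Real.exp ((1 / 2 - y + 2 * η2) * L) := by
      rw [div_mul_eq_mul_div, le_div_iff₀ hC0, mul_comm]
      linarith
    calc _ ≤ _ := e5
      _ ≤ Real.exp (η2 * L) * Real.exp ((1 / 2 - y + 2 * η2) * L) := by
          gcongr
          exact h6 L (by linarith)
      _ = Real.exp ((1 / 2 - y + 3 * η2) * L) := by rw [← Real.exp_add]; congr 1; ring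
  have hZb := h7 Z t y (Real.exp ((1 / 2 - y + 3 * η2) * L)) (by linarith) (by linarith)
    (Real.exp_pos _).le
    (fun x hx1 hx2 => hZ.an _ (by rw [hre]; linarith) (by rw [hre]; linarith) (by rw [him]; linarith))
    (fun l' hl' => (h5 Z L Y' (by linarith) (hZ.mono hL0 le_rfl hη0b le_rfl le_rfl) l' hl' _
      (by simp) (by simp; exact htY)).trans (Real.exp_le_exp.2 (by
        have : η2 ≤ 1 / 2 - y + 3 * η2 := by linarith
        gcongr)))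
    hGl (1 - θ) (by rw [hyd]; linarith) (by linarith)
  have hfe := hFe.lo ((1 - θ : ℝ) + t * I) (by rw [hre]; linarith) (by rw [hre]; linarith)
    (by rw [him]; exact htY)
  have hconj : (1 : ℂ) - (starRingEnd ℂ) (((1 - θ : ℝ) : ℂ) + t * I) = θ + t * I := by
    apply Complex.ext
    · simp
    · simp
  rw [hconj, hre] at hfe
  have e1 : Real.exp ((1 / 2 - (1 - θ) - η0) * L) * ‖Z (θ + t * I)‖ ≤
      Real.exp (η2 * L) * Real.exp ((1 / 2 - y + 3 * η2) * L) := by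
    refine hfe.trans (hZb.trans ?_)
    gcongr
    exact h8 L (by linarith)
  calc ‖Z (θ + t * I)‖ = Real.exp (-((1 / 2 - (1 - θ) - η0) * L)) *
        (Real.exp ((1 / 2 - (1 - θ) - η0) * L) * ‖Z (θ + t * I)‖) := by
        rw [← mul_assoc, ← Real.exp_add, neg_add_cancel, Real.exp_zero, one_mul]
    _ ≤ Real.exp (-((1 / 2 - (1 - θ) - η0) * L)) *
        (Real.exp (η2 * L) * Real.exp ((1 / 2 - y + 3 * η2) * L)) := by gcongr
    _ = Real.exp ((κ + 4 * η2 + η0) * L) := by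
        rw [← Real.exp_add, ← Real.exp_add]; congr 1; rw [hyd]; ring
    _ ≤ Real.exp (ε * L) := by
        apply Real.exp_le_exp.2
        have : κ + 4 * η2 + η0 ≤ ε := by linarith
        gcongr

end Pool.Agent.Y853.LC
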