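import Pool.Agent.Y853.LC.LH

set_option autoImplicit false

/-!
# Small values give few zeros, local form
-/

namespace Pool.Agent.Y853.LC

open Complex Filter Topology Set Metric
open Pool.Agent.Y853.SP (right_bound jcount)

theorem order_mul_exp {F : ℂ → ℂ} {s : ℂ} (hF : AnalyticAt ℂ F s) (L : ℝ) :
    analyticOrderNatAt (fun w => F w * cexp (L * (w - 1 / 2))) s = analyticOrderNatAt F s := by
  have hea : AnalyticAt ℂ (fun u : ℂ => cexp (L * (u - 1 / 2))) s := by fun_prop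
  have e1 : analyticOrderAt (fun w => F w * cexp (L * (w - 1 / 2))) s = analyticOrderAt F s := by
    have e2 : (fun w => F w * cexp (L * (w - 1 / 2))) = F * fun u : ℂ => cexp (L * (u - 1 / 2)) := rfl
    rw [e2, analyticOrderAt_mul hF hea, hea.analyticOrderAt_eq_zero.2 (Complex.exp_ne_zero _), add_zero]
  unfold analyticOrderNatAt
  rw [e1]

/-- small values of `Z` on `Re s = θ` give the upper bound for `Z` on the left of `1 - θ` -/
theorem zl {A η' : ℝ} (hA : 0 ≤ A) (hη' : 0 < η') :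
    ∃ Y η : ℝ, 0 < Y ∧ 0 < η ∧ ∀ (Z : ℂ → ℂ) (L Y' θ t : ℝ), 0 ≤ L →
      |t| + Y ≤ Y' → Dat Z A η L Y' (1 / 4) → Fe Z η L Y' → 1 / 2 ≤ θ → θ ≤ 1 →
      (∀ v : ℝ, |v - t| ≤ Y → ‖Z (θ + v * I)‖ ≤ Real.exp (η * L)) →
      ∀ s : ℂ, -12 ≤ s.re → s.re ≤ 1 - θ → s.im = t →
        ‖Z s‖ ≤ Real.exp ((1 / 2 - s.re + η') * L) := by
  obtain ⟨η2, hη2, hη2a⟩ : ∃ η2 : ℝ, 0 < η2 ∧ 3 * η2 ≤ η' := ⟨η' / 3, by positivity, by linarith⟩
  obtain ⟨Y, hY, h2⟩ := plr (A := A) hA hη2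
  refine ⟨Y, η2, by linarith, hη2, ?_⟩
  intro Z L Y' θ t hL hY' hZ hFe hθ hθ1 hsm s hs1 hs2 hs3
  have htY : |t| ≤ Y' := by linarith
  rcases le_total s.re (-1) with hc | hc
  · refine (hZ.lf s (by linarith) (by linarith) (by rw [hs3]; linarith)).up.trans
      (Real.exp_le_exp.2 ?_)
    have : 1 / 2 - s.re + η2 ≤ 1 / 2 - s.re + η' := by linarith
    gcongr
  · have hin : ∀ w : ℂ, |w.im - t| ≤ Y → |w.im| ≤ Y' := by
      intro w hw
      have : |w.im| ≤ |w.im - t| + |t| := by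
        calc |w.im| = |(w.im - t) + t| := by congr 1; ring
          _ ≤ _ := abs_add_le _ _
      linarith
    have hpl := h2 Z L θ 0 t hL (by linarith) hθ1 le_rfl
      (fun w hw1 hw2 hw3 => ⟨hZ.an w (by linarith) (by linarith) (by linarith [hin w hw3]),
        hZ.cr w (by linarith) (by linarith) (by linarith [hin w hw3])⟩)
      (fun w hw1 hw2 => by
        rw [zero_add]
        rcases hw1 with hw1 | hw1
        · have e : w = θ + w.im * I := by
            apply Complex.ext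
            · simp [hw1]
            · simp
          rw [e]
          exact hsm w.im hw2
        · exact hZ.rt w (by linarith) (by linarith) (by linarith [hin w hw2]))
      (1 - s.re) (by linarith) (by linarith)
    have hfe := hFe.up s hc (by linarith) (by rw [hs3]; exact htY)
    have hconj : (1 : ℂ) - (starRingEnd ℂ) s = ((1 - s.re : ℝ) : ℂ) + t * I := by
      apply Complex.ext
      · simp
      · simp [hs3]
    rw [hconj] at hfe
    calc _ ≤ _ := hfe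
      _ ≤ Real.exp ((1 / 2 - s.re + η2) * L) * Real.exp ((0 + 2 * η2) * L) := by gcongr
      _ = Real.exp ((1 / 2 - s.re + 3 * η2) * L) := by rw [← Real.exp_add]; congr 1; ring
      _ ≤ _ := by
          apply Real.exp_le_exp.2
          gcongr

/-- small values of `Z` on `Re s = θ` give the upper bound for `Fc` on the left of `1 - θ` -/
theorem fl {C : ℂ} (l : List ℂ) {A κ η' : ℝ} (hA : 0 ≤ A) (hκ : 0 < κ) (hκ1 : κ ≤ 1)
    (hη' : 0 < η') :
    ∃ Y η L0 : ℝ, 0 < Y ∧ 0 < η ∧ 1 ≤ L0 ∧ ∀ (Z A0 : ℂ → ℂ) (L Y' θ : ℝ) (s : ℂ), L0 ≤ L →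
      |s.im| + Y ≤ Y' → Dat Z A η L Y' (1 / 4) → Sm A0 η L Y' → Fe Z η L Y' → 1 / 2 ≤ θ → θ ≤ 1 →
      (∀ v : ℝ, |v - s.im| ≤ Y → ‖Z (θ + v * I)‖ ≤ Real.exp (η * L)) →
      -11 ≤ s.re → s.re ≤ 1 - θ - κ →
        ‖Fc Z C l A0 s‖ ≤ Real.exp ((1 / 2 - s.re + κ + η') * L) := by
  obtain ⟨η2, hη2, hη2a⟩ : ∃ η2 : ℝ, 0 < η2 ∧ 2 * η2 ≤ η' := ⟨η' / 2, by positivity, by linarith⟩
  obtain ⟨Y, η, hY, hη, h1⟩ := zl (A := A) hA hη2
  obtain ⟨K, hK, h2⟩ := cb l κ hκ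
  obtain ⟨L1, hL1, h3⟩ := const_le_exp (‖C‖ * K + 1) hη2
  refine ⟨Y + 1, min η η2, L1, by linarith, by positivity, hL1, ?_⟩
  intro Z A0 L Y' θ s hL hY' hZ hA0 hFe hθ hθ1 hsm hs1 hs2
  have hL0 : 0 ≤ L := by linarith
  have hm1 : min η η2 ≤ η := min_le_left _ _
  have hm2 : min η η2 ≤ η2 := min_le_right _ _
  obtain ⟨M, hM⟩ : ∃ M : ℝ, M = Real.exp ((1 / 2 - s.re + κ + η2) * L) := ⟨_, rfl⟩
  have hMp : 0 < M := by rw [hM]; positivity
  have hG : ‖Gl Z l s‖ ≤ K * M := by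
    refine h2 Z s M hMp.le fun w hw => ?_
    have h4 := abs_le.1 ((Complex.abs_re_le_norm (w - s)).trans hw)
    have h5 := abs_le.1 ((Complex.abs_im_le_norm (w - s)).trans hw)
    have h5' := (Complex.abs_im_le_norm (w - s)).trans hw
    rw [Complex.sub_re] at h4
    rw [Complex.sub_im] at h5 h5'
    have h6 : |w.im| ≤ |s.im| + 1 := by
      calc |w.im| = |s.im + (w.im - s.im)| := by congr 1; ring
        _ ≤ _ := abs_add_le _ _
        _ ≤ _ := by linarith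
    refine ⟨hZ.an w (by linarith) (by linarith) (by linarith), ?_⟩
    have h7 := h1 Z L Y' θ w.im hL0 (by linarith) (hZ.mono hL0 le_rfl hm1 le_rfl le_rfl)
      (hFe.mono hL0 hm1 le_rfl) hθ hθ1 (by
        intro v hv
        refine (hsm v ?_).trans (Real.exp_le_exp.2 (by gcongr))
        calc |v - s.im| = |(v - w.im) + (w.im - s.im)| := by congr 1; ring
          _ ≤ _ := abs_add_le _ _
          _ ≤ _ := by linarith) w (by linarith) (by linarith) rfl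
    refine h7.trans ?_
    rw [hM]
    apply Real.exp_le_exp.2
    have : 1 / 2 - w.re + η2 ≤ 1 / 2 - s.re + κ + η2 := by linarith
    gcongr
  have hAb : ‖A0 s‖ ≤ M := by
    refine (hA0.le s (by linarith) (by linarith) (by linarith)).trans ?_
    rw [hM]
    apply Real.exp_le_exp.2
    have : min η η2 ≤ 1 / 2 - s.re + κ + η2 := by linarith
    gcongr
  calc ‖C * Gl Z l s - A0 s‖ ≤ ‖C * Gl Z l s‖ + ‖A0 s‖ := norm_sub_le _ _
    _ ≤ ‖C‖ * (K * M) + M := by rw [norm_mul]; gcongr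
    _ = (‖C‖ * K + 1) * M := by ring
    _ ≤ Real.exp (η2 * L) * M := by
        gcongr
        exact h3 L hL
    _ = Real.exp ((1 / 2 - s.re + κ + 2 * η2) * L) := by
        rw [hM, ← Real.exp_add]; congr 1; ring
    _ ≤ _ := by
        apply Real.exp_le_exp.2
        gcongr

/-- few zeros in a short window -/
theorem short {C : ℂ} (hC : C ≠ 0) (l : List ℂ) {A ε η' : ℝ} (hA : 0 ≤ A) (hε : 0 < ε)
    (hε1 : ε ≤ 1 / 4) (hη' : 0 < η') :
    ∃ Y η L0 : ℝ, 0 < Y ∧ 0 < η ∧ 1 ≤ L0 ∧ ∀ (Z A0 : ℂ → ℂ) (L Y' θ t : ℝ), L0 ≤ L →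
      |t| + Y ≤ Y' → Dat Z A η L Y' (1 / 4) → Sm A0 η L Y' → Fe Z η L Y' → 1 / 2 ≤ θ → θ ≤ 1 →
      (∀ v : ℝ, |v - t| ≤ Y → ‖Z (θ + v * I)‖ ≤ Real.exp (η * L)) →
      ∀ S : Finset ℂ, (∀ w ∈ S, Fc Z C l A0 w = 0 ∧ -1 < w.re ∧ w.re < 1 - θ - ε ∧
        |w.im - t| ≤ ε) → ∑ w ∈ S, (analyticOrderNatAt (Fc Z C l A0) w : ℝ) ≤ η' * L := by
  have hlen : (0 : ℝ) ≤ (l.length : ℝ) := Nat.cast_nonneg _
  obtain ⟨τ, hτ, hτa, hτb⟩ : ∃ τ : ℝ, 0 < τ ∧ 4 * τ ≤ ε ∧ 60 * τ ≤ η' * ε := by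
    refine ⟨min (ε / 4) (η' * ε / 60), by positivity, ?_, ?_⟩
    · have := min_le_left (ε / 4) (η' * ε / 60); linarith
    · have := min_le_right (ε / 4) (η' * ε / 60); linarith
  obtain ⟨Y, η1, L1, hY, hη1, hL1, h1⟩ := fl (C := C) l (A := A) (κ := τ) (η' := τ) hA hτ
    (by linarith) hτ
  obtain ⟨η2, L2, hη2, hL2, h2⟩ := fc_big hC l hA (η' := τ) hτ
  refine ⟨Y + 6, min η1 η2, max L1 L2, by linarith, by positivity, hL1.trans (le_max_left _ _), ?_⟩
  intro Z A0 L Y' θ t hL hY' hZ hA0 hFe hθ hθ1 hsm S hS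
  have k1 : L1 ≤ L := (le_max_left _ _).trans hL
  have k2 : L2 ≤ L := (le_max_right _ _).trans hL
  have hLa : 1 ≤ L := by linarith
  have hL0 : 0 ≤ L := by linarith
  have hm1 : min η1 η2 ≤ η1 := min_le_left _ _
  have hm2 : min η1 η2 ≤ η2 := min_le_right _ _
  have htY : |t| ≤ Y' := by linarith
  have hB := h2 Z A0 L Y' k2 (hZ.mono hL0 le_rfl hm2 le_rfl le_rfl) (hA0.mono hL0 hm2 le_rfl)
  obtain ⟨δ, hδ⟩ : ∃ δ : ℝ, δ = 1 - θ := ⟨_, rfl⟩
  have hδ0 : 0 ≤ δ := by rw [hδ]; linarith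
  have hδ1 : δ ≤ 1 / 2 := by rw [hδ]; linarith
  obtain ⟨c, hc⟩ : ∃ c : ℂ, c = ((-4 : ℝ) : ℂ) + t * I := ⟨_, rfl⟩
  have hcre : c.re = -4 := by rw [hc]; simp
  have hcim : c.im = t := by rw [hc]; simp
  obtain ⟨R, hR⟩ : ∃ R : ℝ, R = 4 + δ - ε / 4 := ⟨_, rfl⟩
  obtain ⟨r, hr⟩ : ∃ r : ℝ, r = 4 + δ - ε / 2 := ⟨_, rfl⟩
  have hr0 : 0 < r := by rw [hr]; linarith
  have hrR : r < R := by rw [hr, hR]; linarith
  obtain ⟨f, hf⟩ : ∃ f : ℂ → ℂ, f = fun w => Fc Z C l A0 w * cexp (L * (w - 1 / 2)) := ⟨_, rfl⟩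
  have hfn : ∀ w : ℂ, ‖f w‖ = ‖Fc Z C l A0 w‖ * Real.exp ((w.re - 1 / 2) * L) := by
    intro w
    rw [hf]
    simp only [norm_mul, Complex.norm_exp]
    congr 2
    rw [Complex.re_ofReal_mul, mul_comm]
    simp
  have hball : ∀ z : ℂ, ‖z - c‖ ≤ R → -11 ≤ z.re ∧ z.re ≤ δ - ε / 4 ∧ |z.im - t| ≤ 5 := by
    intro z hz
    have k1 := abs_le.1 ((Complex.abs_re_le_norm (z - c)).trans hz)
    have k2 := (Complex.abs_im_le_norm (z - c)).trans hz
    rw [Complex.sub_re, hcre] at k1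
    rw [Complex.sub_im, hcim] at k2
    rw [hR] at k1 k2
    exact ⟨by linarith, by linarith, by linarith⟩
  have hin : ∀ v : ℝ, |v - t| ≤ 5 → |v| + Y + 1 ≤ Y' := by
    intro v hv
    have : |v| ≤ |v - t| + |t| := by
      calc |v| = |(v - t) + t| := by congr 1; ring
        _ ≤ _ := abs_add_le _ _
    linarith
  have hFan : ∀ z : ℂ, ‖z - c‖ ≤ R → AnalyticAt ℂ (Fc Z C l A0) z := by
    intro z hz
    obtain ⟨g1, g2, g3⟩ := hball z hz
    have := hin z.im g3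
    exact hB.an z (by linarith) (by linarith) (by linarith)
  have hea : ∀ z : ℂ, AnalyticAt ℂ (fun u : ℂ => cexp (L * (u - 1 / 2))) z := by
    intro z; fun_prop
  have han : AnalyticOnNhd ℂ f (closedBall c R) := by
    intro z hz
    rw [mem_closedBall_iff_norm] at hz
    rw [hf]
    exact (hFan z hz).mul (hea z)
  have hfc : Real.exp (-(τ * L)) ≤ ‖f c‖ := by
    have g1 := (hB.sz c (by rw [hcre]; norm_num) (by rw [hcre]; norm_num)
      (by rw [hcim]; linarith)).1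
    rw [hfn]
    calc Real.exp (-(τ * L)) = Real.exp ((1 / 2 - c.re - τ) * L) * Real.exp ((c.re - 1 / 2) * L) := by
          rw [← Real.exp_add]; congr 1; ring
      _ ≤ _ := by gcongr
  have hfcp : 0 < ‖f c‖ := (Real.exp_pos _).trans_le hfc
  have hM : ∀ z : ℂ, ‖z - c‖ ≤ R → ‖f z‖ ≤ Real.exp (2 * τ * L) := by
    intro z hz
    obtain ⟨g1, g2, g3⟩ := hball z hz
    have g4 := hin z.im g3
    have g5 := h1 Z A0 L Y' θ z k1 (by linarith) (hZ.mono hL0 le_rfl hm1 le_rfl le_rfl)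
      (hA0.mono hL0 hm1 le_rfl) (hFe.mono hL0 hm1 le_rfl) hθ hθ1 (by
        intro v hv
        refine (hsm v ?_).trans (Real.exp_le_exp.2 (by gcongr))
        calc |v - t| = |(v - z.im) + (z.im - t)| := by congr 1; ring
          _ ≤ _ := abs_add_le _ _
          _ ≤ _ := by linarith) g1 (by rw [← hδ]; linarith)
    rw [hfn]
    calc ‖Fc Z C l A0 z‖ * Real.exp ((z.re - 1 / 2) * L)
        ≤ Real.exp ((1 / 2 - z.re + τ + τ) * L) * Real.exp ((z.re - 1 / 2) * L) := by gcongr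
      _ = _ := by rw [← Real.exp_add]; congr 1; ring
  have hM1 : 1 ≤ Real.exp (2 * τ * L) := Real.one_le_exp (by positivity)
  have key := jcount (M := Real.exp (2 * τ * L)) han hr0 hrR hM1 (by
      rw [← norm_pos_iff]; exact hfcp) hM S (by
      intro s hs
      obtain ⟨-, g1, g2, g3⟩ := hS s hs
      rw [← hδ] at g2
      have g4 : ‖s - c‖ ^ 2 = (s.re + 4) ^ 2 + (s.im - t) ^ 2 := by
        rw [← Complex.normSq_eq_norm_sq, Complex.normSq_apply, Complex.sub_re, Complex.sub_im, hcre,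
          hcim]
        ring
      have g5 : (s.im - t) ^ 2 ≤ ε ^ 2 := by
        rw [← sq_abs (s.im - t)]
        have := abs_nonneg (s.im - t)
        gcongr
      have g6 : (s.re + 4) ^ 2 ≤ (4 + δ - ε) ^ 2 := by
        have : 0 ≤ s.re + 4 := by linarith
        have h7 : s.re + 4 ≤ 4 + δ - ε := by linarith
        gcongr
      have g7 : ‖s - c‖ ^ 2 ≤ r ^ 2 := by
        rw [g4, hr]
        nlinarith
      exact le_of_sq_le_sq g7 hr0.le)
  have e1 : ∑ s ∈ S, (analyticOrderNatAt f s : ℝ) =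
      ∑ s ∈ S, (analyticOrderNatAt (Fc Z C l A0) s : ℝ) := by
    refine Finset.sum_congr rfl fun s hs => ?_
    obtain ⟨-, g1, g2, g3⟩ := hS s hs
    rw [hf, order_mul_exp]
    have : |s.im| ≤ Y' := by
      have h9 : |s.im| ≤ |s.im - t| + |t| := by
        calc |s.im| = |(s.im - t) + t| := by congr 1; ring
          _ ≤ _ := abs_add_le _ _
      linarith
    exact hB.an s (by linarith) (by linarith) this
  rw [← e1]
  refine key.trans ?_
  have hlogpos : ε / 20 ≤ Real.log (R / r) := by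
    have h9 := Real.one_sub_inv_le_log_of_pos (div_pos (hr0.trans hrR) hr0)
    rw [inv_div] at h9
    refine le_trans ?_ h9
    have hR0 : 0 < R := hr0.trans hrR
    have h10 : 1 - r / R = (ε / 4) / R := by
      field_simp
      rw [hR, hr]; ring
    rw [h10, div_le_div_iff₀ (by norm_num) hR0]
    have : R ≤ 5 := by rw [hR]; linarith
    nlinarith
  have hlp : 0 < Real.log (R / r) := lt_of_lt_of_le (by positivity) hlogpos
  rw [div_le_iff₀ hlp]
  have h11 : Real.log (Real.exp (2 * τ * L) / ‖f c‖) ≤ 3 * τ * L := by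
    rw [Real.log_le_iff_le_exp (by positivity), div_le_iff₀ hfcp]
    calc Real.exp (2 * τ * L) = Real.exp (3 * τ * L) * Real.exp (-(τ * L)) := by
          rw [← Real.exp_add]; congr 1; ring
      _ ≤ _ := by gcongr
  calc _ ≤ 3 * τ * L := h11
    _ ≤ η' * L * (ε / 20) := by nlinarith
    _ ≤ _ := by gcongr

/-- few zeros in a window of length two -/
theorem lh2 {C : ℂ} (hC : C ≠ 0) (l : List ℂ) {A ε : ℝ} (hA : 0 ≤ A) (hε : 0 < ε) (hε1 : ε ≤ 1 / 4) :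
    ∃ Y η L0 : ℝ, 0 < Y ∧ 0 < η ∧ 1 ≤ L0 ∧ ∀ (Z A0 : ℂ → ℂ) (L Y' θ t : ℝ), L0 ≤ L →
      |t| + Y ≤ Y' → Dat Z A η L Y' (1 / 4) → Sm A0 η L Y' → Fe Z η L Y' → 1 / 2 ≤ θ → θ ≤ 1 →
      (∀ v : ℝ, |v - t| ≤ Y → ‖Z (θ + v * I)‖ ≤ Real.exp (η * L)) →
      ∀ S : Finset ℂ, (∀ w ∈ S, Fc Z C l A0 w = 0 ∧ -1 < w.re ∧ w.re < 1 - θ - ε ∧
        |w.im - t| ≤ 1) → ∑ w ∈ S, (analyticOrderNatAt (Fc Z C l A0) w : ℝ) ≤ ε * L := by
  classical
  obtain ⟨N, hN⟩ := exists_nat_gt (2 / ε)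
  have hN0 : (0 : ℝ) < N := lt_trans (by positivity) hN
  obtain ⟨Y, η, L0, hY, hη, hL0, h⟩ := short hC l hA hε hε1 (η' := ε / (N + 1)) (by positivity)
  refine ⟨Y + 2, η, L0, by linarith, hη, hL0, ?_⟩
  intro Z A0 L Y' θ t hL hY' hZ hA0 hFe hθ hθ1 hsm S hS
  have hLp : 0 ≤ L := by linarith
  -- the centres
  obtain ⟨v, hv⟩ : ∃ v : ℕ → ℝ, v = fun j : ℕ => t - 1 + (j : ℝ) * ε := ⟨_, rfl⟩
  obtain ⟨T, hT⟩ : ∃ T : Finset ℕ, T = (Finset.range (N + 1)).filter fun j => |v j - t| ≤ 2 := ⟨_, rfl⟩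
  have hcov : ∀ w ∈ S, ∃ j ∈ T, |w.im - v j| ≤ ε := by
    intro w hw
    obtain ⟨-, -, -, g3⟩ := hS w hw
    rw [abs_le] at g3
    obtain ⟨j, hj⟩ : ∃ j : ℕ, j = ⌊(w.im - (t - 1)) / ε⌋₊ := ⟨_, rfl⟩
    have h0 : 0 ≤ (w.im - (t - 1)) / ε := div_nonneg (by linarith) hε.le
    have h1 : (j : ℝ) ≤ (w.im - (t - 1)) / ε := by rw [hj]; exact Nat.floor_le h0
    have h2 : (w.im - (t - 1)) / ε < j + 1 := by rw [hj]; exact Nat.lt_floor_add_one _
    rw [le_div_iff₀ hε] at h1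
    rw [div_lt_iff₀ hε] at h2
    have h3 : (j : ℝ) < N + 1 := by
      have h4 : (j : ℝ) * ε ≤ 2 := by linarith
      have h5 : (j : ℝ) ≤ 2 / ε := by rwa [le_div_iff₀ hε]
      linarith
    refine ⟨j, ?_, ?_⟩
    · rw [hT, Finset.mem_filter, Finset.mem_range, hv]
      refine ⟨by exact_mod_cast h3, ?_⟩
      rw [abs_le]
      constructor <;> nlinarith [mul_nonneg (Nat.cast_nonneg (α := ℝ) j) hε.le]
    · rw [hv, abs_le]
      constructor <;> simp only <;> nlinarith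
  have hone : ∀ j ∈ T, ∑ w ∈ S.filter (fun w => |w.im - v j| ≤ ε),
      (analyticOrderNatAt (Fc Z C l A0) w : ℝ) ≤ ε / (N + 1) * L := by
    intro j hj
    rw [hT, Finset.mem_filter] at hj
    have g1 : |v j| ≤ |t| + 2 := by
      calc |v j| = |t + (v j - t)| := by congr 1; ring
        _ ≤ _ := abs_add_le _ _
        _ ≤ _ := by linarith [hj.2]
    refine h Z A0 L Y' θ (v j) hL (by linarith) hZ hA0 hFe hθ hθ1 (fun u hu => hsm u ?_) _ ?_
    · calc |u - t| = |(u - v j) + (v j - t)| := by congr 1; ring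
        _ ≤ _ := abs_add_le _ _
        _ ≤ _ := by linarith [hj.2]
    · intro w hw
      rw [Finset.mem_filter] at hw
      obtain ⟨g4, g5, g6, -⟩ := hS w hw.1
      exact ⟨g4, g5, g6, hw.2⟩
  calc ∑ w ∈ S, (analyticOrderNatAt (Fc Z C l A0) w : ℝ)
      ≤ ∑ w ∈ S, ∑ j ∈ T, if |w.im - v j| ≤ ε then (analyticOrderNatAt (Fc Z C l A0) w : ℝ) else 0 := by
        refine Finset.sum_le_sum fun w hw => ?_
        obtain ⟨j, hj, hj2⟩ := hcov w hw
        calc (analyticOrderNatAt (Fc Z C l A0) w : ℝ)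
            = if |w.im - v j| ≤ ε then (analyticOrderNatAt (Fc Z C l A0) w : ℝ) else 0 := by
              rw [if_pos hj2]
          _ ≤ _ := Finset.single_le_sum (f := fun j => if |w.im - v j| ≤ ε then
              (analyticOrderNatAt (Fc Z C l A0) w : ℝ) else 0) (fun i _ => by
                split_ifs <;> positivity) hj
    _ = ∑ j ∈ T, ∑ w ∈ S.filter (fun w => |w.im - v j| ≤ ε),
          (analyticOrderNatAt (Fc Z C l A0) w : ℝ) := by
        rw [Finset.sum_comm]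
        refine Finset.sum_congr rfl fun j _ => ?_
        rw [Finset.sum_filter]
    _ ≤ ∑ j ∈ T, ε / (N + 1) * L := Finset.sum_le_sum hone
    _ = T.card * (ε / (N + 1) * L) := by rw [Finset.sum_const, nsmul_eq_mul]
    _ ≤ (N + 1) * (ε / (N + 1) * L) := by
        have : (T.card : ℝ) ≤ N + 1 := by
          have h1 : T.card ≤ (Finset.range (N + 1)).card := by
            rw [hT]; exact Finset.card_filter_le _ _
          rw [Finset.card_range] at h1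
          exact_mod_cast h1
        gcongr
    _ = ε * L := by field_simp

end Pool.Agent.Y853.LC
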