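import Pool.Agent.Y853.LC.Dn

set_option autoImplicit false

/-!
# Local comparison of zeros
-/

namespace Pool.Agent.Y853.LC

open Complex Filter Topology Set

/-- `C ∏ (d/ds - c) Z - A`. -/
noncomputable def Fc (Z : ℂ → ℂ) (C : ℂ) (l : List ℂ) (A : ℂ → ℂ) (s : ℂ) : ℂ := C * Gl Z l s - A s

/-- small functions in the box -/
structure Sm (A : ℂ → ℂ) (η L Y : ℝ) : Prop where
  an : ∀ s : ℂ, -12 ≤ s.re → s.re ≤ 2 → |s.im| ≤ Y → AnalyticAt ℂ A s
  le : ∀ s : ℂ, -12 ≤ s.re → s.re ≤ 2 → |s.im| ≤ Y → ‖A s‖ ≤ Real.exp (η * L)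

theorem Sm.mono {A : ℂ → ℂ} {η η' L Y Y' : ℝ} (h : Sm A η L Y) (hL : 0 ≤ L) (hη : η ≤ η')
    (hY : Y' ≤ Y) : Sm A η' L Y' :=
  ⟨fun s h1 h2 h3 => h.an s h1 h2 (h3.trans hY),
    fun s h1 h2 h3 => (h.le s h1 h2 (h3.trans hY)).trans (Real.exp_le_exp.2 (by gcongr))⟩

/-- sizes in the box -/
structure Big (F : ℂ → ℂ) (A η L Y : ℝ) : Prop where
  an : ∀ s : ℂ, -12 ≤ s.re → s.re ≤ 2 → |s.im| ≤ Y → AnalyticAt ℂ F s
  cr : ∀ s : ℂ, -12 ≤ s.re → s.re ≤ 2 → |s.im| ≤ Y → ‖F s‖ ≤ Real.exp (A * L)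
  rt : ∀ s : ℂ, s.re = 2 → |s.im| ≤ Y → ‖F s‖ ≤ Real.exp (η * L)
  sz : ∀ s : ℂ, -12 ≤ s.re → s.re ≤ -1 → |s.im| ≤ Y →
    Real.exp ((1 / 2 - s.re - η) * L) ≤ ‖F s‖ ∧ ‖F s‖ ≤ Real.exp ((1 / 2 - s.re + η) * L)

theorem Big.side {F : ℂ → ℂ} {A η L Y : ℝ} (h : Big F A η L Y) {δ v : ℝ} (hδ : δ ≤ 1 / 2)
    (hv : |v| + 10 ≤ Y) : Side F A η L δ v := by
  have k : ∀ w : ℂ, |w.im - v| ≤ 10 → |w.im| ≤ Y := by
    intro w hw
    have : |w.im| ≤ |w.im - v| + |v| := by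
      calc |w.im| = |(w.im - v) + v| := by congr 1; ring
        _ ≤ _ := abs_add_le _ _
    linarith
  exact ⟨fun w h1 h2 h3 => h.an w h1 (by linarith) (k w h3),
    fun w h1 h2 h3 => h.cr w h1 (by linarith) (k w h3), fun w h1 h2 h3 => h.sz w h1 h2 (k w h3)⟩

theorem dat_big {Z : ℂ → ℂ} {A η L Y ρ : ℝ} (hρ : 0 < ρ) (h : Dat Z A η L Y ρ) : Big Z A η L Y :=
  ⟨fun s h1 h2 h3 => h.an s (by linarith) (by linarith) (by linarith),
    fun s h1 h2 h3 => h.cr s (by linarith) (by linarith) (by linarith),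
    fun s h1 h2 => h.rt s (by linarith) (by linarith) (by linarith),
    fun s h1 h2 h3 => ⟨(h.lf s (by linarith) (by linarith) (by linarith)).lo,
      (h.lf s (by linarith) (by linarith) (by linarith)).up⟩⟩

theorem fc_big {C : ℂ} (hC : C ≠ 0) (l : List ℂ) {A η' : ℝ} (hA : 0 ≤ A) (hη' : 0 < η') :
    ∃ η L0 : ℝ, 0 < η ∧ 1 ≤ L0 ∧ ∀ (Z A0 : ℂ → ℂ) (L Y : ℝ), L0 ≤ L → Dat Z A η L Y (1 / 4) →
      Sm A0 η L Y → Big (Fc Z C l A0) (A + l.length + 1) η' L Y := by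
  have hC0 : 0 < ‖C‖ := norm_pos_iff.2 hC
  obtain ⟨η1, h1a, h1b, h1c⟩ : ∃ η1 : ℝ, 0 < η1 ∧ 2 * η1 ≤ η' ∧ η1 ≤ 1 / 4 :=
    ⟨min (η' / 2) (1 / 4), by positivity, by have := min_le_left (η' / 2) (1 / 4); linarith,
      min_le_right _ _⟩
  obtain ⟨η2, L1, hη2, hL1, h1⟩ := dat_list l A (1 / 4) η1 (by norm_num) (by norm_num) h1a
  obtain ⟨L2, hL2, h2⟩ := const_le_exp (2 / ‖C‖) h1a
  obtain ⟨L3, hL3, h3⟩ := const_le_exp (‖C‖ + 1) h1a
  obtain ⟨L4, hL4, h4⟩ := const_le_exp (2 * ‖C‖) h1a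
  obtain ⟨η, hη, hηa, hηb⟩ : ∃ η : ℝ, 0 < η ∧ η ≤ η2 ∧ η ≤ η1 :=
    ⟨min η2 η1, by positivity, min_le_left _ _, min_le_right _ _⟩
  refine ⟨η, max (max L1 L2) (max L3 L4), hη, hL1.trans ((le_max_left _ _).trans (le_max_left _ _)), ?_⟩
  intro Z A0 L Y hL hZ hA0
  have k1 : L1 ≤ L := ((le_max_left _ _).trans (le_max_left _ _)).trans hL
  have k2 : L2 ≤ L := ((le_max_right _ _).trans (le_max_left _ _)).trans hL
  have k3 : L3 ≤ L := ((le_max_left _ _).trans (le_max_right _ _)).trans hL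
  have k4 : L4 ≤ L := ((le_max_right _ _).trans (le_max_right _ _)).trans hL
  have hLa : 1 ≤ L := hL1.trans k1
  have hL0 : 0 ≤ L := by linarith
  have hG := dat_big (by positivity) (h1 Z L Y k1 (hZ.mono hL0 le_rfl hηa le_rfl le_rfl))
  have hp : (0 : ℝ) ≤ (l.length : ℝ) := Nat.cast_nonneg _
  have e1 := h2 L k2
  have e2 := h3 L k3
  have e3 := h4 L k4
  have hAb : ∀ s : ℂ, -12 ≤ s.re → s.re ≤ 2 → |s.im| ≤ Y → ‖A0 s‖ ≤ Real.exp (η1 * L) :=
    fun s g1 g2 g3 => (hA0.le s g1 g2 g3).trans (Real.exp_le_exp.2 (by gcongr))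
  refine ⟨?_, ?_, ?_, ?_⟩
  · intro s g1 g2 g3
    exact (analyticAt_const.mul (hG.an s g1 g2 g3)).sub (hA0.an s g1 g2 g3)
  · intro s g1 g2 g3
    have f1 := hG.cr s g1 g2 g3
    have f2 := hAb s g1 g2 g3
    have f3 : Real.exp (η1 * L) ≤ Real.exp ((A + l.length) * L + η1 * L) := by
      apply Real.exp_le_exp.2
      have : 0 ≤ (A + l.length) * L := by positivity
      linarith
    calc ‖C * Gl Z l s - A0 s‖ ≤ ‖C * Gl Z l s‖ + ‖A0 s‖ := norm_sub_le _ _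
      _ ≤ ‖C‖ * Real.exp ((A + l.length) * L) + Real.exp (η1 * L) := by
          rw [norm_mul]; gcongr
      _ ≤ ‖C‖ * Real.exp ((A + l.length) * L) + Real.exp ((A + l.length) * L) * Real.exp (η1 * L) := by
          gcongr
          rw [← Real.exp_add]; exact f3
      _ ≤ Real.exp (η1 * L) * Real.exp ((A + l.length) * L) +
            Real.exp ((A + l.length) * L) * Real.exp (η1 * L) := by
          gcongr
          linarith
      _ = 2 * Real.exp (η1 * L) * Real.exp ((A + l.length) * L) := by ring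
      _ ≤ Real.exp (3 / 4 * L) * Real.exp (1 / 4 * L) * Real.exp ((A + l.length) * L) := by
          gcongr
          have f4 : (1 : ℝ) + 3 / 4 * L ≤ Real.exp (3 / 4 * L) := by
            have := Real.add_one_le_exp (3 / 4 * L); linarith
          have f5 : Real.exp (3 / 4) ≤ Real.exp (3 / 4 * L) := by
            apply Real.exp_le_exp.2; linarith
          have f6 : (2 : ℝ) ≤ Real.exp (3 / 4) := by
            have f7 := Real.quadratic_le_exp_of_nonneg (show (0 : ℝ) ≤ 3 / 4 by norm_num)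
            norm_num at f7 ⊢
            linarith
          linarith
      _ = Real.exp ((A + l.length + 1) * L) := by
          rw [← Real.exp_add, ← Real.exp_add]; congr 1; ring
  · intro s g1 g2
    have f1 := hG.rt s g1 g2
    have f2 := hAb s (by rw [g1]; norm_num) (by rw [g1]) g2
    calc ‖C * Gl Z l s - A0 s‖ ≤ ‖C * Gl Z l s‖ + ‖A0 s‖ := norm_sub_le _ _
      _ ≤ ‖C‖ * Real.exp (η1 * L) + Real.exp (η1 * L) := by
          rw [norm_mul]; gcongr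
      _ = (‖C‖ + 1) * Real.exp (η1 * L) := by ring
      _ ≤ Real.exp (η1 * L) * Real.exp (η1 * L) := by gcongr
      _ = Real.exp ((2 * η1) * L) := by rw [← Real.exp_add]; congr 1; ring
      _ ≤ _ := by apply Real.exp_le_exp.2; gcongr
  · intro s g1 g2 g3
    obtain ⟨f1, f2⟩ := hG.sz s g1 g2 g3
    have f3 := hAb s g1 (by linarith) g3
    have hlow : Real.exp ((1 + η1) * L) ≤ ‖Gl Z l s‖ := by
      refine le_trans (Real.exp_le_exp.2 ?_) f1
      have : 1 + η1 ≤ 1 / 2 - s.re - η1 := by linarith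
      gcongr
    have hAC : ‖A0 s‖ ≤ ‖C‖ * ‖Gl Z l s‖ / 2 := by
      rw [div_le_iff₀ hC0] at e1
      have f5 : Real.exp (η1 * L) ≤ Real.exp (1 * L) := by
        apply Real.exp_le_exp.2; gcongr; linarith
      have f6 : Real.exp ((1 + η1) * L) = Real.exp (1 * L) * Real.exp (η1 * L) := by
        rw [← Real.exp_add]; congr 1; ring
      have f7 : 2 * Real.exp (1 * L) ≤ ‖Gl Z l s‖ * ‖C‖ := by
        calc 2 * Real.exp (1 * L) ≤ (Real.exp (η1 * L) * ‖C‖) * Real.exp (1 * L) := by gcongr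
          _ = Real.exp ((1 + η1) * L) * ‖C‖ := by rw [f6]; ring
          _ ≤ _ := by gcongr
      linarith
    have hup : ‖Fc Z C l A0 s‖ ≤ 2 * (‖C‖ * ‖Gl Z l s‖) := by
      calc ‖C * Gl Z l s - A0 s‖ ≤ ‖C * Gl Z l s‖ + ‖A0 s‖ := norm_sub_le _ _
        _ ≤ _ := by rw [norm_mul]; have : 0 ≤ ‖C‖ * ‖Gl Z l s‖ := by positivity
                    linarith
    have hdn : ‖C‖ * ‖Gl Z l s‖ / 2 ≤ ‖Fc Z C l A0 s‖ := by
      have h5 : ‖C * Gl Z l s‖ ≤ ‖C * Gl Z l s - A0 s‖ + ‖A0 s‖ := by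
        calc ‖C * Gl Z l s‖ = ‖(C * Gl Z l s - A0 s) + A0 s‖ := by congr 1; ring
          _ ≤ _ := norm_add_le _ _
      rw [norm_mul] at h5
      change _ ≤ ‖C * Gl Z l s - A0 s‖
      linarith
    constructor
    · refine le_trans ?_ hdn
      rw [div_le_iff₀ hC0] at e1
      have f5 : Real.exp ((1 / 2 - s.re - η') * L) * Real.exp (η1 * L) ≤ ‖Gl Z l s‖ := by
        refine le_trans ?_ f1
        rw [← Real.exp_add]
        apply Real.exp_le_exp.2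
        have : 1 / 2 - s.re - η' + η1 ≤ 1 / 2 - s.re - η1 := by linarith
        calc _ = (1 / 2 - s.re - η' + η1) * L := by ring
          _ ≤ _ := by gcongr
      have f6 : Real.exp ((1 / 2 - s.re - η') * L) * 2 ≤ ‖C‖ * ‖Gl Z l s‖ := by
        calc _ ≤ Real.exp ((1 / 2 - s.re - η') * L) * (Real.exp (η1 * L) * ‖C‖) := by gcongr
          _ = ‖C‖ * (Real.exp ((1 / 2 - s.re - η') * L) * Real.exp (η1 * L)) := by ring
          _ ≤ _ := by gcongr
      linarith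
    · calc _ ≤ _ := hup
        _ = (2 * ‖C‖) * ‖Gl Z l s‖ := by ring
        _ ≤ Real.exp (η1 * L) * Real.exp ((1 / 2 - s.re + η1) * L) := by gcongr
        _ = Real.exp ((1 / 2 - s.re + 2 * η1) * L) := by rw [← Real.exp_add]; congr 1; ring
        _ ≤ _ := by apply Real.exp_le_exp.2; gcongr

/-- the bounds on `Re s = 2` for all the intermediate operators -/
theorem suf_bound (l : List ℂ) {A η' : ℝ} (hη' : 0 < η') :
    ∃ η L0 : ℝ, 0 < η ∧ 1 ≤ L0 ∧ ∀ (Z : ℂ → ℂ) (L Y : ℝ), L0 ≤ L → Dat Z A η L Y (1 / 4) →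
      ∀ l' : List ℂ, l' <:+ l → ∀ s : ℂ, s.re = 2 → |s.im| ≤ Y → ‖Gl Z l' s‖ ≤ Real.exp (η' * L) := by
  induction l with
  | nil =>
    refine ⟨η', 1, hη', le_rfl, ?_⟩
    intro Z L Y hL hZ l' hl' s hs1 hs2
    rw [List.suffix_nil.1 hl']
    exact hZ.rt s (by linarith) (by linarith) (by linarith)
  | cons c l ih =>
    obtain ⟨η1, L1, hη1, hL1, h1⟩ := ih
    obtain ⟨η2, L2, hη2, hL2, h2⟩ := dat_list (c :: l) A (1 / 4) η' (by norm_num) (by norm_num) hη'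
    refine ⟨min η1 η2, max L1 L2, by positivity, hL1.trans (le_max_left _ _), ?_⟩
    intro Z L Y hL hZ l' hl' s hs1 hs2
    have k1 : L1 ≤ L := (le_max_left _ _).trans hL
    have k2 : L2 ≤ L := (le_max_right _ _).trans hL
    have hL0 : 0 ≤ L := by linarith
    rcases List.suffix_cons_iff.1 hl' with h | h
    · rw [h]
      exact (dat_big (by positivity) (h2 Z L Y k2 (hZ.mono hL0 le_rfl (min_le_right _ _) le_rfl
        le_rfl))).rt s hs1 hs2
    · exact h1 Z L Y k1 (hZ.mono hL0 le_rfl (min_le_left _ _) le_rfl le_rfl) l' h s hs1 hs2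

/-- a zero-free box of `Fc` gives a zero-free region of `Z` -/
theorem main1 {C : ℂ} (hC : C ≠ 0) (l : List ℂ) {A κ : ℝ} (hA : 0 ≤ A) (hκ : 0 < κ) (hκ1 : κ ≤ 1) :
    ∃ Y η L0 : ℝ, 0 < Y ∧ 0 < η ∧ 1 ≤ L0 ∧ ∀ (Z A0 : ℂ → ℂ) (L Y' δ : ℝ) (s : ℂ), L0 ≤ L →
      |s.im| + Y ≤ Y' → Dat Z A η L Y' (1 / 4) → Sm A0 η L Y' → -1 ≤ δ → δ ≤ 1 / 2 → -1 ≤ s.re →
      s.re ≤ δ - κ → (∀ w : ℂ, -1 < w.re → w.re < δ → |w.im - s.im| ≤ Y → Fc Z C l A0 w ≠ 0) →
      Z s ≠ 0 := by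
  have hC0 : 0 < ‖C‖ := norm_pos_iff.2 hC
  obtain ⟨η, L1, hη, hη8, hL1, h1⟩ := dn l (κ / 2) (by positivity) (by linarith)
  obtain ⟨η2, hη2, hη2a, hη2b⟩ : ∃ η2 : ℝ, 0 < η2 ∧ 4 * η2 ≤ η ∧ 8 * η2 ≤ κ :=
    ⟨min (η / 4) (κ / 8), by positivity, by have := min_le_left (η / 4) (κ / 8); linarith,
      by have := min_le_right (η / 4) (κ / 8); linarith⟩
  have hlen : (0 : ℝ) ≤ (l.length : ℝ) := Nat.cast_nonneg _
  obtain ⟨Y, hY, h2⟩ := plr (A := A + l.length + 1) (by positivity) hη2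
  obtain ⟨η3, hη3, h3⟩ := one (A := A + l.length + 1) (κ := κ / 2) (η := η2) (by positivity)
    (by positivity) hη2
  obtain ⟨η4, L4, hη4, hL4, h4⟩ := fc_big hC l hA (η' := min η2 η3) (by positivity)
  obtain ⟨η5, L5, hη5, hL5, h5⟩ := suf_bound l (A := A) hη
  obtain ⟨L6, hL6, h6⟩ := const_le_exp (2 / ‖C‖) hη2
  obtain ⟨L7, hL7, h7⟩ := const_le_exp (1 / η) (ε := κ / 8) (by positivity)
  obtain ⟨L8, hL8, h8⟩ := const_le_exp ‖C‖ hη
  obtain ⟨L9, hL9, h9⟩ := const_le_exp (1 / ‖C‖) hη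
  obtain ⟨η0, hη0, hη0a, hη0b, hη0c⟩ : ∃ η0 : ℝ, 0 < η0 ∧ η0 ≤ η4 ∧ η0 ≤ η5 ∧ η0 ≤ η2 :=
    ⟨min η4 (min η5 η2), by positivity, min_le_left _ _, (min_le_right _ _).trans (min_le_left _ _),
      (min_le_right _ _).trans (min_le_right _ _)⟩
  obtain ⟨L0, g1, g4, g5, g6, g7, g8, g9⟩ : ∃ L0 : ℝ, L1 ≤ L0 ∧ L4 ≤ L0 ∧ L5 ≤ L0 ∧ L6 ≤ L0 ∧
      L7 ≤ L0 ∧ L8 ≤ L0 ∧ L9 ≤ L0 := by
    refine ⟨max (max (max L1 L4) (max L5 L6)) (max L7 (max L8 L9)), ?_, ?_, ?_, ?_, ?_, ?_, ?_⟩ <;>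
      simp
  refine ⟨Y + 10, η0, L0, by linarith, hη0, by linarith, ?_⟩
  intro Z A0 L Y' δ s hL hY' hZ hA0 hδ0 hδ hs1 hs2 hfree
  have hLa : 1 ≤ L := by linarith
  have hL0 : 0 ≤ L := by linarith
  obtain ⟨t, ht⟩ : ∃ t : ℝ, t = s.im := ⟨_, rfl⟩
  rw [← ht] at hY' hfree
  have him : ∀ x : ℝ, (x + t * I : ℂ).im = t := by intro x; simp
  have hre : ∀ x : ℝ, (x + t * I : ℂ).re = x := by intro x; simp
  have hin : ∀ w : ℂ, |w.im - t| ≤ Y → |w.im| + 10 ≤ Y' := by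
    intro w hw
    have : |w.im| ≤ |w.im - t| + |t| := by
      calc |w.im| = |(w.im - t) + t| := by congr 1; ring
        _ ≤ _ := abs_add_le _ _
    linarith
  have htY : |t| ≤ Y' := by linarith
  have hB := h4 Z A0 L Y' (by linarith) (hZ.mono hL0 le_rfl hη0a le_rfl le_rfl)
    (hA0.mono hL0 hη0a le_rfl)
  -- regularity on the left part
  have hreg : ∀ w : ℂ, -2 ≤ w.re → w.re ≤ δ - κ / 2 → |w.im - t| ≤ Y → Rg (Fc Z C l A0) η2 L w := by
    intro w hw1 hw2 hw3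
    have hw4 := abs_le.1 hw3
    have hS : Side (Fc Z C l A0) (A + l.length + 1) η3 L δ w.im := by
      have hS1 := hB.side (δ := δ) hδ (hin w hw3)
      refine ⟨hS1.an, hS1.cr, fun v e1 e2 e3 => ?_⟩
      obtain ⟨f1, f2⟩ := hS1.sz v e1 e2 e3
      have hm : min η2 η3 ≤ η3 := min_le_right _ _
      exact ⟨(Real.exp_le_exp.2 (by gcongr)).trans f1, f2.trans (Real.exp_le_exp.2 (by gcongr))⟩
    refine h3 (Fc Z C l A0) L δ w hLa hδ0 hδ (by linarith) hw2 hS ?_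
    intro v hv1 hv2 hv3
    have hv4 := abs_le.1 hv3
    refine hfree v hv1 hv2 ?_
    rw [abs_le]
    constructor <;> linarith
  have hlin : ∀ x : ℝ, -2 ≤ x → x ≤ δ - κ / 2 → Rg (Fc Z C l A0) η2 L (x + t * I) := by
    intro x hx1 hx2
    refine hreg _ (by rw [hre]; exact hx1) (by rw [hre]; exact hx2) ?_
    rw [him, sub_self, abs_zero]
    linarith
  have hδκ : -1 ≤ δ - κ / 2 := by linarith
  have hpl : ∀ x : ℝ, δ - κ / 2 ≤ x → x ≤ 2 →
      ‖Fc Z C l A0 (x + t * I)‖ ≤ Real.exp ((1 / 2 - (δ - κ / 2) + 2 * η2) * L) := by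
    intro x hx1 hx2
    refine h2 (Fc Z C l A0) L (δ - κ / 2) (1 / 2 - (δ - κ / 2)) t hL0 hδκ (by linarith) (by linarith)
      ?_ ?_ x hx1 hx2
    · intro w hw1 hw2 hw3
      have := hin w hw3
      exact ⟨hB.an w (by linarith) hw2 (by linarith), hB.cr w (by linarith) hw2 (by linarith)⟩
    · intro w hw1 hw2
      have h10 := hin w hw2
      rcases hw1 with hw1 | hw1
      · have := (hreg w (by linarith) hw1.le hw2).up
        rwa [hw1] at this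
      · refine (hB.rt w hw1 (by linarith)).trans (Real.exp_le_exp.2 ?_)
        have hm : min η2 η3 ≤ η2 := min_le_left _ _
        have : min η2 η3 ≤ 1 / 2 - (δ - κ / 2) + η2 := by linarith
        gcongr
  have hAb : ∀ x : ℝ, -2 ≤ x → x ≤ 2 → ‖A0 (x + t * I)‖ ≤ Real.exp (η2 * L) := by
    intro x hx1 hx2
    refine (hA0.le _ (by rw [hre]; linarith) (by rw [hre]; exact hx2) (by rw [him]; exact htY)).trans
      (Real.exp_le_exp.2 (by gcongr))
  have key := h1 Z L t (δ - κ / 2) (Fc Z C l A0) C (by linarith) (by linarith)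
    (fun x hx1 hx2 => hZ.an _ (by rw [hre]; linarith) (by rw [hre]; linarith) (by rw [him]; linarith))
    (fun l' hl' => h5 Z L Y' (by linarith) (hZ.mono hL0 le_rfl hη0b le_rfl le_rfl) l' hl' _
      (by simp) (by simp; exact htY))
    (fun x hx1 hx2 => (hlin x hx1 hx2).mono hL0 (by linarith))
    (by
      rw [Real.exp_neg, inv_le_comm₀ (Real.exp_pos _) hC0]
      have := h9 L (by linarith)
      rwa [one_div] at this)
    (h8 L (by linarith))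
    (by
      intro x hx1 hx2
      have e1 : C * Gl Z l (x + t * I) - Fc Z C l A0 (x + t * I) = A0 (x + t * I) := by
        unfold Fc; ring
      rw [e1]
      have e2 := (hlin x hx1 hx2).lo
      rw [hre] at e2
      have e3 := h7 L (by linarith)
      rw [div_le_iff₀ hη] at e3
      have e4 : Real.exp (κ / 8 * L) * Real.exp (η2 * L) ≤ Real.exp ((1 / 2 - x - η2) * L) := by
        rw [← Real.exp_add]
        apply Real.exp_le_exp.2
        have : κ / 8 + η2 ≤ 1 / 2 - x - η2 := by linarith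
        calc κ / 8 * L + η2 * L = (κ / 8 + η2) * L := by ring
          _ ≤ _ := by gcongr
      calc ‖A0 (x + t * I)‖ ≤ 1 * Real.exp (η2 * L) := by rw [one_mul]; exact hAb x hx1 (by linarith)
        _ ≤ (Real.exp (κ / 8 * L) * η) * Real.exp (η2 * L) := by gcongr
        _ = η * (Real.exp (κ / 8 * L) * Real.exp (η2 * L)) := by ring
        _ ≤ η * ‖Fc Z C l A0 (x + t * I)‖ := by
            gcongr
            exact e4.trans e2)
    (by
      intro x hx1 hx2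
      have e1 : ‖C‖ * ‖Gl Z l (x + t * I)‖ ≤ ‖Fc Z C l A0 (x + t * I)‖ + Real.exp (η2 * L) := by
        rw [← norm_mul]
        calc ‖C * Gl Z l (x + t * I)‖ = ‖Fc Z C l A0 (x + t * I) + A0 (x + t * I)‖ := by
              congr 1; unfold Fc; ring
          _ ≤ ‖Fc Z C l A0 (x + t * I)‖ + ‖A0 (x + t * I)‖ := norm_add_le _ _
          _ ≤ _ := by gcongr; exact hAb x (by linarith) hx2
      have e2 := hpl x hx1 hx2
      have e3 : Real.exp (η2 * L) ≤ Real.exp ((1 / 2 - (δ - κ / 2) + 2 * η2) * L) := by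
        apply Real.exp_le_exp.2
        have : η2 ≤ 1 / 2 - (δ - κ / 2) + 2 * η2 := by linarith
        gcongr
      have e5 : ‖Gl Z l (x + t * I)‖ ≤
          2 / ‖C‖ * Real.exp ((1 / 2 - (δ - κ / 2) + 2 * η2) * L) := by
        rw [div_mul_eq_mul_div, le_div_iff₀ hC0, mul_comm]
        linarith
      calc _ ≤ _ := e5
        _ ≤ Real.exp (η2 * L) * Real.exp ((1 / 2 - (δ - κ / 2) + 2 * η2) * L) := by
            gcongr
            exact h6 L (by linarith)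
        _ = Real.exp ((1 / 2 - (δ - κ / 2) + 3 * η2) * L) := by rw [← Real.exp_add]; congr 1; ring
        _ ≤ _ := by
            apply Real.exp_le_exp.2
            have : 3 * η2 ≤ η := by linarith
            gcongr)
  have hss : s = ((s.re : ℝ) : ℂ) + t * I := by
    apply Complex.ext
    · simp
    · simp [ht]
  rw [hss]
  exact key s.re (by linarith) (by linarith)

/-- a zero-free box of `Z` gives a zero-free region of `Fc` -/
theorem main2 {C : ℂ} (hC : C ≠ 0) (l : List ℂ) {A κ : ℝ} (hA : 0 ≤ A) (hκ : 0 < κ) (hκ1 : κ ≤ 1) :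
    ∃ η L0 : ℝ, 0 < η ∧ 1 ≤ L0 ∧ ∀ (Z A0 : ℂ → ℂ) (L Y' δ : ℝ) (s : ℂ), L0 ≤ L →
      |s.im| + 11 ≤ Y' → Dat Z A η L Y' (1 / 4) → Sm A0 η L Y' → -1 ≤ δ → δ ≤ 1 / 2 → -1 ≤ s.re →
      s.re ≤ δ - κ → (∀ w : ℂ, -1 < w.re → w.re < δ → |w.im - s.im| ≤ 11 → Z w ≠ 0) →
      Fc Z C l A0 s ≠ 0 := by
  have hC0 : 0 < ‖C‖ := norm_pos_iff.2 hC
  obtain ⟨η, L1, hη, hL1, h1⟩ := up_list l (κ / 2) (κ / 4) (by positivity) (by linarith)
    (by positivity)
  obtain ⟨η2, hη2, h2⟩ := one (A := A) (κ := κ / 2) (η := η) hA (by positivity) hη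
  obtain ⟨L3, hL3, h3⟩ := const_le_exp (2 / ‖C‖) (ε := κ / 4) (by positivity)
  refine ⟨min η2 (κ / 4), max L1 L3, by positivity, hL1.trans (le_max_left _ _), ?_⟩
  intro Z A0 L Y' δ s hL hY' hZ hA0 hδ0 hδ hs1 hs2 hfree
  have k1 : L1 ≤ L := (le_max_left _ _).trans hL
  have k3 : L3 ≤ L := (le_max_right _ _).trans hL
  have hLa : 1 ≤ L := by linarith
  have hL0 : 0 ≤ L := by linarith
  have hG := h1 Z L s k1 (by
    intro w hw
    have h4 := abs_le.1 ((Complex.abs_re_le_norm (w - s)).trans hw)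
    have h5 := abs_le.1 ((Complex.abs_im_le_norm (w - s)).trans hw)
    have h5' := (Complex.abs_im_le_norm (w - s)).trans hw
    rw [Complex.sub_re] at h4
    rw [Complex.sub_im] at h5 h5'
    have h6 : |w.im| ≤ |s.im| + 1 := by
      calc |w.im| = |s.im + (w.im - s.im)| := by congr 1; ring
        _ ≤ _ := abs_add_le _ _
        _ ≤ _ := by linarith
    refine h2 Z L δ w hLa hδ0 hδ (by linarith) (by linarith)
      ((dat_big (by norm_num) (hZ.mono hL0 le_rfl (min_le_left _ _) le_rfl le_rfl)).side hδ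
        (by linarith)) ?_
    intro v hv1 hv2 hv3
    have hv4 := abs_le.1 hv3
    refine hfree v hv1 hv2 ?_
    rw [abs_le]
    constructor <;> linarith)
  have e1 := hG.lo
  have e2 := h3 _ k3
  rw [div_le_iff₀ hC0] at e2
  have e3 : Real.exp (κ / 4 * L) * Real.exp (κ / 4 * L) ≤ Real.exp ((1 / 2 - s.re - κ / 4) * L) := by
    rw [← Real.exp_add]
    apply Real.exp_le_exp.2
    have : κ / 4 + κ / 4 ≤ 1 / 2 - s.re - κ / 4 := by linarith
    calc _ = (κ / 4 + κ / 4) * L := by ring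
      _ ≤ _ := by gcongr
  have e4 : ‖A0 s‖ ≤ Real.exp (κ / 4 * L) := by
    refine (hA0.le s (by linarith) (by linarith) (by linarith)).trans (Real.exp_le_exp.2 ?_)
    have := min_le_right η2 (κ / 4)
    gcongr
  intro h0
  have e5 : C * Gl Z l s = A0 s := by
    unfold Fc at h0
    exact sub_eq_zero.1 h0
  have e6 : ‖C‖ * ‖Gl Z l s‖ = ‖A0 s‖ := by rw [← norm_mul, e5]
  have e7 : 2 * Real.exp (κ / 4 * L) ≤ ‖C‖ * ‖Gl Z l s‖ := by
    calc 2 * Real.exp (κ / 4 * L) ≤ (Real.exp (κ / 4 * L) * ‖C‖) * Real.exp (κ / 4 * L) := by gcongr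
      _ = ‖C‖ * (Real.exp (κ / 4 * L) * Real.exp (κ / 4 * L)) := by ring
      _ ≤ _ := by
          gcongr
          exact e3.trans e1
  have e8 := Real.exp_pos (κ / 4 * L)
  linarith

/-- local comparison -/
theorem main3 {C C' : ℂ} (hC : C ≠ 0) (hC' : C' ≠ 0) (l l' : List ℂ) {A ε : ℝ} (hA : 0 ≤ A)
    (hε : 0 < ε) (hε1 : ε ≤ 1 / 4) :
    ∃ Y η L0 : ℝ, 0 < Y ∧ 0 < η ∧ 1 ≤ L0 ∧ ∀ (Z A0 A1 : ℂ → ℂ) (L Y' : ℝ) (ρ : ℂ), L0 ≤ L →
      |ρ.im| + Y ≤ Y' → Dat Z A η L Y' (1 / 4) → Sm A0 η L Y' → Sm A1 η L Y' →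
      Fc Z C l A0 ρ = 0 → -1 < ρ.re → ρ.re < 1 / 2 - ε →
      ∃ ρ' : ℂ, Fc Z C' l' A1 ρ' = 0 ∧ -1 < ρ'.re ∧ ρ'.re < ρ.re + ε ∧ |ρ'.im - ρ.im| ≤ Y := by
  obtain ⟨Y3, η3, L3, hY3, hη3, hL3, h3⟩ := main1 hC' l' (κ := ε / 2) hA (by positivity) (by linarith)
  obtain ⟨η4, L4, hη4, hL4, h4⟩ := main2 hC l (κ := ε / 4) hA (by positivity) (by linarith)
  refine ⟨Y3 + 11, min η3 η4, max L3 L4, by linarith, by positivity, hL3.trans (le_max_left _ _), ?_⟩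
  intro Z A0 A1 L Y' ρ hL hY' hZ hA0 hA1 h0 hρ1 hρ2
  have k3 : L3 ≤ L := (le_max_left _ _).trans hL
  have k4 : L4 ≤ L := (le_max_right _ _).trans hL
  have hL0 : 0 ≤ L := by linarith
  by_contra hno
  push Not at hno
  have hz : ∀ s : ℂ, -1 < s.re → s.re < ρ.re + ε / 2 → |s.im - ρ.im| ≤ 11 → Z s ≠ 0 := by
    intro s hs1 hs2 hs3
    have hs4 := abs_le.1 hs3
    have hs5 : |s.im| ≤ |ρ.im| + 11 := by
      calc |s.im| = |ρ.im + (s.im - ρ.im)| := by congr 1; ring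
        _ ≤ _ := abs_add_le _ _
        _ ≤ _ := by linarith
    refine h3 Z A1 L Y' (ρ.re + ε) s k3 (by linarith) (hZ.mono hL0 le_rfl (min_le_left _ _) le_rfl
      le_rfl) (hA1.mono hL0 (min_le_left _ _) le_rfl) (by linarith) (by linarith) hs1.le
      (by linarith) ?_
    intro w hw1 hw2 hw3 hw0
    have hw4 := abs_le.1 hw3
    have h5 := hno w hw0 hw1 hw2
    have h6 : |w.im - ρ.im| ≤ Y3 + 11 := by
      rw [abs_le]
      constructor <;> linarith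
    linarith
  exact h4 Z A0 L Y' (ρ.re + ε / 2) ρ k4 (by linarith) (hZ.mono hL0 le_rfl (min_le_right _ _) le_rfl
    le_rfl) (hA0.mono hL0 (min_le_right _ _) le_rfl) (by linarith) (by linarith) hρ1.le
    (by linarith) hz h0

end Pool.Agent.Y853.LC
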